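import Mathlib

/-! Lipschitz functions on the d-ary tree: vertices are words over `Fin d`, the root is the empty
word and the children of `v` are the words `v ++ [a]`. -/

namespace Pool.Agent.P.MP_23c5a6_pr

open MeasureTheory Filter Topology

/-- `f` is 1-Lipschitz on the whole tree. -/
def Lip {d : ℕ} (f : List (Fin d) → ℤ) : Prop := ∀ (v : List (Fin d)) (a : Fin d), |f (v ++ [a]) - f v| ≤ 1

/-- Lipschitz functions on the ball of radius `n` with leaf values in `S`, extended by zero. -/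
def finLip (d n : ℕ) (S : Set ℤ) : Set (List (Fin d) → ℤ) :=
  {f | (∀ (v : List (Fin d)) (a : Fin d), v.length < n → |f (v ++ [a]) - f v| ≤ 1) ∧
    (∀ v : List (Fin d), v.length = n → f v ∈ S) ∧ ∀ v : List (Fin d), n < v.length → f v = 0}

/-- The cylinder event that `f` agrees with `η` on `U`. -/
def cyl {d : ℕ} (U : Finset (List (Fin d))) (η : List (Fin d) → ℤ) : Set (List (Fin d) → ℤ) :=
  {f | ∀ u ∈ U, f u = η u}

/-- `μ` is the local weak limit of the uniform measures on `finLip d n S`. -/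
def IsLocalLimit (d : ℕ) (S : Set ℤ) (μ : Measure (List (Fin d) → ℤ)) : Prop :=
  IsProbabilityMeasure μ ∧ ∀ (U : Finset (List (Fin d))) (η : List (Fin d) → ℤ),
    Tendsto (fun n => ((finLip d n S ∩ cyl U η).ncard : ℝ) / ((finLip d n S).ncard : ℝ)) atTop
      (𝓝 (μ.real (cyl U η)))

open Classical in
/-- Probability of the values `η` on `U` under the uniform law on the Lipschitz functions that
agree with `f` outside `U`. -/
noncomputable def gam {d : ℕ} (U : Finset (List (Fin d))) (η f : List (Fin d) → ℤ) : ℝ :=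
  if Lip (fun v => if v ∈ U then η v else f v) then
    1 / ({g : List (Fin d) → ℤ | Lip g ∧ ∀ v, v ∉ U → g v = f v}.ncard : ℝ) else 0

/-- Gibbs measures of the uniform Lipschitz specification. -/
def IsGibbs {d : ℕ} (ν : Measure (List (Fin d) → ℤ)) : Prop :=
  IsProbabilityMeasure ν ∧ (∀ᵐ f ∂ν, Lip f) ∧
    ∀ (U : Finset (List (Fin d))) (η : List (Fin d) → ℤ),
      condExp (cylinderEvents (X := fun _ : List (Fin d) => ℤ) {v | v ∉ U}) ν
        ((cyl U η).indicator (fun _ => (1 : ℝ))) =ᵐ[ν] gam U η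

/-- Extremal Gibbs measures. -/
def IsExtremalGibbs {d : ℕ} (μ : Measure (List (Fin d) → ℤ)) : Prop :=
  IsGibbs μ ∧ ∀ (t : NNReal) (ν₁ ν₂ : Measure (List (Fin d) → ℤ)), 0 < t → t < 1 →
    IsGibbs ν₁ → IsGibbs ν₂ → μ = t • ν₁ + (1 - t) • ν₂ → ν₁ = ν₂

end Pool.Agent.P.MP_23c5a6_pr
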