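import Pool.Agent.P.MP_23c5a6_pr.HC

namespace Pool.Agent.P.MP_23c5a6_pr

open Finset Filter Topology

variable {c d : ℕ} {h : ℕ → ℝ}

lemma IsFix.pos (hc : c ≤ 1) (F : IsFix c d h) (n : ℕ) : 0 < h n := by
  have hy := yy_zero_ge hc F.inv
  induction n with
  | zero => rw [F.inv.h0]; norm_num
  | succ n ih =>
    rw [F.fix]
    have : 0 < yy c h (n + 1) := by
      have := F.inv.nn (n + 1); have := F.inv.nn (n + 2); simp only [yy]; linarith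
    positivity

lemma IsFix.ypos (hc : c ≤ 1) (F : IsFix c d h) (n : ℕ) : 0 < yy c h n := by
  cases n with
  | zero => linarith [yy_zero_ge hc F.inv]
  | succ n =>
    have := F.pos hc n; have := F.pos hc (n + 1); have := F.pos hc (n + 2)
    simp only [yy]; linarith

noncomputable def ZZ (c : ℕ) (h : ℕ → ℝ) : ℝ := ∑' n, 2 * om c n * (h n * yy c h n)

lemma term_nn (hc : c ≤ 1) (H : Inv h) (n : ℕ) : 0 ≤ 2 * om c n * (h n * yy c h n) := by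
  have := H.nn n; have := yy_nn hc H n
  have : 0 < om c n := by cases n <;> simp only [om] <;> positivity
  positivity

lemma term_le (hc : c ≤ 1) (H : Inv h) (j : ℕ) :
    2 * om c (j + 3) * (h (j + 3) * yy c h (j + 3)) ≤ 2 * (h 3 * yy c h 3) * (1 / 4) ^ j := by
  simp only [om, mul_one]
  induction j with
  | zero => simp
  | succ j ih =>
    have h1 := H.half (j + 3) (by omega)
    have h2 := yy_half (c := c) H (j + 3) (by omega)
    have h3 := mul_le_mul h1 h2 (yy_nn hc H _) (by have := H.nn (j + 3); positivity)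
    rw [pow_succ, show j + 1 + 3 = j + 3 + 1 by ring]
    linarith

lemma summable_term (hc : c ≤ 1) (H : Inv h) :
    Summable fun n => 2 * om c n * (h n * yy c h n) := by
  rw [← summable_nat_add_iff 3]
  exact Summable.of_nonneg_of_le (fun n => term_nn hc H _) (term_le hc H)
    ((summable_geometric_of_lt_one (by norm_num) (by norm_num)).mul_left _)

lemma ZZ_ge (hc : c ≤ 1) (H : Inv h) (M : ℕ) :
    ∑ n ∈ range M, 2 * om c n * (h n * yy c h n) ≤ ZZ c h :=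
  (summable_term hc H).sum_le_tsum _ fun n _ => term_nn hc H n

lemma ZZ_le (hc : c ≤ 1) (H : Inv h) : ZZ c h ≤ (1 + c) * yy c h 0 + 2 * (h 1 * yy c h 1) +
    2 * (h 2 * yy c h 2) + 8 / 3 * (h 3 * yy c h 3) := by
  unfold ZZ
  rw [← (summable_term hc H).sum_add_tsum_nat_add 3]
  have h1 := ((summable_nat_add_iff 3).2 (summable_term hc H)).tsum_le_tsum (term_le hc H)
    ((summable_geometric_of_lt_one (by norm_num) (by norm_num)).mul_left _)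
  rw [tsum_mul_left, tsum_geometric_of_lt_one (by norm_num) (by norm_num)] at h1
  simp only [sum_range_succ, sum_range_zero, om, H.h0] at h1 ⊢
  norm_num at h1 ⊢
  linarith

lemma ZZ_pos (hc : c ≤ 1) (H : Inv h) : 0 < ZZ c h := by
  have := ZZ_ge hc H 1
  have h1 := yy_zero_ge hc H
  simp only [sum_range_one, om, H.h0] at this
  have : (0 : ℝ) < 2 * ((1 + c) / 2) * (1 * yy c h 0) := by positivity
  linarith

lemma hasSum_qq (hc : c ≤ 1) (H : Inv h) : HasSum (qq c h (ZZ c h)) 1 := by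
  have := (summable_term hc H).hasSum.div_const (ZZ c h)
  rw [show (∑' n, 2 * om c n * (h n * yy c h n)) = ZZ c h from rfl,
    div_self (ZZ_pos hc H).ne'] at this
  exact this

lemma ratioA (hc : c ≤ 1) (hd : 2 ≤ d) (F : IsFix c d h) {r : ℝ} (h0 : 0 ≤ r) (h1 : r ≤ 1)
    (hr : ∀ k, 2 ≤ k → yy c h (k + 1) ≤ r * yy c h k) (k : ℕ) (hk : 2 ≤ k) :
    h (k + 1) ≤ r ^ 2 * h k := by
  have y0 := F.ypos hc 0
  calc h (k + 1) = (yy c h (k + 1) / yy c h 0) ^ d := F.fix _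
    _ ≤ (r * (yy c h k / yy c h 0)) ^ d := by
      have := F.ypos hc (k + 1)
      rw [← mul_div_assoc]; gcongr; exact hr k hk
    _ = r ^ d * h k := by rw [mul_pow, ← F.fix]
    _ ≤ _ := mul_le_mul_of_nonneg_right (pow_le_pow_of_le_one h0 h1 hd) (F.inv.nn k)

lemma ratioB {q : ℝ} (hq : ∀ k, 2 ≤ k → h (k + 1) ≤ q * h k) (k : ℕ) (hk : 3 ≤ k) :
    yy c h (k + 1) ≤ q * yy c h k := by
  obtain ⟨m, rfl⟩ : ∃ m, k = m + 1 := ⟨k - 1, by omega⟩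
  have h1 := hq m (by omega); have h2 := hq (m + 1) (by omega); have h3 := hq (m + 2) (by omega)
  simp only [yy]; linarith

lemma ratios (hc : c ≤ 1) (hd : 2 ≤ d) (F : IsFix c d h) {ρ : ℝ} (r1 : 1 / 16 ≤ ρ) (r2 : ρ ≤ 1 / 4)
    (h3 : yy c h 3 ≤ ρ * yy c h 2) : (∀ k, 2 ≤ k → yy c h (k + 1) ≤ ρ * yy c h k) ∧
    (∀ k, 2 ≤ k → h (k + 1) ≤ ρ ^ 2 * h k) ∧ ∀ k, 3 ≤ k → yy c h (k + 1) ≤ ρ ^ 2 * yy c h k := by
  have up : ∀ {q r : ℝ}, ρ ≤ r → q ≤ r → (∀ k, 3 ≤ k → yy c h (k + 1) ≤ q * yy c h k) →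
      ∀ k, 2 ≤ k → yy c h (k + 1) ≤ r * yy c h k := by
    intro q r a b hq k hk
    rcases hk.eq_or_lt with rfl | hk
    · exact h3.trans (mul_le_mul_of_nonneg_right a (F.ypos hc _).le)
    · exact (hq k hk).trans (mul_le_mul_of_nonneg_right b (F.ypos hc _).le)
  have s1 := ratioB (c := c) (ratioA hc hd F (r := 1 / 2) (by norm_num) (by norm_num)
    (fun k hk => by linarith [yy_half (c := c) F.inv k hk]))
  have s2 := ratioB (c := c) (ratioA hc hd F (r := 1 / 4) (by norm_num) (by norm_num)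
    (up r2 (by norm_num) s1))
  have s3 := up le_rfl (by linarith) s2
  have s4 := ratioA hc hd F (by linarith) (by linarith) s3
  exact ⟨s3, s4, ratioB s4⟩

lemma tailOk_of (hc : c ≤ 1) (hd : 2 ≤ d) (F : IsFix c d h) {ρ θ θ' C τ Zl Zu yl0 yu2 yu3 : ℝ}
    (r1 : 1 / 16 ≤ ρ) (r2 : ρ ≤ 1 / 4) (h3 : yy c h 3 ≤ ρ * yy c h 2) (t0 : 0 < θ) (t0' : 0 < θ')
    (tau0 : 0 < τ) (hZl : Zl ≤ ZZ c h) (hZu : ZZ c h ≤ Zu) (hl0 : 0 < yl0) (hy0 : yl0 ≤ yy c h 0)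
    (hy2 : yy c h 2 ≤ yu2) (hy3 : yy c h 3 ≤ yu3)
    (hτ : τ ^ 2 * (yu2 * yu3 * (1 + ρ ^ 2 + ρ ^ 4)) ≤ Zl * (1 + ρ ^ (d - 1) + (ρ ^ 3) ^ (d - 1)))
    (hC : Zu ^ (d - 1) / yl0 ^ (2 * d) * (1 + ρ ^ (d - 1) + (ρ ^ 3) ^ (d - 1)) ^ (d - 1) *
      (1 + ρ ^ (d - 1) / θ + (ρ ^ 3) ^ (d - 1) / θ') * (1 + θ + θ') ≤ C) :
    TailOk c d h (ZZ c h) θ θ' C τ := by
  refine ⟨t0, t0', tau0, fun n hn => ?_⟩
  obtain ⟨R2, Q2, R3⟩ := ratios hc hd F r1 r2 h3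
  obtain ⟨e, rfl⟩ : ∃ e, d = e + 1 := ⟨d - 1, by omega⟩
  simp only [Nat.add_sub_cancel] at hτ hC
  have hρ : 0 < ρ := by linarith
  have hZ := ZZ_pos hc F.inv
  set Z := ZZ c h
  have y0 := F.ypos hc 0
  have ya := F.ypos hc n; have yb := F.ypos hc (n + 1); have yc := F.ypos hc (n + 2)
  have pa := F.pos hc n; have pb := F.pos hc (n + 1); have pc := F.pos hc (n + 2)
  have hg : ∀ j, h j / yy c h j = yy c h j ^ e / yy c h 0 ^ (e + 1) := by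
    intro j
    have := F.ypos hc j
    rw [F.fix j, div_pow]; field_simp; ring
  have g1 : h (n + 1) / yy c h (n + 1) ≤ ρ ^ e * (h n / yy c h n) := by
    rw [hg, hg, ← mul_div_assoc, ← mul_pow]; gcongr; exact R2 n hn
  have g2 : h (n + 2) / yy c h (n + 2) ≤ (ρ ^ 3) ^ e * (h n / yy c h n) := by
    rw [hg, hg, ← mul_div_assoc, ← mul_pow]; gcongr
    have a1 := R2 n hn
    have a2 := R3 (n + 1) (by omega)
    calc yy c h (n + 2) ≤ ρ ^ 2 * yy c h (n + 1) := a2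
      _ ≤ ρ ^ 2 * (ρ * yy c h n) := by gcongr
      _ = _ := by ring
  set r := ρ ^ e
  set r' := (ρ ^ 3) ^ e
  have hr : 0 < r := by positivity
  have hr' : 0 < r' := by positivity
  set mn := Z / yy c h (n + 1) ^ 2 * (h n / yy c h n) with hmn
  have hmn0 : 0 < mn := by positivity
  have hX : √(mn * (1 + r + r')) ^ 2 = mn * (1 + r + r') := Real.sq_sqrt (by positivity)
  refine ⟨√(mn * (1 + r + r')), mn * (1 + r / θ + r' / θ'), ?_, ?_, ?_, ?_⟩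
  · apply Real.le_sqrt_of_sq_le
    have b1 : yy c h (n + 1) ≤ h n * (1 + ρ ^ 2 + ρ ^ 4) := by
      have a1 := Q2 n hn
      have a2 := Q2 (n + 1) (by omega)
      have a3 := mul_le_mul_of_nonneg_left a1 (sq_nonneg ρ)
      simp only [yy]; nlinarith
    have b2 : yy c h (n + 1) ≤ yu3 := (yy_le_three F.inv hc _ (by omega)).trans hy3
    have b3 : yy c h n ≤ yu2 := by
      rcases hn.eq_or_lt with rfl | hn
      · exact hy2
      · have := yy_le_three F.inv hc _ hn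
        have := yy_half (c := c) F.inv 2 le_rfl
        have := F.ypos hc 2
        norm_num at *; linarith
    have u2 : 0 < yu2 := by linarith
    have u3 : 0 < yu3 := by linarith
    rw [← le_div_iff₀ (by positivity)] at hτ
    refine hτ.trans ?_
    rw [mul_div_right_comm]
    gcongr
    rw [hmn, div_mul_div_comm, div_le_div_iff₀ (by positivity) (by positivity)]
    calc Zl * (yy c h (n + 1) ^ 2 * yy c h n) ≤ Z * (yy c h (n + 1) ^ 2 * yy c h n) := by gcongr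
      _ = Z * (yy c h n * yy c h (n + 1) * yy c h (n + 1)) := by ring
      _ ≤ Z * (yu2 * yu3 * (h n * (1 + ρ ^ 2 + ρ ^ 4))) := by gcongr
      _ = _ := by ring
  · rw [hX, hmn, mul_assoc]; gcongr; linarith
  · rw [hmn, mul_assoc]; gcongr
    have a1 := div_le_div_of_nonneg_right g1 t0.le
    have a2 := div_le_div_of_nonneg_right g2 t0'.le
    calc _ ≤ h n / yy c h n + r * (h n / yy c h n) / θ + r' * (h n / yy c h n) / θ' := by linarith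
      _ = _ := by ring
  · refine le_trans ?_ hC
    rw [show 2 * (e + 1) - 2 = 2 * e by omega, pow_mul, hX, mul_pow]
    have key : qq c h Z (n + 1) / 2 * mn ^ (e + 1) ≤ Zu ^ e / yl0 ^ (2 * (e + 1)) := by
      have k1 : (h n / yy c h n) ^ (e + 1) = h n ^ e / yy c h 0 ^ (e + 1) := by
        have := F.fix n
        rw [div_pow, eq_div_iff (by positivity)] at this
        rw [div_pow, ← this]; field_simp; ring
      have k2 : qq c h Z (n + 1) / 2 * mn ^ (e + 1) =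
          Z ^ e * (h n / yy c h (n + 1)) ^ e / yy c h 0 ^ (2 * (e + 1)) := by
        rw [hmn, mul_pow, k1]
        simp only [qq, om]
        rw [F.fix (n + 1)]
        simp only [div_pow]
        field_simp; ring
      rw [k2]
      have k3 : (h n / yy c h (n + 1)) ^ e ≤ 1 := by
        apply pow_le_one₀ (by positivity)
        rw [div_le_one yb]; simp only [yy]; linarith
      have : 0 ≤ Zu := by linarith
      calc _ ≤ Z ^ e * 1 / yy c h 0 ^ (2 * (e + 1)) := by gcongr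
        _ ≤ _ := by rw [mul_one]; gcongr
    calc _ = qq c h Z (n + 1) / 2 * mn ^ (e + 1) * (1 + r + r') ^ e * (1 + r / θ + r' / θ') *
          (1 + θ + θ') := by ring
      _ ≤ _ := by gcongr

/-- half-line form of the strict `2 → 2d` hypercontractive inequality -/
def HCH (c d : ℕ) (h : ℕ → ℝ) (ε : ℝ) : Prop :=
  ∀ (a b : ℕ → ℝ) (M : ℕ) (m : ℝ), (∀ n, 0 ≤ a n) → (∀ n, 0 ≤ b n) → (c = 0 → a 0 = b 0) →
    (∀ n, M ≤ n → a n = 0 ∧ b n = 0) →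
    ∑ n ∈ range M, qq c h (ZZ c h) n / 2 * (a n ^ 2 + b n ^ 2) = 1 →
    m = ∑ n ∈ range M, qq c h (ZZ c h) n / 2 * (a n + b n) → ∀ M' : ℕ,
    ∑ n ∈ range M', qq c h (ZZ c h) n / 2 *
      (PA c h a b n ^ (2 * d) + PA c h b a n ^ (2 * d)) ≤ 1 - ε * (1 - m ^ 2)

def Good (c d : ℕ) : Prop := ∃ h ε, IsFix c d h ∧ 0 < ε ∧ HCH c d h ε

structure NumCert (c d : ℕ) (l1 u1 l2 u2 l3 u3 l4 u4 yl0 yl1 yl2 yl3 yu0 yu1 yu2 yu3 g1 g2 g3
    Zl Zu ρ θ θ' C τ : ℝ) (D0 D1 D2 : PD) : Prop where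
  a0 : yl0 ≤ 1 + c + (2 - c) * l1
  a1 : yl1 ≤ 1 + l1 + l2
  a2 : yl2 ≤ l1 + l2 + l3
  a3 : yl3 ≤ l2 + l3 + l4
  b0 : 1 + c + (2 - c) * u1 ≤ yu0
  b1 : 1 + u1 + u2 ≤ yu1
  b2 : u1 + u2 + u3 ≤ yu2
  b3 : u2 + u3 + u4 ≤ yu3
  c0 : 0 < yl0
  c1 : 0 < yl1
  c2 : 0 < yl2
  c3 : 0 < yl3
  l10 : 0 ≤ l1
  l20 : 0 ≤ l2
  hg1 : u1 / yl1 ≤ g1
  hg2 : u2 / yl2 ≤ g2
  hg3 : u3 / yl3 ≤ g3
  zl : Zl ≤ (1 + c) * yl0 + 2 * (l1 * yl1) + 2 * (l2 * yl2)
  zl0 : 0 < Zl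
  zu : (1 + c) * yu0 + 2 * (u1 * yu1) + 2 * (u2 * yu2) + 8 / 3 * (u3 * yu3) ≤ Zu
  r1 : 1 / 16 ≤ ρ
  r2 : ρ ≤ 1 / 4
  r3 : yu3 ≤ ρ * yl2
  t0 : 0 < θ
  t0' : 0 < θ'
  tau0 : 0 < τ
  C0 : 0 ≤ C
  hτ : τ ^ 2 * (yu2 * yu3 * (1 + ρ ^ 2 + ρ ^ 4)) ≤ Zl * (1 + ρ ^ (d - 1) + (ρ ^ 3) ^ (d - 1))
  hC : Zu ^ (d - 1) / yl0 ^ (2 * d) * (1 + ρ ^ (d - 1) + (ρ ^ 3) ^ (d - 1)) ^ (d - 1) *
      (1 + ρ ^ (d - 1) / θ + (ρ ^ 3) ^ (d - 1) / θ') * (1 + θ + θ') ≤ C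
  o0 : D0.Ok
  o1 : D1.Ok
  o2 : D2.Ok
  p0 : (1 + c) * yu0 / Zl / 2 ≤ D0.p
  p1 : u1 * yu1 / Zl ≤ D1.p
  p2 : u2 * yu2 / Zl ≤ D2.p
  e0 : Zu / yl0 ^ 2 * ((1 + c) / yl0 + (2 - c) ^ 2 * g1 / 2) - 1 ≤ D0.E ^ 2
  e1 : Zu / yl1 ^ 2 * (1 / ((1 + c) * yl0) + g1 / 2 + g2 / 2) - 1 ≤ D1.E ^ 2
  e2 : Zu / yl2 ^ 2 * (g1 / 2 + g2 / 2 + g3 / 2) - 1 ≤ D2.E ^ 2
  f0 : Zu / yl0 ^ 2 * (c * g1 / 2) ≤ D0.O ^ 2
  f1 : Zu / yl1 ^ 2 * (c / (2 * yl0) + g1 / 2 + g2 / 2) ≤ D1.O ^ 2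
  f2 : Zu / yl2 ^ 2 * (g1 / 2 + g2 / 2 + g3 / 2) ≤ D2.O ^ 2

theorem hch_of (hc : c ≤ 1) (hd : 2 ≤ d) (F : IsFix c d h)
    {l1 u1 l2 u2 l3 u3 l4 u4 yl0 yl1 yl2 yl3 yu0 yu1 yu2 yu3 g1 g2 g3 Zl Zu ρ θ θ' C τ ε : ℝ}
    {D0 D1 D2 : PD} (B : InB l1 u1 l2 u2 l3 u3 l4 u4 h)
    (N : NumCert c d l1 u1 l2 u2 l3 u3 l4 u4 yl0 yl1 yl2 yl3 yu0 yu1 yu2 yu3 g1 g2 g3
      Zl Zu ρ θ θ' C τ D0 D1 D2) (hε : 0 ≤ ε) (R : PolyOk d ε D0 D1 D2 C τ) : HCH c d h ε := by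
  have h0 := F.inv.h0
  have hc2 : (0 : ℝ) ≤ 2 - c := by
    have : (c : ℝ) ≤ 1 := by exact_mod_cast hc
    linarith
  have hc0 : (0 : ℝ) ≤ c := Nat.cast_nonneg c
  obtain ⟨a1, b1, a2, b2, a3, b3, a4, b4⟩ := B
  have p1 := F.pos hc 1; have p2 := F.pos hc 2; have p3 := F.pos hc 3
  have y0 := F.ypos hc 0; have y1 := F.ypos hc 1; have y2 := F.ypos hc 2; have y3 := F.ypos hc 3
  have L0 : yl0 ≤ yy c h 0 := N.a0.trans (by simp only [yy]; gcongr)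
  have L1 : yl1 ≤ yy c h 1 := N.a1.trans (by simp only [yy, h0]; norm_num; linarith)
  have L2 : yl2 ≤ yy c h 2 := N.a2.trans (by simp only [yy]; norm_num; linarith)
  have L3 : yl3 ≤ yy c h 3 := N.a3.trans (by simp only [yy]; norm_num; linarith)
  have U0 : yy c h 0 ≤ yu0 := le_trans (by simp only [yy]; gcongr) N.b0
  have U1 : yy c h 1 ≤ yu1 := le_trans (by simp only [yy, h0]; norm_num; linarith) N.b1
  have U2 : yy c h 2 ≤ yu2 := le_trans (by simp only [yy]; norm_num; linarith) N.b2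
  have U3 : yy c h 3 ≤ yu3 := le_trans (by simp only [yy]; norm_num; linarith) N.b3
  have c0 := N.c0; have c1 := N.c1; have c2 := N.c2; have c3 := N.c3
  have l10 := N.l10; have l20 := N.l20; have zl0 := N.zl0
  have v1 : 0 < u1 := by linarith
  have v2 : 0 < u2 := by linarith
  have v3 : 0 < u3 := by linarith
  have w0 : 0 < yu0 := by linarith
  have w1 : 0 < yu1 := by linarith
  have w2 : 0 < yu2 := by linarith
  have G1 : h 1 / yy c h 1 ≤ g1 := le_trans (by gcongr) N.hg1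
  have G2 : h 2 / yy c h 2 ≤ g2 := le_trans (by gcongr) N.hg2
  have G3 : h 3 / yy c h 3 ≤ g3 := le_trans (by gcongr) N.hg3
  have hZl : Zl ≤ ZZ c h := by
    refine N.zl.trans (le_trans ?_ (ZZ_ge hc F.inv 3))
    simp only [sum_range_succ, sum_range_zero, om, h0]
    have e0 : (1 + c) * yl0 ≤ (1 + c) * yy c h 0 := by gcongr
    have e1 : l1 * yl1 ≤ h 1 * yy c h 1 := by gcongr
    have e2 : l2 * yl2 ≤ h 2 * yy c h 2 := by gcongr
    linarith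
  have hZu : ZZ c h ≤ Zu := (ZZ_le hc F.inv).trans (le_trans (by gcongr) N.zu)
  have hZ := ZZ_pos hc F.inv
  have zu0 : 0 < Zu := by linarith
  have T := tailOk_of hc hd F N.r1 N.r2
    (U3.trans (N.r3.trans (by have := N.r1; gcongr))) N.t0 N.t0' N.tau0
    hZl hZu c0 L0 U2 U3 N.hτ N.hC
  have K : CenOk c h (ZZ c h) D0 D1 D2 := by
    refine ⟨N.o0, N.o1, N.o2, le_trans ?_ N.p0, le_trans ?_ N.p1, le_trans ?_ N.p2,
      le_trans ?_ N.e0, le_trans ?_ N.e1, le_trans ?_ N.e2, le_trans ?_ N.f0, le_trans ?_ N.f1,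
      le_trans ?_ N.f2⟩
    · simp only [qq, om, h0]
      rw [show 2 * ((1 + (c : ℝ)) / 2) * (1 * yy c h 0) = (1 + c) * yy c h 0 by ring]; gcongr
    · simp only [qq, om]
      rw [show 2 * 1 * (h 1 * yy c h 1) / ZZ c h / 2 = h 1 * yy c h 1 / ZZ c h by ring]; gcongr
    · simp only [qq, om]
      rw [show 2 * 1 * (h 2 * yy c h 2) / ZZ c h / 2 = h 2 * yy c h 2 / ZZ c h by ring]; gcongr
    all_goals gcongr
  intro a b M m ha hb hab hM hn hm M'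
  have hs := hasSum_qq hc F.inv
  exact hc_half hc hd h0 (F.pos hc) (F.ypos hc) hZ K T N.C0 hε R
    (fun M => sum_le_hasSum _ (fun i _ => (qq_pos (F.pos hc) (F.ypos hc) hZ i).le) hs)
    hs.tendsto_sum_nat ha hb hab hM hn hm M'

end Pool.Agent.P.MP_23c5a6_pr
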