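import Pool.Agent.P.MP_23c5a6_pr.Iter

namespace Pool.Agent.P.MP_23c5a6_pr

open Filter Topology

variable {c d : ℕ} {h h' : ℕ → ℝ}

/-- distance bound with weights `1, w2, w3, w3, ...` -/
def Close (w2 w3 D : ℝ) (h h' : ℕ → ℝ) : Prop :=
  |h 1 - h' 1| ≤ D ∧ |h 2 - h' 2| ≤ D * w2 ∧ ∀ n, 3 ≤ n → |h n - h' n| ≤ D * w3

lemma pow_diff {a b r e : ℝ} (ha : 0 ≤ a) (hb : 0 ≤ b) (har : a ≤ r) (hbr : b ≤ r)
    (he : |a - b| ≤ e) : |a ^ d - b ^ d| ≤ d * r ^ (d - 1) * e := by
  have h1 := abs_pow_sub_pow_le (a := a) (b := b) (n := d)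
  have h2 : max |a| |b| ≤ r := by rw [abs_of_nonneg ha, abs_of_nonneg hb]; exact max_le har hbr
  have hr : 0 ≤ r := ha.trans har
  have he0 := (abs_nonneg _).trans he
  calc _ ≤ _ := h1
    _ ≤ e * d * r ^ (d - 1) := by gcongr
    _ = _ := by ring

lemma ratio_diff {y z y' z' yb zl e1 e0 : ℝ} (hzl : 0 < zl) (hz : zl ≤ z) (hz' : zl ≤ z')
    (hy' : 0 ≤ y') (hyb : y' ≤ yb) (h1 : |y - y'| ≤ e1) (h0 : |z - z'| ≤ e0) :
    |y / z - y' / z'| ≤ e1 / zl + yb * e0 / zl ^ 2 := by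
  have hz0 : 0 < z := by linarith
  have hz0' : 0 < z' := by linarith
  have e : y / z - y' / z' = (y - y') / z + y' * (z' - z) / (z * z') := by field_simp; ring
  rw [e]
  refine (abs_add_le _ _).trans (add_le_add ?_ ?_)
  · rw [abs_div, abs_of_pos hz0]; gcongr; exact (abs_nonneg _).trans h1
  · rw [abs_div, abs_mul, abs_of_pos (mul_pos hz0 hz0'), abs_of_nonneg hy', abs_sub_comm, sq]
    have := (abs_nonneg _).trans h0
    have := hy'.trans hyb
    gcongr

structure ContrCert (c d : ℕ) (l1 u1 u2 u3 u4 w2 w3 κ : ℝ) : Prop where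
  l1nn : 0 ≤ l1
  w2p : 0 < w2
  w3p : 0 < w3
  k0 : 0 ≤ κ
  k1 : κ < 1
  c1 : d * ((1 + u1 + u2) / (1 + c + (2 - c) * l1)) ^ (d - 1) *
    ((1 + 2 * u2) / (1 + c + (2 - c) * l1) ^ 2 + w2 / (1 + c + (2 - c) * l1)) ≤ κ
  c2 : d * ((u1 + u2 + u3) / (1 + c + (2 - c) * l1)) ^ (d - 1) *
    ((1 + w2 + w3) / (1 + c + (2 - c) * l1) + (u1 + u2 + u3) * 2 / (1 + c + (2 - c) * l1) ^ 2)
      ≤ κ * w2
  c3 : d * ((u2 + u3 + u4) / (1 + c + (2 - c) * l1)) ^ (d - 1) *
    ((w2 + 3 * w3) / (1 + c + (2 - c) * l1) + (u2 + u3 + u4) * 2 / (1 + c + (2 - c) * l1) ^ 2)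
      ≤ κ * w3

lemma yy_le_three (H : Inv h) (hc : c ≤ 1) (n : ℕ) (hn : 3 ≤ n) : yy c h n ≤ yy c h 3 := by
  induction n, hn using Nat.le_induction with
  | base => exact le_rfl
  | succ n hn ih =>
    have := yy_half (c := c) H n (by omega); have := yy_nn hc H n; linarith

lemma Close.contr (hc : c ≤ 1) {l1 u1 l2 u2 l3 u3 l4 u4 w2 w3 κ D : ℝ}
    (C : ContrCert c d l1 u1 u2 u3 u4 w2 w3 κ) (H : Inv h) (H' : Inv h')
    (B : InB l1 u1 l2 u2 l3 u3 l4 u4 h) (B' : InB l1 u1 l2 u2 l3 u3 l4 u4 h')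
    (hD : Close w2 w3 D h h') : Close w2 w3 (κ * D) (Phi c d h) (Phi c d h') := by
  obtain ⟨d1, d2, d3⟩ := hD
  have hD0 : 0 ≤ D := (abs_nonneg _).trans d1
  set zl : ℝ := 1 + c + (2 - c) * l1 with hzl
  have hc2 : (0 : ℝ) ≤ 2 - c := by
    have : (c : ℝ) ≤ 1 := by exact_mod_cast hc
    linarith
  have hc0 : (0 : ℝ) ≤ c := Nat.cast_nonneg c
  have hzl0 : 0 < zl := by have := C.l1nn; positivity
  have hz : ∀ {g : ℕ → ℝ}, l1 ≤ g 1 → zl ≤ yy c g 0 := fun hg => by
    simp only [yy, hzl]; gcongr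
  have hz1 := hz B.a1
  have hz2 := hz B'.a1
  have h0 : |yy c h 0 - yy c h' 0| ≤ 2 * D := by
    have : yy c h 0 - yy c h' 0 = (2 - c) * (h 1 - h' 1) := by simp only [yy]; ring
    rw [this, abs_mul, abs_of_nonneg hc2]
    gcongr; linarith
  have hρ : ∀ {g : ℕ → ℝ} (n : ℕ) (yb : ℝ), Inv g → zl ≤ yy c g 0 → yy c g n ≤ yb →
      0 ≤ yy c g n / yy c g 0 ∧ yy c g n / yy c g 0 ≤ yb / zl := by
    intro g n yb G hg hyb
    have := yy_nn hc G n
    exact ⟨div_nonneg this (by linarith), by gcongr; linarith⟩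
  have gen : ∀ (n : ℕ) (yb e : ℝ), yy c h n ≤ yb → yy c h' n ≤ yb →
      |yy c h n / yy c h 0 - yy c h' n / yy c h' 0| ≤ e * D →
      |Phi c d h n - Phi c d h' n| ≤ (d * (yb / zl) ^ (d - 1) * e) * D := by
    intro n yb e h1 h2 h3
    have := pow_diff (d := d) (hρ n yb H hz1 h1).1 (hρ n yb H' hz2 h2).1 (hρ n yb H hz1 h1).2
      (hρ n yb H' hz2 h2).2 h3
    rw [mul_assoc _ e D]; exact this
  have y3 : ∀ {g : ℕ → ℝ}, Inv g → InB l1 u1 l2 u2 l3 u3 l4 u4 g → ∀ n, 3 ≤ n →
      yy c g n ≤ u2 + u3 + u4 := by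
    intro g G Bg n hn
    refine (yy_le_three G hc n hn).trans ?_
    have := Bg.b2; have := Bg.b3; have := Bg.b4
    simp only [yy]; norm_num; linarith
  refine ⟨?_, ?_, fun n hn => ?_⟩
  · refine (gen 1 (1 + u1 + u2) ((1 + 2 * u2) / zl ^ 2 + w2 / zl) ?_ ?_ ?_).trans
      (mul_le_mul_of_nonneg_right C.c1 hD0)
    · have := B.b1; have := B.b2; simp only [yy, H.h0]; norm_num; linarith
    · have := B'.b1; have := B'.b2; simp only [yy, H'.h0]; norm_num; linarith
    · have hy0 : 0 < yy c h 0 := by linarith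
      have hy0' : 0 < yy c h' 0 := by linarith
      have e : yy c h 1 / yy c h 0 - yy c h' 1 / yy c h' 0 =
          (h 1 - h' 1) * (1 + c - (2 - c) - (2 - c) * h' 2) / (yy c h 0 * yy c h' 0)
            + (h 2 - h' 2) / yy c h 0 := by
        field_simp
        simp only [yy, H.h0, H'.h0]; norm_num; ring
      rw [e]
      have hb : |1 + c - (2 - c) - (2 - c) * h' 2| ≤ 1 + 2 * u2 := by
        have := B'.b2; have := H'.nn 2
        rw [abs_le]
        interval_cases c <;> push_cast <;> constructor <;> linarith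
      refine (abs_add_le _ _).trans ?_
      rw [add_mul]
      refine add_le_add ?_ ?_
      · rw [abs_div, abs_mul, abs_of_pos (mul_pos hy0 hy0'), div_mul_eq_mul_div, mul_comm _ D, sq]
        have := (abs_nonneg _).trans hb
        gcongr
      · rw [abs_div, abs_of_pos hy0, div_mul_eq_mul_div, mul_comm _ D]
        have := C.w2p
        gcongr
  · have := gen 2 (u1 + u2 + u3) ((1 + w2 + w3) / zl + (u1 + u2 + u3) * 2 / zl ^ 2) ?_ ?_ ?_
    · refine this.trans ?_
      have := mul_le_mul_of_nonneg_right C.c2 hD0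
      linarith
    · have := B.b1; have := B.b2; have := B.b3; simp only [yy]; norm_num; linarith
    · have := B'.b1; have := B'.b2; have := B'.b3; simp only [yy]; norm_num; linarith
    · have hyb : yy c h' 2 ≤ u1 + u2 + u3 := by
        have := B'.b1; have := B'.b2; have := B'.b3; simp only [yy]; norm_num; linarith
      have h1 : |yy c h 2 - yy c h' 2| ≤ (1 + w2 + w3) * D := by
        have := d3 3 le_rfl
        rw [abs_le] at *
        simp only [yy]; norm_num; constructor <;> linarith [d1.1, d1.2, d2.1, d2.2, this.1, this.2]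
      refine (ratio_diff hzl0 hz1 hz2 (yy_nn hc H' 2) hyb h1 h0).trans (le_of_eq ?_)
      ring
  · have := gen n (u2 + u3 + u4) ((w2 + 3 * w3) / zl + (u2 + u3 + u4) * 2 / zl ^ 2)
      (y3 H B n hn) (y3 H' B' n hn) ?_
    · refine this.trans ?_
      have := mul_le_mul_of_nonneg_right C.c3 hD0
      linarith
    · have h1 : |yy c h n - yy c h' n| ≤ (w2 + 3 * w3) * D := by
        obtain ⟨m, rfl⟩ : ∃ m, n = m + 1 := ⟨n - 1, by omega⟩
        have e1 := d3 (m + 1) (by omega)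
        have e2 := d3 (m + 2) (by omega)
        have hw2 := mul_nonneg hD0 C.w2p.le
        have hw3 := mul_nonneg hD0 C.w3p.le
        have e0 : |h m - h' m| ≤ D * w2 + D * w3 := by
          rcases (show m = 2 ∨ 3 ≤ m by omega) with rfl | hm
          · linarith
          · linarith [d3 m hm]
        rw [abs_le] at *
        simp only [yy]; constructor <;> linarith [e0.1, e0.2, e1.1, e1.2, e2.1, e2.2]
      refine (ratio_diff hzl0 hz1 hz2 (yy_nn hc H' n) (y3 H' B' n hn) h1 h0).trans (le_of_eq ?_)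
      ring

lemma Inv.le_one (H : Inv h) (n : ℕ) : h n ≤ 1 := by
  rcases Nat.eq_zero_or_pos n with rfl | hn
  · exact H.h0.le
  · induction n, hn using Nat.le_induction with
    | base => exact H.h1
    | succ n hn ih => have := H.half n hn; have := H.nn n; linarith

structure IsFix (c d : ℕ) (h : ℕ → ℝ) : Prop where
  inv : Inv h
  lim : ∀ n, Tendsto (fun N => orb c d N n) atTop (𝓝 (h n))
  fix : ∀ n, h n = (yy c h n / yy c h 0) ^ d

theorem exists_fix (hc : c ≤ 1) (hd : 2 ≤ d) {l1 u1 l2 u2 l3 u3 l4 u4 w2 w3 κ : ℝ}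
    (C : ContrCert c d l1 u1 u2 u3 u4 w2 w3 κ) {N0 : ℕ}
    (hB : ∀ N, InB l1 u1 l2 u2 l3 u3 l4 u4 (orb c d (N0 + N))) :
    ∃ h, IsFix c d h ∧ InB l1 u1 l2 u2 l3 u3 l4 u4 h := by
  set D0 : ℝ := 1 + 1 / w2 + 1 / w3 with hD0
  have hw2 := C.w2p
  have hw3 := C.w3p
  have hcl : ∀ N, Close w2 w3 (κ ^ N * D0) (orb c d (N0 + N)) (orb c d (N0 + N + 1)) := by
    intro N
    induction N with
    | zero =>
      have hb : ∀ n, |orb c d N0 n - orb c d (N0 + 1) n| ≤ 1 := by
        intro n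
        have I1 := inv_orb hc hd N0
        have I2 := inv_orb hc hd (N0 + 1)
        have := I1.nn n; have := I1.le_one n; have := I2.nn n; have := I2.le_one n
        rw [abs_le]; constructor <;> linarith
      have p2 : 0 < 1 / w2 := by positivity
      have p3 : 0 < 1 / w3 := by positivity
      have q2 : 1 ≤ D0 * w2 := by
        have : D0 * w2 = 1 + (1 + 1 / w3) * w2 := by rw [hD0]; field_simp; ring
        rw [this]; have : 0 ≤ (1 + 1 / w3) * w2 := by positivity
        linarith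
      have q3 : 1 ≤ D0 * w3 := by
        have : D0 * w3 = 1 + (1 + 1 / w2) * w3 := by rw [hD0]; field_simp; ring
        rw [this]; have : 0 ≤ (1 + 1 / w2) * w3 := by positivity
        linarith
      simp only [pow_zero, one_mul, add_zero]
      exact ⟨(hb 1).trans (by linarith), (hb 2).trans q2, fun n _ => (hb n).trans q3⟩
    | succ N ih =>
      have := ih.contr (d := d) hc C (inv_orb hc hd _) (inv_orb hc hd _) (hB N) (hB (N + 1))
      rw [show κ ^ (N + 1) * D0 = κ * (κ ^ N * D0) by ring]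
      exact this
  have hcau : ∀ n, CauchySeq (fun N => orb c d (N0 + N) n) := by
    intro n
    apply cauchySeq_of_le_geometric κ (D0 * (1 + w2 + w3)) C.k1
    intro N
    obtain ⟨e1, e2, e3⟩ := hcl N
    have hk : 0 ≤ κ ^ N * D0 := (abs_nonneg _).trans e1
    have f2 := mul_nonneg hk hw2.le
    have f3 := mul_nonneg hk hw3.le
    rw [Real.dist_eq, show D0 * (1 + w2 + w3) * κ ^ N =
      κ ^ N * D0 + κ ^ N * D0 * w2 + κ ^ N * D0 * w3 by ring]
    rcases (show n = 0 ∨ n = 1 ∨ n = 2 ∨ 3 ≤ n by omega) with rfl | rfl | rfl | hn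
    · rw [(inv_orb hc hd _).h0, (inv_orb hc hd _).h0]; simp; linarith
    · exact e1.trans (by linarith)
    · exact e2.trans (by linarith)
    · exact (e3 n hn).trans (by linarith)
  choose g hg using fun n => cauchySeq_tendsto_of_complete (hcau n)
  have hlim : ∀ n, Tendsto (fun N => orb c d N n) atTop (𝓝 (g n)) := by
    intro n
    rw [← tendsto_add_atTop_iff_nat N0]
    simpa [add_comm] using hg n
  have hI : Inv g := by
    refine ⟨?_, fun n => ge_of_tendsto' (hlim n) fun N => (inv_orb hc hd N).nn n,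
      le_of_tendsto' (hlim 1) fun N => (inv_orb hc hd N).h1, fun n hn => ?_⟩
    · refine tendsto_nhds_unique (hlim 0) ?_
      simp only [(inv_orb hc hd _).h0]; exact tendsto_const_nhds
    · exact le_of_tendsto_of_tendsto' (hlim (n + 1)) ((hlim n).div_const 2)
        fun N => (inv_orb hc hd N).half n hn
  have hy : ∀ n, Tendsto (fun N => yy c (orb c d N) n) atTop (𝓝 (yy c g n)) := by
    intro n
    cases n with
    | zero => exact ((hlim 1).const_mul _).const_add _
    | succ n => exact ((hlim n).add (hlim (n + 1))).add (hlim (n + 2))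
  refine ⟨g, ⟨hI, hlim, fun n => ?_⟩, ?_⟩
  · refine tendsto_nhds_unique ((tendsto_add_atTop_iff_nat 1).2 (hlim n)) ?_
    have := yy_zero_ge hc hI
    exact ((hy n).div (hy 0) (by linarith)).pow d
  · exact ⟨ge_of_tendsto' (hg 1) fun N => (hB N).a1, le_of_tendsto' (hg 1) fun N => (hB N).b1,
      ge_of_tendsto' (hg 2) fun N => (hB N).a2, le_of_tendsto' (hg 2) fun N => (hB N).b2,
      ge_of_tendsto' (hg 3) fun N => (hB N).a3, le_of_tendsto' (hg 3) fun N => (hB N).b3,
      ge_of_tendsto' (hg 4) fun N => (hB N).a4, le_of_tendsto' (hg 4) fun N => (hB N).b4⟩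

end Pool.Agent.P.MP_23c5a6_pr
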