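import Pool.Agent.P.MP_23c5a6_pr.Key

namespace Pool.Agent.P.MP_23c5a6_pr

open Finset Filter Topology

/-- configurations on level `n` -/
def Lev (d : ℕ) : ℕ → Type
  | 0 => ℤ
  | n + 1 => Fin d → Lev d n

noncomputable instance (d n : ℕ) : DecidableEq (Lev d n) := Classical.decEq _

noncomputable def mm (d : ℕ) (x : ℤ → ℝ) : (n : ℕ) → ℤ → Lev d n → ℝ
  | 0, i, ξ => if ξ = i then 1 else 0
  | n + 1, i, ξ => ∏ a, Pm x (fun j => mm d x n j (ξ a)) i

noncomputable def mp (d : ℕ) (x : ℤ → ℝ) (n : ℕ) (i : ℤ) (ξ : Lev d n) : ℝ :=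
  Pm x (fun j => mm d x n j ξ) i

noncomputable def supp (d : ℕ) : (n : ℕ) → ℤ → Finset (Lev d n)
  | 0, i => {i}
  | n + 1, i => Fintype.piFinset fun _ : Fin d => supp d n (i - 1) ∪ supp d n i ∪ supp d n (i + 1)

noncomputable def supp' (d n : ℕ) (i : ℤ) : Finset (Lev d n) :=
  supp d n (i - 1) ∪ supp d n i ∪ supp d n (i + 1)

variable {d : ℕ} {x pi : ℤ → ℝ} {ε : ℝ}

lemma mm_nn (hx : ∀ i, 0 < x i) : ∀ (n : ℕ) (i : ℤ) (ξ : Lev d n), 0 ≤ mm d x n i ξ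
  | 0, i, ξ => by simp only [mm]; split_ifs <;> norm_num
  | n + 1, i, ξ => prod_nonneg fun a _ => Pm_nn hx (fun j => mm_nn hx n j _) _

lemma mp_nn (hx : ∀ i, 0 < x i) (n : ℕ) (i : ℤ) (ξ : Lev d n) : 0 ≤ mp d x n i ξ :=
  Pm_nn hx (fun j => mm_nn hx n j _) _

lemma mp_zero_of {n : ℕ} (h : ∀ i ξ, ξ ∉ supp d n i → mm d x n i ξ = 0) (i : ℤ) (ξ : Lev d n)
    (hξ : ξ ∉ supp' d n i) : mp d x n i ξ = 0 := by
  simp only [supp', mem_union, not_or] at hξ
  simp [mp, Pm, h _ _ hξ.1.1, h _ _ hξ.1.2, h _ _ hξ.2]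

lemma mm_zero : ∀ (n : ℕ) (i : ℤ) (ξ : Lev d n), ξ ∉ supp d n i → mm d x n i ξ = 0
  | 0, i, ξ => by
    intro h; simp only [supp] at h
    simp only [mm]; rw [if_neg]; intro hh; exact h (mem_singleton.2 hh)
  | n + 1, i, ξ => by
    intro h
    have : ∃ a, ξ a ∉ supp' d n i := by
      by_contra hh; push Not at hh; exact h (Fintype.mem_piFinset.2 hh)
    obtain ⟨a, ha⟩ := this
    exact prod_eq_zero (mem_univ a) (mp_zero_of (mm_zero n) i _ ha)

lemma mp_zero (n : ℕ) (i : ℤ) (ξ : Lev d n) (hξ : ξ ∉ supp' d n i) : mp d x n i ξ = 0 :=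
  mp_zero_of (mm_zero n) i ξ hξ

lemma sum_Pm {α : Type*} (G : Finset α) (f : ℤ → α → ℝ) (i : ℤ) :
    ∑ ξ ∈ G, Pm x (fun j => f j ξ) i = Pm x (fun j => ∑ ξ ∈ G, f j ξ) i := by
  simp only [Pm, ← sum_div, sum_add_distrib, mul_sum]

lemma mp_sum_of (hx : ∀ i, 0 < x i) {n : ℕ} (h : ∀ i, ∑ ξ ∈ supp d n i, mm d x n i ξ = 1) (i : ℤ) :
    ∑ ξ ∈ supp' d n i, mp d x n i ξ = 1 := by
  have k : ∀ j, supp d n j ⊆ supp' d n i → ∑ ξ ∈ supp' d n i, mm d x n j ξ = 1 := fun j hj => by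
    rw [← h j]; exact (sum_subset hj fun ξ _ hξ => mm_zero n j ξ hξ).symm
  have := YY_pos hx i
  simp only [mp, sum_Pm]
  rw [Pm, k _ (subset_union_left.trans subset_union_left),
    k _ (subset_union_right.trans subset_union_left), k _ subset_union_right]
  field_simp; rfl

lemma mm_sum (hx : ∀ i, 0 < x i) : ∀ (n : ℕ) (i : ℤ), ∑ ξ ∈ supp d n i, mm d x n i ξ = 1
  | 0, i => (sum_singleton (fun ξ : Lev d 0 => mm d x 0 i ξ) i).trans (if_pos rfl)
  | n + 1, i => by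
    have := prod_univ_sum (fun _ : Fin d => supp' d n i) (fun _ ξ => mp d x n i ξ)
    rw [mp_sum_of hx (mm_sum hx n)] at this
    simp only [prod_const_one] at this
    exact this.symm

lemma mp_sum (hx : ∀ i, 0 < x i) (n : ℕ) (i : ℤ) : ∑ ξ ∈ supp' d n i, mp d x n i ξ = 1 :=
  mp_sum_of hx (mm_sum hx n) i

lemma mm_fin (hd : 0 < d) : ∀ (n : ℕ) (ξ : Lev d n), ∃ F : Finset ℤ, ∀ i, i ∉ F → mm d x n i ξ = 0
  | 0, ξ => ⟨{ξ}, fun i hi => by
      simp only [mm]; rw [if_neg]; intro hh; exact hi (mem_singleton.2 hh.symm)⟩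
  | n + 1, ξ => by
    obtain ⟨F, hF⟩ := mm_fin hd n (ξ ⟨0, hd⟩)
    exact ⟨nb F, fun i hi => prod_eq_zero (mem_univ ⟨0, hd⟩) (Pm_zero hF i hi)⟩

noncomputable def QQ (d : ℕ) (x pi : ℤ → ℝ) (n : ℕ) (ξ : Lev d n) : ℝ := ∑' i, pi i * mm d x n i ξ

noncomputable def kl (u q : ℝ) : ℝ := u * Real.log (u / q) - u + q

lemma kl_nn {u q : ℝ} (hu : 0 ≤ u) (hq : 0 ≤ q) (h : 0 < u → 0 < q) : 0 ≤ kl u q := by
  rcases hu.eq_or_lt with rfl | h0
  · simpa [kl] using hq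
  · have hq0 := h h0
    have := Real.one_sub_inv_le_log_of_pos (div_pos h0 hq0)
    have h2 := mul_le_mul_of_nonneg_left this hu
    have : u * (1 - (u / q)⁻¹) = u - q := by field_simp
    unfold kl; linarith

/-- a nonnegative finitely supported vector dominated by `q` in the absolute continuity sense -/
structure Vec (u : ℤ → ℝ) (q : ℝ) : Prop where
  nn : ∀ i, 0 ≤ u i
  fin : ∃ F : Finset ℤ, ∀ i, i ∉ F → u i = 0
  q0 : 0 ≤ q
  ac : ∀ i, 0 < u i → 0 < q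

lemma Chain.hasSum_kl (C : Chain d x pi ε) {u : ℤ → ℝ} {q : ℝ} (V : Vec u q) :
    HasSum (fun i => pi i * kl (u i) q)
      (∑' i, pi i * (u i * Real.log (u i / q)) - ∑' i, pi i * u i + q) := by
  obtain ⟨F, hF⟩ := V.fin
  have s1 : Summable fun i => pi i * (u i * Real.log (u i / q)) :=
    summable_of_ne_finset_zero (s := F) fun i hi => by simp [hF i hi]
  have s2 : Summable fun i => pi i * u i :=
    summable_of_ne_finset_zero (s := F) fun i hi => by simp [hF i hi]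
  have := (s1.hasSum.sub s2.hasSum).add (C.sum.mul_right q)
  rw [one_mul] at this
  exact this.congr_fun fun i => by unfold kl; ring

lemma Chain.tsum_kl (C : Chain d x pi ε) {u : ℤ → ℝ} {q : ℝ} (V : Vec u q) :
    ∑' i, ENNReal.ofReal (pi i * kl (u i) q) =
      ENNReal.ofReal (∑' i, pi i * (u i * Real.log (u i / q)) - ∑' i, pi i * u i + q) := by
  rw [← (C.hasSum_kl V).tsum_eq, ENNReal.ofReal_tsum_of_nonneg
    (fun i => mul_nonneg (C.pi_pos i).le (kl_nn (V.nn i) V.q0 (V.ac i))) (C.hasSum_kl V).summable]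

lemma Chain.kl_sum_nn (C : Chain d x pi ε) {u : ℤ → ℝ} {q : ℝ} (V : Vec u q) :
    0 ≤ ∑' i, pi i * (u i * Real.log (u i / q)) - ∑' i, pi i * u i + q :=
  (C.hasSum_kl V).nonneg fun i => mul_nonneg (C.pi_pos i).le (kl_nn (V.nn i) V.q0 (V.ac i))

lemma Chain.vec_of (C : Chain d x pi ε) {u : ℤ → ℝ} (h1 : ∀ i, 0 ≤ u i)
    (h2 : ∃ F : Finset ℤ, ∀ i, i ∉ F → u i = 0) : Vec u (∑' i, pi i * u i) := by
  obtain ⟨F, hF⟩ := h2
  have s2 : Summable fun i => pi i * u i :=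
    summable_of_ne_finset_zero (s := F) fun i hi => by simp [hF i hi]
  refine ⟨h1, ⟨F, hF⟩, tsum_nonneg fun i => mul_nonneg (C.pi_pos i).le (h1 i), fun i hi => ?_⟩
  exact (mul_pos (C.pi_pos i) hi).trans_le
    (le_hasSum s2.hasSum i fun j _ => mul_nonneg (C.pi_pos j).le (h1 j))

lemma Chain.vec_mm (C : Chain d x pi ε) (hd : 0 < d) (n : ℕ) (ξ : Lev d n) :
    Vec (fun i => mm d x n i ξ) (QQ d x pi n ξ) :=
  C.vec_of (fun i => mm_nn C.pos n i ξ) (mm_fin hd n ξ)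

lemma Chain.QQ_mp (C : Chain d x pi ε) (hd : 0 < d) (n : ℕ) (ξ : Lev d n) :
    ∑' i, pi i * mp d x n i ξ = QQ d x pi n ξ := by
  obtain ⟨F, hF⟩ := mm_fin (x := x) hd n ξ
  exact C.stat hF

lemma Chain.vec_mp (C : Chain d x pi ε) (hd : 0 < d) (n : ℕ) (ξ : Lev d n) :
    Vec (fun i => mp d x n i ξ) (QQ d x pi n ξ) := by
  obtain ⟨F, hF⟩ := mm_fin (x := x) hd n ξ
  rw [← C.QQ_mp hd]
  exact C.vec_of (fun i => mp_nn C.pos n i ξ) ⟨nb F, Pm_zero hF⟩

lemma Chain.hasSum_QQ (C : Chain d x pi ε) (hd : 0 < d) (n : ℕ) : HasSum (QQ d x pi n) 1 := by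
  have h1 : ∀ i, HasSum (fun ξ => pi i * mm d x n i ξ) (pi i) := by
    intro i
    have := hasSum_sum_of_ne_finset_zero (L := SummationFilter.unconditional _)
      (f := fun ξ => pi i * mm d x n i ξ) (s := supp d n i)
      (fun ξ hξ => by simp [mm_zero n i ξ hξ])
    rwa [← mul_sum, mm_sum C.pos, mul_one] at this
  have h2 : Summable fun p : ℤ × Lev d n => pi p.1 * mm d x n p.1 p.2 := by
    rw [summable_prod_of_nonneg fun p => mul_nonneg (C.pi_pos _).le (mm_nn C.pos _ _ _)]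
    refine ⟨fun i => (h1 i).summable, ?_⟩
    simp only [(h1 _).tsum_eq]; exact C.sum.summable
  have h3 : HasSum (fun p : ℤ × Lev d n => pi p.1 * mm d x n p.1 p.2) 1 := by
    have := h2.hasSum
    rwa [h2.tsum_prod' fun i => (h1 i).summable, tsum_congr fun i => (h1 i).tsum_eq,
      C.sum.tsum_eq] at this
  have h4 := (Equiv.prodComm _ _).hasSum_iff.2 h3
  refine h4.prod_fiberwise fun ξ => ?_
  obtain ⟨F, hF⟩ := mm_fin (x := x) hd n ξ
  exact (summable_of_ne_finset_zero (s := F) fun i hi => by simp [hF i hi]).hasSum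

lemma tsum_kl_fix {α : Type*} {μ Q : α → ℝ} {G : Finset α} {p qs : ℝ} (hp : 0 ≤ p)
    (h0 : ∀ ξ, 0 ≤ μ ξ) (hG : ∀ ξ, ξ ∉ G → μ ξ = 0) (h1 : ∑ ξ ∈ G, μ ξ = 1) (hQ0 : ∀ ξ, 0 ≤ Q ξ)
    (hQ : HasSum Q qs) (ac : ∀ ξ, 0 < μ ξ → 0 < Q ξ) :
    ∑' ξ, ENNReal.ofReal (p * kl (μ ξ) (Q ξ)) =
      ENNReal.ofReal (p * (∑ ξ ∈ G, μ ξ * Real.log (μ ξ / Q ξ) - 1 + qs)) := by
  have s1 := hasSum_sum_of_ne_finset_zero (L := SummationFilter.unconditional _)
      (f := fun ξ => μ ξ * Real.log (μ ξ / Q ξ) - μ ξ) (s := G) (fun ξ hξ => by simp [hG ξ hξ])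
  rw [sum_sub_distrib, h1] at s1
  have s2 : HasSum (fun ξ => p * kl (μ ξ) (Q ξ)) _ := (s1.add hQ).mul_left p
  rw [← s2.tsum_eq, ENNReal.ofReal_tsum_of_nonneg
    (fun ξ => mul_nonneg hp (kl_nn (h0 ξ) (hQ0 ξ) (ac ξ))) s2.summable]

noncomputable def II (d : ℕ) (x pi : ℤ → ℝ) (n : ℕ) : ENNReal :=
  ∑' ξ, ∑' i, ENNReal.ofReal (pi i * kl (mm d x n i ξ) (QQ d x pi n ξ))

noncomputable def JJ (d : ℕ) (x pi : ℤ → ℝ) (n : ℕ) : ENNReal :=
  ∑' ξ, ∑' i, ENNReal.ofReal (pi i * kl (mp d x n i ξ) (QQ d x pi n ξ))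

noncomputable def hel (d : ℕ) (x pi : ℤ → ℝ) (n : ℕ) (ξ : Lev d n) : ℝ :=
  QQ d x pi n ξ * (1 - (∑' i, pi i * √(mp d x n i ξ / QQ d x pi n ξ)) ^ 2)

noncomputable def HH (d : ℕ) (x pi : ℤ → ℝ) (ε : ℝ) (n : ℕ) : ENNReal :=
  ∑' ξ, ENNReal.ofReal (ε * hel d x pi n ξ)

lemma Chain.dev' (C : Chain d x pi ε) (hd : 0 < d) (n : ℕ) (ξ : Lev d n) (j : ℤ) :
    QQ d x pi n ξ * (pi j * (√(mp d x n j ξ / QQ d x pi n ξ) -
      ∑' i, pi i * √(mp d x n i ξ / QQ d x pi n ξ)) ^ 2) ≤ hel d x pi n ξ := by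
  have V := C.vec_mp hd n ξ
  rcases V.q0.eq_or_lt with h0 | h0
  · unfold hel; rw [← h0]; simp
  · obtain ⟨F, hF⟩ := V.fin
    refine mul_le_mul_of_nonneg_left (C.dev (F := F)
      (v := fun i => √(mp d x n i ξ / QQ d x pi n ξ)) (fun i hi => by simp [hF i hi]) ?_ j) h0.le
    have : ∀ i, pi i * √(mp d x n i ξ / QQ d x pi n ξ) ^ 2 = pi i * mp d x n i ξ / QQ d x pi n ξ :=
      fun i => by rw [Real.sq_sqrt (div_nonneg (V.nn i) V.q0)]; ring
    simp only [this]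
    rw [tsum_div_const, C.QQ_mp hd, div_self h0.ne']

lemma Chain.hel_nn (C : Chain d x pi ε) (hd : 0 < d) (n : ℕ) (ξ : Lev d n) : 0 ≤ hel d x pi n ξ :=
  le_trans (mul_nonneg (C.vec_mp hd n ξ).q0 (mul_nonneg (C.pi_pos 0).le (sq_nonneg _)))
    (C.dev' hd n ξ 0)

lemma Chain.step2 (C : Chain d x pi ε) (hd : 0 < d) (n : ℕ) :
    d * JJ d x pi n + HH d x pi ε n ≤ II d x pi n := by
  unfold JJ HH II
  rw [← ENNReal.tsum_mul_left, ← ENNReal.tsum_add]
  refine ENNReal.tsum_le_tsum fun ξ => ?_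
  have V := C.vec_mm hd n ξ
  have V' := C.vec_mp hd n ξ
  have h1 := C.kl_sum_nn V'
  rw [C.tsum_kl V, C.tsum_kl V', ← ENNReal.ofReal_natCast, ← ENNReal.ofReal_mul (by positivity),
    ← ENNReal.ofReal_add (by positivity) (mul_nonneg C.eps.le (C.hel_nn hd n ξ))]
  apply ENNReal.ofReal_le_ofReal
  rw [C.QQ_mp hd, show (∑' i, pi i * mm d x n i ξ) = QQ d x pi n ξ from rfl, sub_add_cancel,
    sub_add_cancel]
  unfold hel
  set Q := QQ d x pi n ξ
  rcases V.q0.eq_or_lt with h0 | h0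
  · rw [← h0]; simp
  · obtain ⟨F, hF⟩ := V.fin
    have hP : ∀ i, Pm x (fun j => mm d x n j ξ / Q) i = mp d x n i ξ / Q := by
      intro i; simp only [mp, Pm]; ring
    have := C.key (r := fun j => mm d x n j ξ / Q) (fun i => div_nonneg (V.nn i) V.q0) (F := F)
      (fun i hi => by simp [hF i hi]) (by
        simp only [← mul_div_assoc]
        rw [tsum_div_const]; exact div_self h0.ne')
    simp only [hP] at this
    have e : ∀ u : ℤ → ℝ, ∑' i, pi i * (u i * Real.log (u i / Q)) =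
        Q * ∑' i, pi i * (u i / Q * Real.log (u i / Q)) := by
      intro u; rw [← tsum_mul_left]; congr 1; ext i; field_simp
    rw [e, e (fun i => mm d x n i ξ)]
    have := mul_le_mul_of_nonneg_left this h0.le
    linarith

lemma sum_pi_mul {α : Type*} [DecidableEq α] (S : Finset α) (μ g : α → ℝ) (h1 : ∑ ξ ∈ S, μ ξ = 1)
    (a : Fin d) : ∑ ξ ∈ Fintype.piFinset (fun _ : Fin d => S), (∏ b, μ (ξ b)) * g (ξ a) =
      ∑ ξ ∈ S, μ ξ * g ξ := by
  have := prod_univ_sum (fun _ : Fin d => S) (fun b ξ => μ ξ * if b = a then g ξ else 1)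
  simp only [prod_mul_distrib, prod_ite_eq', mem_univ, if_true] at this
  rw [← this, ← mul_prod_erase univ _ (mem_univ a), prod_eq_one, mul_one]
  · simp
  · intro b hb; simp [ne_of_mem_erase hb, h1]

lemma sum_prod_le {α : Type*} {Q : α → ℝ} (h0 : ∀ ξ, 0 ≤ Q ξ) (h1 : ∀ G : Finset α, ∑ ξ ∈ G, Q ξ ≤ 1)
    (G : Finset (Fin d → α)) : ∑ ξ ∈ G, ∏ a, Q (ξ a) ≤ 1 := by
  classical
  set S := G.biUnion fun ξ => univ.image ξ
  have hs : G ⊆ Fintype.piFinset fun _ : Fin d => S := fun ξ hξ =>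
    Fintype.mem_piFinset.2 fun a => mem_biUnion.2 ⟨ξ, hξ, mem_image_of_mem _ (mem_univ a)⟩
  refine (sum_le_sum_of_subset_of_nonneg hs fun ξ _ _ => prod_nonneg fun a _ => h0 _).trans ?_
  rw [← prod_univ_sum (fun _ : Fin d => S) (fun _ ξ => Q ξ)]
  exact prod_le_one (fun a _ => sum_nonneg fun ξ _ => h0 ξ) fun a _ => h1 S

lemma Chain.step1 (C : Chain d x pi ε) (hd : 0 < d) (n : ℕ) :
    II d x pi (n + 1) ≤ d * JJ d x pi n := by
  set Q' : Lev d (n + 1) → ℝ := fun ξ => ∏ a, QQ d x pi n (ξ a) with hQ'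
  have q0 : ∀ ξ, 0 ≤ QQ d x pi n ξ := fun ξ => (C.vec_mp hd n ξ).q0
  have q0' : ∀ ξ, 0 ≤ Q' ξ := fun ξ => prod_nonneg fun a _ => q0 _
  have hle : ∀ G : Finset (Lev d (n + 1)), ∑ ξ ∈ G, Q' ξ ≤ 1 :=
    sum_prod_le q0 fun G => sum_le_hasSum G (fun ξ _ => q0 ξ) (C.hasSum_QQ hd n)
  have hsum : Summable Q' := summable_of_sum_le q0' hle
  have hqs : ∑' ξ, Q' ξ ≤ 1 := hsum.tsum_le_of_sum_le hle
  have mpp : ∀ i (ξ : Lev d (n + 1)), 0 < mm d x (n + 1) i ξ → ∀ a, 0 < mp d x n i (ξ a) := by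
    intro i ξ h a
    refine (mp_nn C.pos n i _).lt_of_ne fun hh => h.ne' ?_
    exact prod_eq_zero (mem_univ a) hh.symm
  have ac : ∀ i ξ, 0 < mm d x (n + 1) i ξ → 0 < Q' ξ := fun i ξ h =>
    prod_pos fun a _ => (C.vec_mp hd n _).ac i (mpp i ξ h a)
  have s1 : II d x pi (n + 1) ≤
      ∑' ξ, ∑' i, ENNReal.ofReal (pi i * kl (mm d x (n + 1) i ξ) (Q' ξ)) := by
    refine ENNReal.tsum_le_tsum fun ξ => ?_
    have V := C.vec_mm hd (n + 1) ξ
    have V' : Vec (fun i => mm d x (n + 1) i ξ) (Q' ξ) := ⟨V.nn, V.fin, q0' ξ, fun i => ac i ξ⟩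
    rw [C.tsum_kl V, C.tsum_kl V']
    apply ENNReal.ofReal_le_ofReal
    obtain ⟨F, hF⟩ := V.fin
    have hQ : QQ d x pi (n + 1) ξ = ∑ i ∈ F, pi i * mm d x (n + 1) i ξ :=
      tsum_eq_sum fun i hi => by simp [hF i hi]
    rw [tsum_eq_sum (s := F) (fun i hi => by simp [hF i hi]),
      tsum_eq_sum (s := F) (fun i hi => by simp [hF i hi]),
      tsum_eq_sum (s := F) (fun i hi => by simp [hF i hi]), ← hQ]
    set Q := QQ d x pi (n + 1) ξ
    have pt : ∀ i ∈ F, pi i * (mm d x (n + 1) i ξ * Real.log (mm d x (n + 1) i ξ / Q)) ≤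
        pi i * (mm d x (n + 1) i ξ * Real.log (mm d x (n + 1) i ξ / Q' ξ)) +
          pi i * mm d x (n + 1) i ξ * (Q' ξ / Q - 1) := by
      intro i _
      rcases (V.nn i).eq_or_lt with h0 | h0
      · rw [← h0]; simp
      · have a1 := V.ac i h0
        have a2 := V'.ac i h0
        have a3 := Real.log_le_sub_one_of_pos (div_pos a2 a1)
        rw [Real.log_div a2.ne' a1.ne'] at a3
        rw [Real.log_div h0.ne' a1.ne', Real.log_div h0.ne' a2.ne']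
        have := mul_le_mul_of_nonneg_left a3 (mul_pos (C.pi_pos i) h0).le
        linarith
    have := sum_le_sum pt
    rw [sum_add_distrib, ← sum_mul, ← hQ] at this
    have h2 : Q * (Q' ξ / Q - 1) ≤ Q' ξ - Q := by
      rcases V.q0.eq_or_lt with h0 | h0
      · rw [← h0]; simpa using q0' ξ
      · apply le_of_eq; field_simp
    linarith
  refine s1.trans ?_
  unfold JJ
  rw [ENNReal.tsum_comm, ENNReal.tsum_comm (f := fun ξ i =>
    ENNReal.ofReal (pi i * kl (mp d x n i ξ) (QQ d x pi n ξ))), ← ENNReal.tsum_mul_left]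
  refine ENNReal.tsum_le_tsum fun i => ?_
  rw [tsum_kl_fix (C.pi_pos i).le (mm_nn C.pos _ i) (mm_zero _ i) (mm_sum C.pos _ i) q0'
      hsum.hasSum (ac i),
    tsum_kl_fix (C.pi_pos i).le (mp_nn C.pos _ i) (mp_zero _ i) (mp_sum C.pos _ i) q0
      (C.hasSum_QQ hd n) (fun ξ => (C.vec_mp hd n ξ).ac i),
    ← ENNReal.ofReal_natCast, ← ENNReal.ofReal_mul (by positivity)]
  apply ENNReal.ofReal_le_ofReal
  have e : ∑ ξ ∈ supp d (n + 1) i, mm d x (n + 1) i ξ * Real.log (mm d x (n + 1) i ξ / Q' ξ) =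
      d * ∑ ξ ∈ supp' d n i, mp d x n i ξ * Real.log (mp d x n i ξ / QQ d x pi n ξ) := by
    have e1 : ∀ ξ : Lev d (n + 1), mm d x (n + 1) i ξ * Real.log (mm d x (n + 1) i ξ / Q' ξ) =
        ∑ a, (∏ b, mp d x n i (ξ b)) * Real.log (mp d x n i (ξ a) / QQ d x pi n (ξ a)) := by
      intro ξ
      rw [← mul_sum]
      rcases (mm_nn C.pos (n + 1) i ξ).eq_or_lt with h0 | h0
      · have h0' : ∏ b, mp d x n i (ξ b) = 0 := h0.symm
        rw [← h0, h0']; simp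
      · congr 1
        rw [← Real.log_prod fun a _ =>
          (div_pos (mpp i ξ h0 a) ((C.vec_mp hd n _).ac i (mpp i ξ h0 a))).ne', prod_div_distrib]
        rfl
    simp only [e1]
    rw [sum_comm]
    have := fun a : Fin d => sum_pi_mul (supp' d n i) (mp d x n i)
      (fun ξ => Real.log (mp d x n i ξ / QQ d x pi n ξ)) (mp_sum C.pos n i) a
    refine (sum_congr rfl fun a _ => this a).trans ?_
    simp
  rw [e]
  have := mul_le_mul_of_nonneg_left hqs (C.pi_pos i).le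
  nlinarith

lemma Chain.II_zero (C : Chain d x pi ε) (hd : 0 < d) : II d x pi 0 ≠ ⊤ := by
  have : II d x pi 0 ≤ ∑' i, ENNReal.ofReal (2 * √(pi i)) := by
    refine ENNReal.tsum_le_tsum fun (ξ : ℤ) => ?_
    rw [C.tsum_kl (C.vec_mm hd 0 ξ)]
    apply ENNReal.ofReal_le_ofReal
    have h0 : ∀ i, i ≠ ξ → mm d x 0 i ξ = 0 := fun i hi => if_neg (Ne.symm hi)
    have h1 : mm d x 0 ξ ξ = 1 := if_pos rfl
    have hQ : QQ d x pi 0 ξ = pi ξ := by
      unfold QQ; rw [tsum_eq_single ξ fun i hi => by simp [h0 i hi], h1, mul_one]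
    rw [show (∑' i, pi i * mm d x 0 i ξ) = QQ d x pi 0 ξ from rfl, sub_add_cancel,
      tsum_eq_single ξ fun i hi => by simp [h0 i hi], h1, hQ, one_mul]
    have hp := C.pi_pos ξ
    have hs := Real.sqrt_pos.2 hp
    have a1 := Real.log_le_sub_one_of_pos (one_div_pos.2 hs)
    have a2 : Real.log (1 / pi ξ) = 2 * Real.log (1 / √(pi ξ)) := by
      rw [one_div, one_div, Real.log_inv, Real.log_inv, Real.log_sqrt hp.le]; ring
    have a3 : pi ξ * (1 / √(pi ξ)) = √(pi ξ) := by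
      field_simp; exact (Real.sq_sqrt hp.le).symm
    have := mul_le_mul_of_nonneg_left a1 hp.le
    rw [a2]; linarith
  refine ne_top_of_le_ne_top ?_ this
  rw [← ENNReal.ofReal_tsum_of_nonneg (fun i => by positivity) (C.sq.mul_left 2)]
  exact ENNReal.ofReal_ne_top

lemma Chain.HH_tendsto (C : Chain d x pi ε) (hd : 0 < d) :
    Tendsto (HH d x pi ε) atTop (𝓝 0) := by
  apply ENNReal.tendsto_atTop_zero_of_tsum_ne_top
  have h : ∀ n, II d x pi n + ∑ k ∈ range n, HH d x pi ε k ≤ II d x pi 0 := by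
    intro n
    induction n with
    | zero => simp
    | succ n ih =>
      rw [sum_range_succ]
      calc _ ≤ d * JJ d x pi n + (∑ k ∈ range n, HH d x pi ε k + HH d x pi ε n) := by
            gcongr; exact C.step1 hd n
        _ = (d * JJ d x pi n + HH d x pi ε n) + ∑ k ∈ range n, HH d x pi ε k := by ring
        _ ≤ II d x pi n + ∑ k ∈ range n, HH d x pi ε k := by gcongr; exact C.step2 hd n
        _ ≤ _ := ih
  refine ne_top_of_le_ne_top (C.II_zero hd) ?_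
  exact ENNReal.tsum_le_of_sum_range_le fun n => le_add_self.trans (h n)

/-- asymptotic closeness in total variation -/
def Cl {d : ℕ} (f g : (n : ℕ) → Lev d n → ℝ) : Prop :=
  ∀ η : ℝ, 0 < η → ∀ᶠ n in atTop, ∀ G : Finset (Lev d n), ∑ ξ ∈ G, |f n ξ - g n ξ| ≤ η

lemma sum_le_one_of {α : Type*} {μ : α → ℝ} {S : Finset α} (h0 : ∀ ξ, 0 ≤ μ ξ)
    (hS : ∀ ξ, ξ ∉ S → μ ξ = 0) (h1 : ∑ ξ ∈ S, μ ξ = 1) (G : Finset α) : ∑ ξ ∈ G, μ ξ ≤ 1 := by
  classical
  rw [← h1, sum_subset (subset_union_right (s₁ := G)) fun ξ _ hξ => hS ξ hξ]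
  exact sum_le_sum_of_subset_of_nonneg subset_union_left fun ξ _ _ => h0 ξ

theorem Chain.nonrec (C : Chain d x pi ε) (hd : 0 < d) (i j : ℤ) :
    Cl (fun n => mp d x n i) (fun n => mp d x n j) := by
  intro η hη
  have pi1 := C.pi_pos i; have pj := C.pi_pos j; have he := C.eps
  set K := 2 * (1 / pi i + 1 / pi j) with hK
  have hK0 : 0 < K := by positivity
  have := (ENNReal.tendsto_nhds_zero.1 (C.HH_tendsto hd)) (ENNReal.ofReal (ε * η ^ 2 / (4 * K)))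
    (ENNReal.ofReal_pos.2 (by positivity))
  filter_upwards [this] with n hn G
  have h1 : ∑ ξ ∈ G, ε * hel d x pi n ξ ≤ ε * η ^ 2 / (4 * K) := by
    rw [← ENNReal.ofReal_le_ofReal_iff (by positivity), ENNReal.ofReal_sum_of_nonneg
      fun ξ _ => mul_nonneg he.le (C.hel_nn hd n ξ)]
    exact (ENNReal.sum_le_tsum G).trans hn
  have pt : ∀ ξ ∈ G, |mp d x n i ξ - mp d x n j ξ| ≤
      2 * K / (η * ε) * (ε * hel d x pi n ξ) + η / 4 * (mp d x n i ξ + mp d x n j ξ) := by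
    intro ξ _
    have V := C.vec_mp hd n ξ
    have a1 := C.dev' hd n ξ i
    have a2 := C.dev' hd n ξ j
    have hh := C.hel_nn hd n ξ
    set Q := QQ d x pi n ξ
    set m := ∑' i, pi i * √(mp d x n i ξ / Q)
    rcases V.q0.eq_or_lt with h0 | h0
    · have z : ∀ k, mp d x n k ξ = 0 := fun k =>
        ((V.nn k).eq_or_lt.resolve_right fun hk => (V.ac k hk).ne h0).symm
      rw [z, z]; simp; positivity
    · have b1 : mp d x n i ξ = Q * √(mp d x n i ξ / Q) ^ 2 := by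
        rw [Real.sq_sqrt (div_nonneg (V.nn i) V.q0)]; field_simp
      have b2 : mp d x n j ξ = Q * √(mp d x n j ξ / Q) ^ 2 := by
        rw [Real.sq_sqrt (div_nonneg (V.nn j) V.q0)]; field_simp
      have n1 := Real.sqrt_nonneg (mp d x n i ξ / Q)
      have n2 := Real.sqrt_nonneg (mp d x n j ξ / Q)
      generalize √(mp d x n i ξ / Q) = u at *
      generalize √(mp d x n j ξ / Q) = w at *
      have c1 : Q * (u - m) ^ 2 ≤ 1 / pi i * hel d x pi n ξ := by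
        rw [one_div_mul_eq_div, le_div_iff₀ pi1]; linarith
      have c2 : Q * (w - m) ^ 2 ≤ 1 / pi j * hel d x pi n ξ := by
        rw [one_div_mul_eq_div, le_div_iff₀ pj]; linarith
      have c3 : Q * (u - w) ^ 2 ≤ K * hel d x pi n ξ := by
        have := mul_nonneg h0.le (sq_nonneg (u + w - 2 * m))
        rw [hK]; nlinarith
      have c4 : |u ^ 2 - w ^ 2| ≤ 2 / η * (u - w) ^ 2 + η / 4 * (u ^ 2 + w ^ 2) := by
        rw [show u ^ 2 - w ^ 2 = (u - w) * (u + w) by ring, abs_mul, abs_of_nonneg (by positivity :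
          0 ≤ u + w), ← sq_abs (u - w)]
        have t1 : |u - w| * (u + w) ≤ 2 / η * |u - w| ^ 2 + η / 8 * (u + w) ^ 2 := by
          have := mul_nonneg (show 0 ≤ 2 / η by positivity) (sq_nonneg (|u - w| - η / 4 * (u + w)))
          have e : 2 / η * (|u - w| - η / 4 * (u + w)) ^ 2 =
            2 / η * |u - w| ^ 2 + η / 8 * (u + w) ^ 2 - |u - w| * (u + w) := by field_simp; ring
          linarith
        nlinarith [mul_nonneg hη.le (sq_nonneg (u - w))]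
      rw [b1, b2, ← mul_sub, abs_mul, abs_of_pos h0]
      have c5 := mul_le_mul_of_nonneg_left c4 h0.le
      have c6 := mul_le_mul_of_nonneg_left c3 (show 0 ≤ 2 / η by positivity)
      have e : 2 * K / (η * ε) * (ε * hel d x pi n ξ) = 2 / η * (K * hel d x pi n ξ) := by
        field_simp
      rw [e]; linarith
  refine (sum_le_sum pt).trans ?_
  rw [sum_add_distrib, ← mul_sum, ← mul_sum _ _ (η / 4), sum_add_distrib]
  have s1 := sum_le_one_of (mp_nn C.pos n i) (mp_zero n i) (mp_sum C.pos n i) G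
  have s2 := sum_le_one_of (mp_nn C.pos n j) (mp_zero n j) (mp_sum C.pos n j) G
  calc _ ≤ 2 * K / (η * ε) * (ε * η ^ 2 / (4 * K)) + η / 4 * (1 + 1) := by gcongr
    _ = η := by field_simp; ring

end Pool.Agent.P.MP_23c5a6_pr
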