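import Pool.Agent.P.MP_23c5a6_pr.Gibbs

namespace Pool.Agent.P.MP_23c5a6_pr

open Finset Filter Topology MeasureTheory

variable {d : ℕ} {x pi : ℤ → ℝ} {ε : ℝ}

lemma Cl.of_le {f g f1 g1 f2 g2 : (n : ℕ) → Lev d n → ℝ} {A : ℝ} (hA : 0 ≤ A) (h1 : Cl f1 g1)
    (h2 : Cl f2 g2) (h : ∀ n ξ, |f n ξ - g n ξ| ≤ A * (|f1 n ξ - g1 n ξ| + |f2 n ξ - g2 n ξ|)) :
    Cl f g := by
  intro η hη
  have hδ : 0 < η / (2 * (A + 1)) := by positivity
  filter_upwards [h1 _ hδ, h2 _ hδ] with n a1 a2 G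
  refine (sum_le_sum fun ξ _ => h n ξ).trans ?_
  rw [← mul_sum, sum_add_distrib]
  calc _ ≤ (A + 1) * (η / (2 * (A + 1)) + η / (2 * (A + 1))) := by
        gcongr
        · linarith
        · exact a1 G
        · exact a2 G
    _ = η := by field_simp; ring

lemma Cl.refl (f : (n : ℕ) → Lev d n → ℝ) : Cl f f := fun η hη =>
  Eventually.of_forall fun n G => by simpa using hη.le

lemma Cl.symm {f g : (n : ℕ) → Lev d n → ℝ} (h : Cl f g) : Cl g f := by
  intro η hη; simpa only [abs_sub_comm] using h η hη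

lemma Cl.trans {f g k : (n : ℕ) → Lev d n → ℝ} (h1 : Cl f g) (h2 : Cl g k) : Cl f k :=
  Cl.of_le zero_le_one h1 h2 fun n ξ => by rw [one_mul]; exact abs_sub_le _ _ _

lemma Cl.add {f g f' g' : (n : ℕ) → Lev d n → ℝ} (h1 : Cl f g) (h2 : Cl f' g') :
    Cl (fun n ξ => f n ξ + f' n ξ) (fun n ξ => g n ξ + g' n ξ) :=
  Cl.of_le zero_le_one h1 h2 fun n ξ => by
    rw [one_mul, add_sub_add_comm]; exact abs_add_le _ _

lemma Cl.smul {f g : (n : ℕ) → Lev d n → ℝ} (a : ℝ) (h : Cl f g) :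
    Cl (fun n ξ => a * f n ξ) (fun n ξ => a * g n ξ) :=
  Cl.of_le (abs_nonneg a) h h fun n ξ => by
    rw [← mul_sub, abs_mul]; gcongr; exact le_add_of_nonneg_right (abs_nonneg _)

lemma Cl.pm {f g : ℤ → (n : ℕ) → Lev d n → ℝ} (h : ∀ j, Cl (f j) (g j)) (i : ℤ) :
    Cl (fun n ξ => Pm x (fun j => f j n ξ) i) (fun n ξ => Pm x (fun j => g j n ξ) i) := by
  have := ((((h (i - 1)).smul (x (i - 1))).add ((h i).smul (x i))).add
    ((h (i + 1)).smul (x (i + 1)))).smul (YY x i)⁻¹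
  simpa only [Pm, div_eq_inv_mul] using this

lemma sum_prod_le' {α : Type*} {Q : Fin d → α → ℝ} {c : Fin d → ℝ} (h0 : ∀ a ξ, 0 ≤ Q a ξ)
    (h1 : ∀ a, ∀ G : Finset α, ∑ ξ ∈ G, Q a ξ ≤ c a) (G : Finset (Fin d → α)) :
    ∑ ξ ∈ G, ∏ a, Q a (ξ a) ≤ ∏ a, c a := by
  classical
  set S := G.biUnion fun ξ => univ.image ξ
  have hs : G ⊆ Fintype.piFinset fun _ : Fin d => S := fun ξ hξ =>
    Fintype.mem_piFinset.2 fun a => mem_biUnion.2 ⟨ξ, hξ, mem_image_of_mem _ (mem_univ a)⟩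
  refine (sum_le_sum_of_subset_of_nonneg hs fun ξ _ _ => prod_nonneg fun a _ => h0 _ _).trans ?_
  rw [← prod_univ_sum (fun _ : Fin d => S) Q]
  exact prod_le_prod (fun a _ => sum_nonneg fun ξ _ => h0 a ξ) fun a _ => h1 a S

lemma prod_close {α : Type*} {A B : Fin d → α → ℝ} {η : ℝ} (a0 : ∀ a ξ, 0 ≤ A a ξ)
    (b0 : ∀ a ξ, 0 ≤ B a ξ) (a1 : ∀ a, ∀ G : Finset α, ∑ ξ ∈ G, A a ξ ≤ 1)
    (b1 : ∀ a, ∀ G : Finset α, ∑ ξ ∈ G, B a ξ ≤ 1)
    (h : ∀ a, ∀ G : Finset α, ∑ ξ ∈ G, |A a ξ - B a ξ| ≤ η) (G : Finset (Fin d → α)) :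
    ∑ ξ ∈ G, |∏ a, A a (ξ a) - ∏ a, B a (ξ a)| ≤ d * η := by
  have key : ∀ s : Finset (Fin d), ∑ ξ ∈ G,
      |∏ a, (if a ∈ s then A a (ξ a) else B a (ξ a)) - ∏ a, B a (ξ a)| ≤ s.card * η := by
    intro s
    induction s using Finset.induction_on with
    | empty => simp
    | insert a s ha ih =>
      have step : ∑ ξ ∈ G, |∏ b, (if b ∈ insert a s then A b (ξ b) else B b (ξ b)) -
          ∏ b, (if b ∈ s then A b (ξ b) else B b (ξ b))| ≤ η := by
        have := sum_prod_le' (Q := fun b ξ => if b = a then |A a ξ - B a ξ| else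
          if b ∈ s then A b ξ else B b ξ) (c := fun b => if b = a then η else 1)
          (fun b ξ => by split_ifs; exacts [abs_nonneg _, a0 _ _, b0 _ _])
          (fun b G => by split_ifs; exacts [h a G, a1 b G, b1 b G]) G
        simp only [prod_ite_eq', mem_univ, if_true] at this
        refine le_trans (le_of_eq (sum_congr rfl fun ξ _ => ?_)) this
        rw [← mul_prod_erase univ _ (mem_univ a), ← mul_prod_erase univ _ (mem_univ a),
          ← mul_prod_erase univ _ (mem_univ a), if_pos (mem_insert_self _ _), if_neg ha, if_pos rfl,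
          prod_congr rfl (g := fun b => if b ∈ s then A b (ξ b) else B b (ξ b))
            fun b hb => by simp [ne_of_mem_erase hb], ← sub_mul, abs_mul,
          abs_of_nonneg (a := ∏ b ∈ univ.erase a, if b ∈ s then A b (ξ b) else B b (ξ b))
            (prod_nonneg fun b _ => by split_ifs; exacts [a0 _ _, b0 _ _])]
        congr 1
        exact prod_congr rfl fun b hb => by rw [if_neg (ne_of_mem_erase hb)]
      rw [card_insert_of_notMem ha]
      refine (sum_le_sum fun ξ _ => abs_sub_le _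
        (∏ b, (if b ∈ s then A b (ξ b) else B b (ξ b))) _).trans ?_
      rw [sum_add_distrib]; push_cast; linarith
  simpa using key univ

lemma Cl.prod {A B : Fin d → (n : ℕ) → Lev d n → ℝ} {f g : (n : ℕ) → Lev d n → ℝ}
    (a0 : ∀ a n ξ, 0 ≤ A a n ξ) (b0 : ∀ a n ξ, 0 ≤ B a n ξ)
    (a1 : ∀ a n, ∀ G : Finset (Lev d n), ∑ ξ ∈ G, A a n ξ ≤ 1)
    (b1 : ∀ a n, ∀ G : Finset (Lev d n), ∑ ξ ∈ G, B a n ξ ≤ 1) (h : ∀ a, Cl (A a) (B a))
    (hf : ∀ n ξ, f (n + 1) ξ = ∏ a, A a n (ξ a)) (hg : ∀ n ξ, g (n + 1) ξ = ∏ a, B a n (ξ a)) :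
    Cl f g := by
  intro η hη
  have hδ : 0 < η / (d + 1) := by positivity
  obtain ⟨N, hN⟩ := eventually_atTop.1 (eventually_all.2 fun a => h a _ hδ)
  filter_upwards [eventually_ge_atTop (N + 1)] with n hn G
  obtain ⟨m, rfl⟩ : ∃ m, n = m + 1 := ⟨n - 1, by omega⟩
  simp only [hf, hg]
  refine (prod_close (a0 · m) (b0 · m) (a1 · m) (b1 · m) (hN m (by omega)) G).trans ?_
  rw [mul_div_assoc', div_le_iff₀ (by positivity)]; nlinarith

lemma mp_le_one (hx : ∀ i, 0 < x i) (n : ℕ) (i : ℤ) (G : Finset (Lev d n)) :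
    ∑ ξ ∈ G, mp d x n i ξ ≤ 1 := sum_le_one_of (mp_nn hx n i) (mp_zero n i) (mp_sum hx n i) G

lemma Chain.cl_mm (C : Chain d x pi ε) (hd : 0 < d) (i j : ℤ) :
    Cl (fun n => mm d x n i) (fun n => mm d x n j) :=
  Cl.prod (A := fun _ n => mp d x n i) (B := fun _ n => mp d x n j) (fun _ n => mp_nn C.pos n i)
    (fun _ n => mp_nn C.pos n j) (fun _ n => mp_le_one C.pos n i) (fun _ n => mp_le_one C.pos n j)
    (fun _ => C.nonrec hd i j) (fun _ _ => rfl) (fun _ _ => rfl)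

lemma Chain.cl_mm_mp (C : Chain d x pi ε) (hd : 0 < d) (i j : ℤ) :
    Cl (fun n => mm d x n j) (fun n => mp d x n i) := by
  have := Cl.pm (x := x) (f := fun _ n => mm d x n j) (g := fun k n => mm d x n k)
    (fun k => C.cl_mm hd j k) i
  simp only [Pm_const C.pos] at this
  exact this

noncomputable def mE (d : ℕ) (x : ℤ → ℝ) :
    (n : ℕ) → (List (Fin d) → ℤ → ℝ) → ℤ → Lev d n → ℝ
  | 0, e, i, ξ => e [] i * if ξ = i then 1 else 0
  | n + 1, e, i, ξ => e [] i * ∏ a, Pm x (fun j => mE d x n (sub e a) j (ξ a)) i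

lemma mE_one : ∀ (n : ℕ) (i : ℤ) (ξ : Lev d n), mE d x n 1 i ξ = mm d x n i ξ
  | 0, i, ξ => by simp [mE, mm]
  | n + 1, i, ξ => by
    have e2 : ∀ a : Fin d, sub (1 : List (Fin d) → ℤ → ℝ) a = 1 := fun a => rfl
    simp only [mE, mm, e2, mE_one n, Pi.one_apply, one_mul]

lemma Pm_mono (hx : ∀ i, 0 < x i) {v w : ℤ → ℝ} (h : ∀ i, v i ≤ w i) (i : ℤ) :
    Pm x v i ≤ Pm x w i := by
  have := hx (i - 1); have := hx i; have := hx (i + 1); have := YY_pos hx i
  unfold Pm; gcongr <;> apply h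

lemma mE_bd (hx : ∀ i, 0 < x i) : ∀ (n : ℕ) (e : List (Fin d) → ℤ → ℝ), (∀ v j, 0 ≤ e v j) →
    (∀ v j, e v j ≤ 1) → ∀ i ξ, 0 ≤ mE d x n e i ξ ∧ mE d x n e i ξ ≤ mm d x n i ξ
  | 0, e, e0, e1, i, ξ => by
    simp only [mE, mm]; split_ifs <;> simp [e0, e1]
  | n + 1, e, e0, e1, i, ξ => by
    have ih := fun a => mE_bd hx n (sub e a) (fun _ _ => e0 _ _) fun _ _ => e1 _ _
    have h0 : ∀ a, 0 ≤ Pm x (fun j => mE d x n (sub e a) j (ξ a)) i :=
      fun a => Pm_nn hx (fun j => (ih a j _).1) i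
    refine ⟨mul_nonneg (e0 _ _) (prod_nonneg fun a _ => h0 a), ?_⟩
    refine (mul_le_of_le_one_left (prod_nonneg fun a _ => h0 a) (e1 _ _)).trans ?_
    exact prod_le_prod (fun a _ => h0 a) fun a _ => Pm_mono hx (fun j => (ih a j _).2) i

lemma Chain.cl_mE (C : Chain d x pi ε) (hd : 0 < d) : ∀ (k : ℕ) (e : List (Fin d) → ℤ → ℝ),
    (∀ v j, 0 ≤ e v j) → (∀ v j, e v j ≤ 1) → (∀ v : List (Fin d), k ≤ v.length → e v = 1) →
    ∃ p : ℤ → ℝ, ∀ i, 0 ≤ p i ∧ p i ≤ 1 ∧
      Cl (fun n => mE d x n e i) (fun n ξ => p i * mm d x n i ξ)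
  | 0, e, _, _, e2 => by
    obtain rfl : e = 1 := funext fun v => e2 v (Nat.zero_le _)
    refine ⟨fun _ => 1, fun i => ⟨zero_le_one, le_rfl, ?_⟩⟩
    simp only [one_mul, ← mE_one]; exact Cl.refl _
  | k + 1, e, e0, e1, e2 => by
    choose p hp using fun a => C.cl_mE hd k (sub e a) (fun _ _ => e0 _ _) (fun _ _ => e1 _ _)
      fun v hv => e2 _ (by simpa using hv)
    have c0 : ∀ a i, 0 ≤ Pm x (p a) i := fun a i => Pm_nn C.pos (fun j => (hp a j).1) i
    have c1 : ∀ a i, Pm x (p a) i ≤ 1 := fun a i =>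
      (Pm_mono C.pos (fun j => (hp a j).2.1) i).trans (Pm_const C.pos 1 i).le
    refine ⟨fun i => e [] i * ∏ a, Pm x (p a) i, fun i => ⟨mul_nonneg (e0 _ _)
      (prod_nonneg fun a _ => c0 a i), mul_le_one₀ (e1 _ _) (prod_nonneg fun a _ => c0 a i)
        (prod_le_one (fun a _ => c0 a i) fun a _ => c1 a i), ?_⟩⟩
    have bd := fun a n => mE_bd C.pos n (sub e a) (fun _ _ => e0 _ _) fun _ _ => e1 _ _
    have h1 : Cl (d := d)
        (fun n => match n with
          | 0 => fun _ => 0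
          | n + 1 => fun ξ => ∏ a, Pm x (fun j => mE d x n (sub e a) j (ξ a)) i)
        (fun n => match n with
          | 0 => fun _ => 0
          | n + 1 => fun ξ => ∏ a, Pm x (p a) i * mp d x n i (ξ a)) := by
      refine Cl.prod (A := fun a n ξ => Pm x (fun j => mE d x n (sub e a) j ξ) i)
        (B := fun a n ξ => Pm x (p a) i * mp d x n i ξ)
        (fun a n ξ => Pm_nn C.pos (fun j => (bd a n j ξ).1) i)
        (fun a n ξ => mul_nonneg (c0 a i) (mp_nn C.pos n i ξ))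
        (fun a n G => (sum_le_sum fun ξ _ => Pm_mono C.pos (fun j => (bd a n j ξ).2) i).trans
          (mp_le_one C.pos n i G))
        (fun a n G => (sum_le_sum fun ξ _ =>
          mul_le_of_le_one_left (mp_nn C.pos n i ξ) (c1 a i)).trans (mp_le_one C.pos n i G))
        (fun a => ?_) (fun _ _ => rfl) (fun _ _ => rfl)
      have := Cl.pm (x := x) (f := fun j n => mE d x n (sub e a) j)
        (g := fun j n ξ => p a j * mp d x n i ξ)
        (fun j => (hp a j).2.2.trans ((C.cl_mm_mp hd i j).smul (p a j))) i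
      convert this using 3
      simp only [Pm]; ring
    intro η hη
    filter_upwards [h1.smul (e [] i) η hη, eventually_ge_atTop 1] with n hn h1n G
    obtain ⟨m, rfl⟩ : ∃ m, n = m + 1 := ⟨n - 1, by omega⟩
    refine le_trans (le_of_eq (sum_congr rfl fun ξ _ => ?_)) (hn G)
    simp only [mE, mm, mp, prod_mul_distrib, mul_assoc]

def lev : (n : ℕ) → (List (Fin d) → ℤ) → Lev d n
  | 0, f => f []
  | n + 1, f => fun a => lev n (sub f a)

lemma lev_eq : ∀ (n : ℕ) (f g : List (Fin d) → ℤ), lev n f = lev n g →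
    ∀ v : List (Fin d), v.length = n → f v = g v
  | 0, f, g, h, v, hv => by obtain rfl := List.length_eq_zero_iff.1 hv; exact h
  | n + 1, f, g, h, v, hv => by
    cases v with
    | nil => simp at hv
    | cons a w => exact lev_eq n _ _ (congrFun h a) w (by simpa using hv)

lemma lev_mem : ∀ (n : ℕ) (f : List (Fin d) → ℤ), LipB n f → lev n f ∈ supp d n (f [])
  | 0, f, _ => mem_singleton_self (α := Lev d 0) _
  | n + 1, f, h => by
    refine Fintype.mem_piFinset.2 fun a => ?_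
    obtain ⟨h1, h2⟩ := lipB_succ.1 h a
    have := lev_mem n _ h2
    rw [show sub f a [] = f [a] from rfl] at this
    rw [abs_le] at h1
    simp only [mem_union]
    rcases (show f [a] = f [] - 1 ∨ f [a] = f [] ∨ f [a] = f [] + 1 by omega) with h | h | h <;>
      rw [h] at this
    exacts [Or.inl (Or.inl this), Or.inl (Or.inr this), Or.inr this]

lemma fiber (hx : ∀ i, 0 < x i) {g : ℝ} (hg : ∀ i, YY x i ^ d = g * x i) :
    ∀ (n : ℕ) (e : List (Fin d) → ℤ → ℝ) (i : ℤ) (ξ : Lev d n),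
    ∑ ζ ∈ conf d n i, wt n e x ζ * (if lev n ζ = ξ then 1 else 0) = kap d g n * x i * mE d x n e i ξ
  | 0, e, i, ξ => by
    simp only [conf, sum_singleton, wt, graft, kap, mE, lev]
    by_cases h : ξ = i
    · rw [if_pos h, if_pos h.symm]; ring
    · rw [if_neg h, if_neg fun hh => h hh.symm]; ring
  | n + 1, e, i, ξ => by
    have e1 : ∀ ζ ∈ conf d (n + 1) i, wt (n + 1) e x ζ * (if lev (n + 1) ζ = ξ then 1 else 0) =
        e [] i * ∏ a, wt n (sub e a) x (sub ζ a) * (if lev n (sub ζ a) = ξ a then 1 else 0) := by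
      intro ζ hζ
      rw [wt, (mem_conf.1 hζ).1, prod_mul_distrib, mul_assoc]
      congr 2
      split_ifs with h
      · exact (prod_eq_one fun a _ => if_pos (congrFun h a)).symm
      · obtain ⟨a, ha⟩ := Function.ne_iff.1 h
        exact (prod_eq_zero (mem_univ a) (if_neg ha)).symm
    rw [sum_congr rfl e1, ← mul_sum, sum_conf_succ n i
      (fun a ζ => wt n (sub e a) x ζ * (if lev n ζ = ξ a then 1 else 0))]
    simp only [fiber hx hg n, mE, kap]
    have hY := YY_pos hx i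
    have e2 : ∀ a, kap d g n * x (i - 1) * mE d x n (sub e a) (i - 1) (ξ a) +
        kap d g n * x i * mE d x n (sub e a) i (ξ a) +
        kap d g n * x (i + 1) * mE d x n (sub e a) (i + 1) (ξ a) =
        (kap d g n * YY x i) * Pm x (fun j => mE d x n (sub e a) j (ξ a)) i := by
      intro a; unfold Pm; field_simp
    simp only [e2, prod_mul_distrib, prod_const, card_univ, Fintype.card_fin, hg]
    ring

lemma fiber_sum (hx : ∀ i, 0 < x i) {g : ℝ} (hg : ∀ i, YY x i ^ d = g * x i) (n : ℕ)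
    (e : List (Fin d) → ℤ → ℝ) (i : ℤ) (H : Lev d n → ℝ) :
    ∑ ζ ∈ conf d n i, wt n e x ζ * H (lev n ζ) =
      kap d g n * x i * ∑ ξ ∈ supp d n i, mE d x n e i ξ * H ξ := by
  simp only [mul_sum, ← mul_assoc, ← fiber hx hg, sum_mul]
  rw [sum_comm]
  refine sum_congr rfl fun ζ hζ => ?_
  obtain ⟨h1, h2, -⟩ := mem_conf.1 hζ
  have := lev_mem n ζ h2
  rw [h1] at this
  simp [this]

theorem dom_eq (C : Chain d x pi ε) (hd : 0 < d) {g X : ℝ} (hg : ∀ i, YY x i ^ d = g * x i)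
    (hg0 : 0 < g) (hX : HasSum x X) {μ ν : Measure (List (Fin d) → ℤ)} (H : Mk x g X μ)
    (hν : IsGibbs ν) {K : ℝ} (hK : ∀ A, ν.real A ≤ K * μ.real A) {k : ℕ}
    {E : List (Fin d) → ℤ → Prop} (hE : ∀ (v : List (Fin d)) j, k ≤ v.length → E v j) {p : ℤ → ℝ}
    (hp : ∀ i, Cl (fun n => mE d x n (ind E) i) (fun n ξ => p i * mm d x n i ξ)) (i : ℤ) :
    ν.real (Ev k E i) = x i / X * p i := by
  classical
  have := hν.1; have := H.prob
  have hX0 : 0 < X := (C.pos 0).trans_le (le_hasSum hX 0 fun j _ => (C.pos j).le)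
  have hK0 : 0 ≤ K := by have := hK Set.univ; simp at this; linarith
  have hex : ∀ n, ∃ h : Lev d n → ℝ, (∀ ξ, 0 ≤ h ξ ∧ h ξ ≤ K) ∧ (1 ≤ n → ∀ ζ, LipB n ζ →
      ν.real (cyl (ball d n) ζ) = wt n 1 x ζ * h (lev n ζ) / (kap d g n * X)) := by
    intro n
    have hκ := kap_pos (d := d) hg0 n
    have hμ : ∀ ζ, LipB n ζ → 0 < μ.real (cyl (ball d n) ζ) := fun ζ hζ => by
      rw [H.cy n ζ hζ]; have := wt_pos C.pos n ζ; positivity
    refine ⟨fun ξ => if h : ∃ ζ, LipB n ζ ∧ lev n ζ = ξ then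
      ν.real (cyl (ball d n) h.choose) / μ.real (cyl (ball d n) h.choose) else 0, fun ξ => ?_,
      fun hn ζ hζ => ?_⟩
    · dsimp only
      split_ifs with h
      · exact ⟨by positivity, (div_le_iff₀ (hμ _ h.choose_spec.1)).2 (hK _)⟩
      · exact ⟨le_rfl, hK0⟩
    · have h : ∃ ζ', LipB n ζ' ∧ lev n ζ' = lev n ζ := ⟨ζ, hζ, rfl⟩
      obtain ⟨m, rfl⟩ : ∃ m, n = m + 1 := ⟨n - 1, by omega⟩
      have a1 := lev_eq _ _ _ h.choose_spec.2
      dsimp only
      rw [dif_pos h, hν.unif m _ _ h.choose_spec.1 hζ a1, H.cy _ _ h.choose_spec.1,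
        wt_congr x _ _ _ a1]
      have := wt_pos C.pos (m + 1) ζ
      field_simp
  choose h hb hc using hex
  have form : ∀ (E : List (Fin d) → ℤ → Prop) n i, 1 ≤ n → ν.real (Ev n E i) =
      x i / X * ∑ ξ ∈ supp d n i, mE d x n (ind E) i ξ * h n ξ := by
    intro E n i hn
    have hκ := kap_pos (d := d) hg0 n
    have : ν.real (Ev n E i) = (∑ ζ ∈ conf d n i, wt n (ind E) x ζ * h n (lev n ζ)) /
        (kap d g n * X) := by
      rw [meas_Ev hν.2.1, sum_div]
      refine sum_congr rfl fun ζ hζ => ?_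
      rw [wt_ind]
      split_ifs
      · exact hc n hn ζ (mem_conf.1 hζ).2.1
      · simp
    rw [this, fiber_sum C.pos hg]; field_simp
  have lim : ∀ {f f' : (n : ℕ) → Lev d n → ℝ} {a b : ℝ}, Cl f f' →
      (∀ᶠ n in atTop, ∃ G : Finset (Lev d n), a = ∑ ξ ∈ G, f n ξ * h n ξ ∧
        b = ∑ ξ ∈ G, f' n ξ * h n ξ) → a = b := by
    intro f f' a b hcl hev
    refine eq_of_forall_dist_le fun η hη => ?_
    obtain ⟨n, h1, G, rfl, rfl⟩ := ((hcl (η / (K + 1)) (by positivity)).and hev).exists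
    rw [Real.dist_eq, ← sum_sub_distrib]
    refine (abs_sum_le_sum_abs _ _).trans ?_
    calc _ ≤ ∑ ξ ∈ G, |f n ξ - f' n ξ| * (K + 1) := sum_le_sum fun ξ _ => by
          rw [← sub_mul, abs_mul, abs_of_nonneg (hb n ξ).1]
          gcongr; linarith [(hb n ξ).2]
      _ ≤ η / (K + 1) * (K + 1) := by rw [← sum_mul]; gcongr; exact h1 G
      _ = η := by field_simp
  have root : ∀ n j, 1 ≤ n → ∀ G, supp d n j ⊆ G →
      ν.real {f | f [] = j} * X / x j = ∑ ξ ∈ G, mm d x n j ξ * h n ξ := by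
    intro n j hn G hG
    have a1 := form (fun _ _ => True) n j hn
    have a2 : Ev (d := d) n (fun _ _ => True) j = {f | f [] = j} := by ext; simp [Ev]
    have a3 : ind (d := d) (fun _ _ => True) = 1 := by ext; simp [ind]
    simp only [a2, a3, mE_one] at a1
    rw [a1, ← sum_subset hG fun ξ _ hξ => by rw [mm_zero n j ξ hξ, zero_mul]]
    have := C.pos j
    field_simp
  have req : ∀ j, ν.real {f | f [] = j} * X / x j = ν.real {f | f [] = i} * X / x i := by
    intro j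
    refine lim (C.cl_mm hd j i) ?_
    filter_upwards [eventually_ge_atTop 1] with n hn
    exact ⟨supp d n j ∪ supp d n i, root n j hn _ subset_union_left,
      root n i hn _ subset_union_right⟩
  have r1 : ν.real {f | f [] = i} * X / x i = 1 := by
    have a1 := hasSum_root (ν := ν) MeasurableSet.univ
    simp only [Set.univ_inter, probReal_univ] at a1
    have a2 := (hX.div_const X).mul_right (ν.real {f | f [] = i} * X / x i)
    rw [div_self hX0.ne', one_mul] at a2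
    refine a2.unique (a1.congr_fun fun j => ?_)
    rw [← req j]; have := C.pos j; field_simp
  have fin : ν.real (Ev k E i) * X / x i = p i := by
    refine lim (hp i) ?_
    filter_upwards [eventually_ge_atTop 1, eventually_ge_atTop k] with n hn hk
    refine ⟨supp d n i, ?_, ?_⟩
    · have : Ev k E i = Ev n E i := by
        ext f
        refine and_congr_right fun _ => ⟨fun hh v _ => ?_, fun hh v hv => hh v (by omega)⟩
        by_cases hv : v.length ≤ k
        · exact hh v hv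
        · exact hE v _ (by omega)
      rw [this, form E n i hn]; have := C.pos i; field_simp
    · simp only [mul_assoc]
      rw [← mul_sum, ← root n i hn _ subset_rfl, r1, mul_one]
  rw [← fin]; have := C.pos i; field_simp

lemma Mk.unif {g X : ℝ} {μ : Measure (List (Fin d) → ℤ)} (H : Mk x g X μ) : Unif μ := by
  intro n ζ ζ' h1 h2 h3
  rw [H.cy _ _ h1, H.cy _ _ h2, wt_congr x _ _ _ h3]

theorem dom_ext (C : Chain d x pi ε) (hd : 0 < d) {g X : ℝ} (hg : ∀ i, YY x i ^ d = g * x i)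
    (hg0 : 0 < g) (hX : HasSum x X) {μ ν : Measure (List (Fin d) → ℤ)} (H : Mk x g X μ)
    (hν : IsGibbs ν) {K : ℝ} (hK : ∀ A, ν.real A ≤ K * μ.real A) : ν = μ := by
  have := hν.1; have := H.prob
  refine ext_ball 0 fun m _ ζ => ?_
  set E : List (Fin d) → ℤ → Prop := fun v j => v.length ≤ m → j = ζ v with hE
  have hE' : ∀ (v : List (Fin d)) j, m + 1 ≤ v.length → E v j := fun v j hv hh => by omega
  obtain ⟨p, hp⟩ := C.cl_mE hd (m + 1) (ind E) (ind_nn E) (ind_le E)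
    fun v hv => funext fun j => if_pos (hE' v j hv)
  have e : cyl (ball d m) ζ = Ev (m + 1) E (ζ []) := by
    ext f
    simp only [cyl, Ev, hE, Set.mem_ofPred_eq, mem_ball]
    exact ⟨fun h => ⟨h [] (by simp), fun v _ hv => h v hv⟩, fun h v hv => h.2 v (by omega) hv⟩
  refine (measureReal_eq_measureReal_iff (measure_ne_top _ _) (measure_ne_top _ _)).1 ?_
  rw [e, dom_eq C hd hg hg0 hX H hν hK hE' (fun i => (hp i).2.2),
    dom_eq C hd hg hg0 hX H (gibbs_of hd H.lip H.unif) (K := 1) (fun A => (one_mul _).ge) hE'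
      (fun i => (hp i).2.2)]

theorem Mk.extremal (C : Chain d x pi ε) (hd : 0 < d) {g X : ℝ} (hg : ∀ i, YY x i ^ d = g * x i)
    (hg0 : 0 < g) (hX : HasSum x X) {μ : Measure (List (Fin d) → ℤ)} (H : Mk x g X μ) :
    IsExtremalGibbs μ := by
  have := H.prob
  refine ⟨gibbs_of hd H.lip H.unif, fun t ν₁ ν₂ t0 t1 h1 h2 hμ => ?_⟩
  have := h1.1; have := h2.1
  have t0' : (0 : ℝ) < t := t0
  have t1' : (t : ℝ) < 1 := t1
  have e : ∀ A, μ.real A = t * ν₁.real A + (1 - t) * ν₂.real A := by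
    intro A
    rw [hμ, measureReal_add_apply, measureReal_nnreal_smul_apply, measureReal_nnreal_smul_apply,
      NNReal.coe_sub t1.le, NNReal.coe_one]
  have a1 : ν₁ = μ := dom_ext C hd hg hg0 hX H h1 (K := 1 / t) fun A => by
    rw [e, one_div_mul_eq_div, le_div_iff₀ t0']
    have : 0 ≤ (1 - t) * ν₂.real A := mul_nonneg (by linarith) measureReal_nonneg
    linarith
  have a2 : ν₂ = μ := dom_ext C hd hg hg0 hX H h2 (K := 1 / (1 - t)) fun A => by
    rw [e, one_div_mul_eq_div, le_div_iff₀ (by linarith)]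
    have : 0 ≤ t * ν₁.real A := mul_nonneg (by linarith) measureReal_nonneg
    linarith
  rw [a1, a2]

theorem main {c : ℕ} (hc : c ≤ 1) (h2 : 2 ≤ d) (h7 : d ≤ 7) :
    ∃ μ, IsLocalLimit d (Set.Icc 0 c) μ ∧ IsExtremalGibbs μ := by
  obtain ⟨h, ε, F, hε, H⟩ := good_all hc h2 h7
  have C := chain_of hc F hε H
  have y0 := F.ypos hc 0
  have hg : ∀ i, YY (xz c h) i ^ d = yy c h 0 ^ d * xz c h i := by
    intro i
    rw [YY_xz hc F.inv.h0, xz, F.fix (idx c i), div_pow]; field_simp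
  have hs : Summable (xz c h) := summable_idx hc (g := h)
    (Summable.of_nonneg_of_le F.inv.nn F.inv.geo (summable_geometric_two.mul_left 2))
  obtain ⟨μ, hμ⟩ := exists_Mk C.pos hg hs.hasSum
  exact ⟨μ, hμ.limit hc h2 F hg (by positivity) hs.hasSum,
    hμ.extremal C (by omega) hg (by positivity) hs.hasSum⟩

end Pool.Agent.P.MP_23c5a6_pr
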