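import Pool.Agent.P.MP_23c5a6_pr.Limit

namespace Pool.Agent.P.MP_23c5a6_pr

open Finset Filter Topology MeasureTheory

variable {d : ℕ}

def pw (U : Finset (List (Fin d))) (η f : List (Fin d) → ℤ) : List (Fin d) → ℤ :=
  fun v => if v ∈ U then η v else f v

def Unif (ν : Measure (List (Fin d) → ℤ)) : Prop :=
  ∀ n ζ ζ', LipB (n + 1) ζ → LipB (n + 1) ζ' → (∀ v : List (Fin d), v.length = n + 1 → ζ v = ζ' v) →
    ν.real (cyl (ball d (n + 1)) ζ) = ν.real (cyl (ball d (n + 1)) ζ')

lemma lip_pw {U : Finset (List (Fin d))} {m : ℕ} (hU : ∀ u ∈ U, u.length < m)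
    {η ζ f : List (Fin d) → ℤ} (hf : Lip f) (hζ : LipB m ζ)
    (h : ∀ v : List (Fin d), v.length ≤ m → pw U η f v = ζ v) : Lip (pw U η f) := by
  intro v a
  by_cases hv : v.length < m
  · rw [h v hv.le, h (v ++ [a]) (by simp; omega)]; exact hζ v a hv
  · have h1 : v ∉ U := fun hh => hv (hU v hh)
    have h2 : v ++ [a] ∉ U := fun hh => by have := hU _ hh; simp at this; omega
    simp only [pw, if_neg h1, if_neg h2]; exact hf v a

lemma LipB.congr {m : ℕ} {f g : List (Fin d) → ℤ} (hf : LipB m f)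
    (h : ∀ v : List (Fin d), v.length ≤ m → f v = g v) : LipB m g := by
  intro v a hv
  rw [← h v hv.le, ← h (v ++ [a]) (by simp; omega)]; exact hf v a hv

abbrev mU (U : Finset (List (Fin d))) : MeasurableSpace (List (Fin d) → ℤ) :=
  cylinderEvents (X := fun _ : List (Fin d) => ℤ) {v | v ∉ U}

lemma measurable_pw' (U : Finset (List (Fin d))) (η : List (Fin d) → ℤ) :
    Measurable[mU U] (pw U η) := by
  refine (@measurable_pi_iff _ _ _ (mU U) _ _).2 fun v => ?_
  by_cases hv : v ∈ U
  · simp only [pw, if_pos hv]; exact measurable_const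
  · simp only [pw, if_neg hv]; exact measurable_cylinderEvent_apply (X := fun _ => ℤ) hv

lemma measurable_pw (U : Finset (List (Fin d))) (η : List (Fin d) → ℤ) : Measurable (pw U η) :=
  (measurable_pw' U η).mono cylinderEvents_le_pi le_rfl

lemma mU_inv {U : Finset (List (Fin d))} {s : Set (List (Fin d) → ℤ)} (hs : MeasurableSet[mU U] s)
    (η f : List (Fin d) → ℤ) : pw U η f ∈ s ↔ f ∈ s := by
  have hle : mU U ≤ MeasurableSpace.comap (pw U η) ⊤ := by
    refine iSup₂_le fun v hv => ?_
    rintro _ ⟨t, -, rfl⟩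
    refine ⟨(fun f => f v) ⁻¹' t, trivial, ?_⟩
    ext f; simp [pw, if_neg hv]
  obtain ⟨t, -, rfl⟩ := hle s hs
  have : pw U η (pw U η f) = pw U η f := by ext v; simp only [pw]; split_ifs <;> rfl
  simp [this]

def AA (U : Finset (List (Fin d))) (η η' : List (Fin d) → ℤ) : Set (List (Fin d) → ℤ) :=
  cyl U η ∩ pw U η' ⁻¹' {f | Lip f}

lemma meas_AA (U : Finset (List (Fin d))) (η η' : List (Fin d) → ℤ) : MeasurableSet (AA U η η') :=
  (meas_cyl U η).inter (measurable_pw U η' meas_Lip)

lemma swap {μ : Measure (List (Fin d) → ℤ)} [IsFiniteMeasure μ] (hl : ∀ᵐ f ∂μ, Lip f) (hu : Unif μ)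
    (U : Finset (List (Fin d))) (η η' : List (Fin d) → ℤ) :
    (μ.restrict (AA U η η')).map (pw U η') = μ.restrict (AA U η' η) := by
  obtain ⟨k, hk⟩ := exists_ball U
  refine ext_ball (k + 1) fun m hm ζ => ?_
  have hU : ∀ u ∈ U, u.length < m := fun u hu => by have := hk u hu; omega
  rw [Measure.map_apply (measurable_pw _ _) (meas_cyl _ _),
    Measure.restrict_apply (measurable_pw _ _ (meas_cyl _ _)), Measure.restrict_apply (meas_cyl _ _)]
  set C : Prop := (∀ u ∈ U, ζ u = η' u) ∧ LipB m ζ ∧ LipB m (pw U η ζ) with hC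
  have e1 : ∀ f, Lip f → (f ∈ pw U η' ⁻¹' cyl (ball d m) ζ ∩ AA U η η' ↔
      C ∧ f ∈ cyl (ball d m) (pw U η ζ)) := by
    intro f hf
    simp only [AA, cyl, Set.mem_inter_iff, Set.mem_preimage, Set.mem_ofPred_eq, mem_ball]
    constructor
    · rintro ⟨h1, h2, h3⟩
      have h4 : ∀ u : List (Fin d), u.length ≤ m → f u = pw U η ζ u := by
        intro u hu
        by_cases huU : u ∈ U
        · simp only [pw, if_pos huU]; exact h2 u huU
        · have := h1 u hu
          simp only [pw, if_neg huU] at this ⊢; exact this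
      refine ⟨⟨fun u hu => ?_, (h3.lipB m).congr h1, (hf.lipB m).congr h4⟩, h4⟩
      have := h1 u (hU u hu).le
      simp only [pw, if_pos hu] at this; exact this.symm
    · rintro ⟨⟨c1, c2, -⟩, h4⟩
      have h1 : ∀ u : List (Fin d), u.length ≤ m → pw U η' f u = ζ u := by
        intro u hu
        by_cases huU : u ∈ U
        · simp only [pw, if_pos huU]; exact (c1 u huU).symm
        · have := h4 u hu
          simp only [pw, if_neg huU] at this ⊢; exact this
      refine ⟨h1, fun u hu => ?_, lip_pw hU hf c2 h1⟩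
      have := h4 u (hU u hu).le
      simp only [pw, if_pos hu] at this; exact this
  have e2 : ∀ f, Lip f → (f ∈ cyl (ball d m) ζ ∩ AA U η' η ↔ C ∧ f ∈ cyl (ball d m) ζ) := by
    intro f hf
    simp only [AA, cyl, Set.mem_inter_iff, Set.mem_preimage, Set.mem_ofPred_eq, mem_ball]
    have h4 : (∀ u : List (Fin d), u.length ≤ m → f u = ζ u) →
        ∀ u : List (Fin d), u.length ≤ m → pw U η f u = pw U η ζ u := by
      intro h1 u hu; simp only [pw, h1 u hu]
    constructor
    · rintro ⟨h1, h2, h3⟩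
      exact ⟨⟨fun u hu => (h1 u (hU u hu).le).symm.trans (h2 u hu), (hf.lipB m).congr h1,
        (h3.lipB m).congr (h4 h1)⟩, h1⟩
    · rintro ⟨⟨c1, -, c3⟩, h1⟩
      exact ⟨h1, fun u hu => (h1 u (hU u hu).le).trans (c1 u hu), lip_pw hU hf c3 (h4 h1)⟩
  by_cases hc : C
  · have a1 : μ (pw U η' ⁻¹' cyl (ball d m) ζ ∩ AA U η η') = μ (cyl (ball d m) (pw U η ζ)) := by
      apply measure_congr; rw [eventuallyEq_set]
      filter_upwards [hl] with f hf; rw [e1 f hf]; simp [hc]
    have a2 : μ (cyl (ball d m) ζ ∩ AA U η' η) = μ (cyl (ball d m) ζ) := by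
      apply measure_congr; rw [eventuallyEq_set]
      filter_upwards [hl] with f hf; rw [e2 f hf]; simp [hc]
    rw [a1, a2]
    obtain ⟨n, rfl⟩ : ∃ n, m = n + 1 := ⟨m - 1, by omega⟩
    refine (measureReal_eq_measureReal_iff (measure_ne_top _ _) (measure_ne_top _ _)).1
      (hu n _ _ hc.2.2 hc.2.1 fun v hv => if_neg fun hh => ?_)
    have := hU v hh; omega
  · have a1 : μ (pw U η' ⁻¹' cyl (ball d m) ζ ∩ AA U η η') = μ ∅ := by
      apply measure_congr; rw [eventuallyEq_set]
      filter_upwards [hl] with f hf; rw [e1 f hf]; simp [hc]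
    have a2 : μ (cyl (ball d m) ζ ∩ AA U η' η) = μ ∅ := by
      apply measure_congr; rw [eventuallyEq_set]
      filter_upwards [hl] with f hf; rw [e2 f hf]; simp [hc]
    rw [a1, a2]

def extU (U : Finset (List (Fin d))) (a : U → ℤ) : List (Fin d) → ℤ :=
  fun v => if h : v ∈ U then a ⟨v, h⟩ else 0

def fill (U : Finset (List (Fin d))) (f : List (Fin d) → ℤ) : Set (List (Fin d) → ℤ) :=
  {g | Lip g ∧ ∀ v, v ∉ U → g v = f v}

noncomputable def NE (U : Finset (List (Fin d))) (f : List (Fin d) → ℤ) : ENNReal :=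
  ∑' a : U → ℤ, (pw U (extU U a) ⁻¹' {f | Lip f}).indicator 1 f

lemma measurable_NE (U : Finset (List (Fin d))) : Measurable[mU U] (NE U) :=
  @Measurable.ennreal_tsum _ (mU U) _ _ _ fun a =>
    (@measurable_const _ _ _ (mU U) _).indicator (measurable_pw' U _ meas_Lip)

lemma NE_eq (U : Finset (List (Fin d))) (f : List (Fin d) → ℤ) : NE U f = (fill U f).encard := by
  have h1 : fill U f = (fun a => pw U (extU U a) f) '' {a | Lip (pw U (extU U a) f)} := by
    ext g
    constructor
    · rintro ⟨h1, h2⟩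
      have : pw U (extU U fun u => g u) f = g := by
        ext v
        by_cases hv : v ∈ U
        · simp [pw, extU, hv]
        · simp [pw, hv, h2 v hv]
      exact ⟨fun u => g u, by simpa [this] using h1, this⟩
    · rintro ⟨a, ha, rfl⟩
      exact ⟨ha, fun v hv => if_neg hv⟩
  have h2 : Function.Injective fun a => pw U (extU U a) f := by
    intro a b hab
    ext u
    simpa [pw, extU, u.2] using congrFun hab u
  rw [h1, h2.encard_image, ← ENNReal.tsum_set_one,
    tsum_subtype {a | Lip (pw U (extU U a) f)} fun _ => (1 : ENNReal)]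
  rfl

lemma fill_finite (hd : 0 < d) (U : Finset (List (Fin d))) (f : List (Fin d) → ℤ) :
    (fill U f).Finite := by
  obtain ⟨k, hk⟩ := exists_ball U
  set w : List (Fin d) := List.replicate (k + 1) ⟨0, hd⟩
  have hw : w ∉ U := fun h => by have := hk w h; simp [w] at this
  apply Set.Finite.of_finite_image (f := trunc (k + 1))
  · refine ((Icc (f w - (k + 1 : ℕ)) (f w + (k + 1 : ℕ))).biUnion (conf d (k + 1))).finite_toSet.subset ?_
    rintro _ ⟨g, hg, rfl⟩
    have := abs_le.1 (root_bound hd (k + 1) g (hg.1.lipB _))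
    rw [hg.2 w hw] at this
    exact mem_coe.2 (mem_biUnion.2 ⟨g [], mem_Icc.2 (by omega), trunc_mem (hg.1.lipB _)⟩)
  · intro g hg g' hg' h
    ext v
    by_cases hv : v ∈ U
    · have := congrFun h v
      have h2 : v.length ≤ k + 1 := by have := hk v hv; omega
      simpa [trunc, h2] using this
    · rw [hg.2 v hv, hg'.2 v hv]

lemma NE_ne_top (hd : 0 < d) (U : Finset (List (Fin d))) (f : List (Fin d) → ℤ) : NE U f ≠ ⊤ := by
  rw [NE_eq, ENat.toENNReal_ne_top]; exact (fill_finite hd U f).encard_lt_top.ne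

lemma NE_ne_zero (U : Finset (List (Fin d))) {f : List (Fin d) → ℤ} (hf : Lip f) : NE U f ≠ 0 := by
  rw [NE_eq, Ne, ENat.toENNReal_eq_zero, Set.encard_eq_zero]
  exact Set.Nonempty.ne_empty ⟨f, hf, fun _ _ => rfl⟩

lemma NE_pw (U : Finset (List (Fin d))) (η f : List (Fin d) → ℤ) : NE U (pw U η f) = NE U f := by
  rw [NE_eq, NE_eq]
  congr 2; ext g
  refine and_congr_right fun _ => forall_congr' fun v => forall_congr' fun hv => ?_
  simp [pw, hv]

noncomputable def gE (U : Finset (List (Fin d))) (η f : List (Fin d) → ℤ) : ENNReal :=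
  (pw U η ⁻¹' {f | Lip f}).indicator (fun f => (NE U f)⁻¹) f

lemma measurable_gE (U : Finset (List (Fin d))) (η : List (Fin d) → ℤ) : Measurable[mU U] (gE U η) :=
  (measurable_NE U).inv.indicator (measurable_pw' U _ meas_Lip)

open Classical in
lemma gam_def (U : Finset (List (Fin d))) (η f : List (Fin d) → ℤ) :
    gam U η f = if Lip (pw U η f) then 1 / ((fill U f).ncard : ℝ) else 0 := by
  unfold gam pw fill; congr!

lemma gam_eq (hd : 0 < d) (U : Finset (List (Fin d))) (η f : List (Fin d) → ℤ) :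
    gam U η f = (gE U η f).toReal := by
  rw [gam_def, gE]
  by_cases h : Lip (pw U η f)
  · rw [if_pos h, Set.indicator_of_mem (by exact h), ENNReal.toReal_inv, NE_eq, one_div,
      ← (fill_finite hd U f).cast_ncard_eq]
    rfl
  · rw [if_neg h, Set.indicator_of_notMem (by exact h)]; rfl

lemma gE_le (U : Finset (List (Fin d))) (η f : List (Fin d) → ℤ) : gE U η f ≤ 1 := by
  unfold gE
  by_cases h : Lip (pw U η f)
  · rw [Set.indicator_of_mem h, ENNReal.inv_le_one, ← NE_pw U η f, NE_eq]
    have : (fill U (pw U η f)).Nonempty := ⟨_, h, fun _ _ => rfl⟩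
    exact_mod_cast Set.one_le_encard_iff_nonempty.2 this
  · rw [Set.indicator_of_notMem h]; exact zero_le_one

lemma dlr (hd : 0 < d) {μ : Measure (List (Fin d) → ℤ)} [IsFiniteMeasure μ] (hl : ∀ᵐ f ∂μ, Lip f)
    (hu : Unif μ) (U : Finset (List (Fin d))) (η : List (Fin d) → ℤ) {s : Set (List (Fin d) → ℤ)}
    (hs : MeasurableSet[mU U] s) : ∫⁻ f in s, gE U η f ∂μ = μ (s ∩ cyl U η) := by
  have hs' : MeasurableSet s := cylinderEvents_le_pi s hs
  set G : (List (Fin d) → ℤ) → ENNReal := s.indicator fun f => (NE U f)⁻¹ with hG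
  have mG : Measurable G :=
    ((measurable_NE U).mono cylinderEvents_le_pi le_rfl).inv.indicator hs'
  have iG : ∀ η' f, G (pw U η' f) = G f := by
    intro η' f
    by_cases h : f ∈ s
    · simp only [hG, Set.indicator_of_mem h, Set.indicator_of_mem ((mU_inv hs η' f).2 h), NE_pw]
    · simp only [hG, Set.indicator_of_notMem h,
        Set.indicator_of_notMem fun hh => h ((mU_inv hs η' f).1 hh)]
  have h1 : ∀ f, s.indicator (gE U η) f = ∑' a : U → ℤ, (AA U (extU U a) η).indicator G f := by
    intro f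
    rw [tsum_eq_single (fun u : U => f u)]
    · have : f ∈ cyl U (extU U fun u : U => f u) := fun u hu => by simp [extU, hu]
      by_cases h1 : f ∈ s <;> by_cases h2 : Lip (pw U η f) <;>
        simp [AA, hG, gE, Set.indicator, this, h1, h2]
    · intro a ha
      refine Set.indicator_of_notMem (fun h => ha ?_) _
      ext u; simpa [extU, u.2] using (h.1 u u.2).symm
  have h2 : ∀ f, Lip f → ∑' a : U → ℤ, (AA U η (extU U a)).indicator G f =
      (s ∩ cyl U η).indicator 1 f := by
    intro f hf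
    by_cases h1 : f ∈ cyl U η
    · have : ∀ a, (AA U η (extU U a)).indicator G f =
          G f * (pw U (extU U a) ⁻¹' {f | Lip f}).indicator 1 f := by
        intro a
        by_cases h2 : Lip (pw U (extU U a) f) <;> simp [AA, Set.indicator, h1, h2]
      simp only [this]
      rw [ENNReal.tsum_mul_left]
      change G f * NE U f = _
      by_cases h3 : f ∈ s
      · simp [hG, h1, h3, ENNReal.inv_mul_cancel (NE_ne_zero U hf) (NE_ne_top hd U f)]
      · simp [hG, h3]
    · simp [AA, h1]
  rw [← lintegral_indicator hs']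
  simp only [h1]
  rw [lintegral_tsum fun a => (mG.indicator (meas_AA _ _ _)).aemeasurable]
  have h3 : ∀ a : U → ℤ, ∫⁻ f, (AA U (extU U a) η).indicator G f ∂μ =
      ∫⁻ f, (AA U η (extU U a)).indicator G f ∂μ := by
    intro a
    rw [lintegral_indicator (meas_AA _ _ _), lintegral_indicator (meas_AA _ _ _),
      ← swap hl hu U η (extU U a), lintegral_map mG (measurable_pw _ _)]
    simp only [iG]
  simp only [h3]
  rw [← lintegral_tsum fun a => (mG.indicator (meas_AA _ _ _)).aemeasurable,
    ← lintegral_indicator_one (hs'.inter (meas_cyl _ _))]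
  apply lintegral_congr_ae
  filter_upwards [hl] with f hf using h2 f hf

theorem gibbs_of (hd : 0 < d) {μ : Measure (List (Fin d) → ℤ)} [IsProbabilityMeasure μ]
    (hl : ∀ᵐ f ∂μ, Lip f) (hu : Unif μ) : IsGibbs μ := by
  refine ⟨inferInstance, hl, fun U η => ?_⟩
  have hg : gam U η = fun f => (gE U η f).toReal := funext (gam_eq hd U η)
  have mg : Measurable[mU U] (gam U η) := by rw [hg]; exact (measurable_gE U η).ennreal_toReal
  refine (ae_eq_condExp_of_forall_setIntegral_eq cylinderEvents_le_pi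
    ((integrable_const 1).indicator (meas_cyl U η)) (fun s _ _ => ?_) (fun s hs _ => ?_)
    mg.stronglyMeasurable.aestronglyMeasurable).symm
  · refine (Integrable.of_bound (mg.mono cylinderEvents_le_pi le_rfl).aestronglyMeasurable 1
      (Eventually.of_forall fun f => ?_)).integrableOn
    rw [gam_eq hd, Real.norm_of_nonneg ENNReal.toReal_nonneg]
    exact ENNReal.toReal_le_of_le_ofReal zero_le_one (by simpa using gE_le U η f)
  · rw [hg, integral_toReal ((measurable_gE U η).mono cylinderEvents_le_pi le_rfl).aemeasurable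
      (Eventually.of_forall fun f => (gE_le U η f).trans_lt ENNReal.one_lt_top), dlr hd hl hu U η hs,
      setIntegral_indicator (meas_cyl U η)]
    simp [Measure.real]

theorem IsGibbs.unif {ν : Measure (List (Fin d) → ℤ)} (H : IsGibbs ν) : Unif ν := by
  obtain ⟨hp, hl, hg⟩ := H
  intro n ζ ζ' h1 h2 h3
  set L : Finset (List (Fin d)) := (ball d (n + 1)).filter fun v => v.length = n + 1
  have hU : ∀ u ∈ ball d n, u.length < n + 1 := fun u hu => by have := mem_ball.1 hu; omega
  have hs : MeasurableSet[mU (ball d n)] (cyl L ζ) := by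
    have : cyl L ζ = ⋂ u ∈ L, (fun f : List (Fin d) → ℤ => f u) ⁻¹' {ζ u} := by
      ext f; simp [cyl]
    rw [this]
    refine @Finset.measurableSet_biInter _ _ (mU (ball d n)) _ _ fun u hu => ?_
    refine measurable_cylinderEvent_apply (X := fun _ => ℤ) ?_ (measurableSet_singleton _)
    intro hh; have := hU u hh; have := (mem_filter.1 hu).2; omega
  have key : ∀ ξ : List (Fin d) → ℤ, (∀ v : List (Fin d), v.length = n + 1 → ζ v = ξ v) →
      ν.real (cyl (ball d (n + 1)) ξ) = ∫ f in cyl L ζ, gam (ball d n) ξ f ∂ν := by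
    intro ξ hξ
    rw [← setIntegral_congr_ae (cylinderEvents_le_pi _ hs)
      ((hg (ball d n) ξ).mono fun f hf _ => hf),
      setIntegral_condExp cylinderEvents_le_pi ((integrable_const 1).indicator (meas_cyl _ _)) hs,
      setIntegral_indicator (meas_cyl _ _)]
    have : cyl L ζ ∩ cyl (ball d n) ξ = cyl (ball d (n + 1)) ξ := by
      ext f
      simp only [cyl, L, Set.mem_inter_iff, Set.mem_ofPred_eq, mem_filter, mem_ball]
      constructor
      · rintro ⟨a, b⟩ u hu
        rcases hu.eq_or_lt with h | h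
        · rw [a u ⟨hu, h⟩, hξ u h]
        · exact b u (by omega)
      · intro a
        exact ⟨fun u hu => by rw [a u hu.1, hξ u hu.2], fun u hu => a u (by omega)⟩
    simp [this]
  rw [key ζ fun _ _ => rfl, key ζ' h3]
  apply setIntegral_congr_ae (meas_cyl _ _)
  filter_upwards [hl] with f hf hfs
  have k : ∀ ξ : List (Fin d) → ℤ, (∀ v : List (Fin d), v.length = n + 1 → ζ v = ξ v) →
      LipB (n + 1) ξ → Lip (pw (ball d n) ξ f) := by
    intro ξ hξ hl
    refine lip_pw hU hf hl fun v hv => ?_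
    by_cases hh : v ∈ ball d n
    · exact if_pos hh
    · have e : v.length = n + 1 := by rw [mem_ball] at hh; omega
      rw [pw, if_neg hh, hfs v (mem_filter.2 ⟨mem_ball.2 hv, e⟩), hξ v e]
  rw [gam_def, gam_def, if_pos (k ζ (fun _ _ => rfl) h1), if_pos (k ζ' h3 h2)]

end Pool.Agent.P.MP_23c5a6_pr
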