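import Pool.Agent.P.MP_23c5a6_pr.Mom

namespace Pool.Agent.P.MP_23c5a6_pr

open Finset Filter Topology

structure CenOk (c : ℕ) (h : ℕ → ℝ) (Z : ℝ) (D0 D1 D2 : PD) : Prop where
  o0 : D0.Ok
  o1 : D1.Ok
  o2 : D2.Ok
  p0 : qq c h Z 0 / 2 ≤ D0.p
  p1 : qq c h Z 1 / 2 ≤ D1.p
  p2 : qq c h Z 2 / 2 ≤ D2.p
  e0 : Z / yy c h 0 ^ 2 * ((1 + c) / yy c h 0 + (2 - c) ^ 2 * (h 1 / yy c h 1) / 2) - 1 ≤ D0.E ^ 2
  e1 : Z / yy c h 1 ^ 2 * (1 / ((1 + c) * yy c h 0) + h 1 / yy c h 1 / 2 + h 2 / yy c h 2 / 2) - 1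
    ≤ D1.E ^ 2
  e2 : Z / yy c h 2 ^ 2 * (h 1 / yy c h 1 / 2 + h 2 / yy c h 2 / 2 + h 3 / yy c h 3 / 2) - 1
    ≤ D2.E ^ 2
  f0 : Z / yy c h 0 ^ 2 * (c * (h 1 / yy c h 1) / 2) ≤ D0.O ^ 2
  f1 : Z / yy c h 1 ^ 2 * (c / (2 * yy c h 0) + h 1 / yy c h 1 / 2 + h 2 / yy c h 2 / 2) ≤ D1.O ^ 2
  f2 : Z / yy c h 2 ^ 2 * (h 1 / yy c h 1 / 2 + h 2 / yy c h 2 / 2 + h 3 / yy c h 3 / 2) ≤ D2.O ^ 2

def PolyOk (d : ℕ) (ε : ℝ) (D0 D1 D2 : PD) (C τ : ℝ) : Prop :=
  ∀ (m α β s : ℝ) (M : ℕ → ℝ), 0 ≤ m → 0 ≤ α → 0 ≤ β → 0 ≤ s → s ^ 2 = α ^ 2 + β ^ 2 →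
    M 2 ≤ D0.m2 α β + D1.m2 α β + D2.m2 α β + C / τ ^ (2 * d - 2) * s ^ 2 →
    M 3 ≤ D0.m3 α β + D1.m3 α β + D2.m3 α β + C / τ ^ (2 * d - 3) * s ^ 3 →
    M 4 ≤ D0.m4 α β + D1.m4 α β + D2.m4 α β + C / τ ^ (2 * d - 4) * s ^ 4 →
    (∀ k, 2 ≤ k → k ≤ 2 * d →
      M k ≤ (D0.mk' k + D1.mk' k + D2.mk' k + C / τ ^ (2 * d - k)) * s ^ k) →
    ∑ j ∈ range (2 * d - 1), ((2 * d).choose (2 + j) : ℝ) * m ^ (2 * d - (2 + j)) * M (2 + j) ≤
      (1 - ε) * ((m ^ 2 + s ^ 2) ^ d - m ^ (2 * d))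

variable {c d : ℕ} {h : ℕ → ℝ} {Z : ℝ}

lemma center (hc : c ≤ 1) (h0 : h 0 = 1) (hp : ∀ n, 0 < h n) (hy : ∀ n, 0 < yy c h n) (hZ : 0 < Z)
    {D0 D1 D2 : PD} (K : CenOk c h Z D0 D1 D2) (L : ℕ)
    (hQ : ∑ n ∈ range (L + 4), qq c h Z n ≤ 1) {a b : ℕ → ℝ} (hab : c = 0 → a 0 = b 0)
    {m A B : ℝ} (hm : m = ∑ n ∈ range (L + 4), qq c h Z n * ((a n + b n) / 2))
    (hA : A = ∑ n ∈ range (L + 4), qq c h Z n * ((a n + b n) / 2) ^ 2 - m ^ 2) (hA0 : 0 ≤ A)
    (hB : B = ∑ n ∈ range (L + 4), qq c h Z n * ((a n - b n) / 2) ^ 2) :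
    (((PA c h a b 0 - m + (PA c h b a 0 - m)) / 2) ^ 2 ≤ D0.E ^ 2 * A ∧
      ((PA c h a b 0 - m - (PA c h b a 0 - m)) / 2) ^ 2 ≤ D0.O ^ 2 * B) ∧
    (((PA c h a b 1 - m + (PA c h b a 1 - m)) / 2) ^ 2 ≤ D1.E ^ 2 * A ∧
      ((PA c h a b 1 - m - (PA c h b a 1 - m)) / 2) ^ 2 ≤ D1.O ^ 2 * B) ∧
    (((PA c h a b 2 - m + (PA c h b a 2 - m)) / 2) ^ 2 ≤ D2.E ^ 2 * A ∧
      ((PA c h a b 2 - m - (PA c h b a 2 - m)) / 2) ^ 2 ≤ D2.O ^ 2 * B) := by
  have hq := qq_pos hp hy hZ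
  have hB0 : 0 ≤ B := by rw [hB]; exact sum_nonneg fun i _ => by have := hq i; positivity
  have y0 := hy 0; have y1 := hy 1; have y2 := hy 2; have y3 := hy 3
  have p1 := hp 1; have p2 := hp 2; have p3 := hp 3
  have ev : ∀ (G : Finset ℕ) (P : ℕ → ℝ) (t E : ℝ), (∀ x ∈ G, x < 4) → ∑ i ∈ G, P i = 1 →
      t = ∑ i ∈ G, P i * ((a i + b i) / 2) - m → ∑ i ∈ G, P i ^ 2 / qq c h Z i - 1 ≤ E →
      t ^ 2 ≤ E * A := by
    intro G P t E hG hP ht hE
    have := cs_cent (F := range (L + 4)) (G := G)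
      (fun x hx => mem_range.2 (by have := hG x hx; omega)) hq hQ hP hm
    rw [← ht, ← hA] at this
    exact this.trans (mul_le_mul_of_nonneg_right hE hA0)
  have od : ∀ (G : Finset ℕ) (P : ℕ → ℝ) (t E : ℝ), (∀ x ∈ G, x < 4) →
      t = ∑ i ∈ G, P i * ((a i - b i) / 2) → ∑ i ∈ G, P i ^ 2 / qq c h Z i ≤ E →
      t ^ 2 ≤ E * B := by
    intro G P t E hG ht hE
    have := cs_plain (F := range (L + 4)) (G := G) (P := P) (v := fun i => (a i - b i) / 2)
      (fun x hx => mem_range.2 (by have := hG x hx; omega)) hq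
    rw [← ht, ← hB] at this
    exact this.trans (mul_le_mul_of_nonneg_right hE hB0)
  have e1 : yy c h 1 = 1 + h 1 + h 2 := by simp [yy, h0]
  have e2 : yy c h 2 = h 1 + h 2 + h 3 := by simp [yy]
  have e0 : yy c h 0 = 1 + c + (2 - c) * h 1 := by simp [yy]
  have hcc : (0 : ℝ) < 1 + c := by positivity
  refine ⟨⟨?_, ?_⟩, ⟨?_, ?_⟩, ⟨?_, ?_⟩⟩
  · apply ev {0, 1} (fun i => if i = 0 then (1 + c) / yy c h 0 else (2 - c) * h 1 / yy c h 0)
    · simp
    · simp; field_simp; rw [e0]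
    · simp [PA]; field_simp
      interval_cases c
      · rw [hab rfl]; simp; ring
      · simp; ring
    · refine le_trans (le_of_eq ?_) K.e0
      simp [qq, om, h0]; field_simp
  · apply od {1} (fun _ => c * h 1 / yy c h 0)
    · simp
    · simp [PA]; field_simp
      interval_cases c
      · rw [hab rfl]; simp; ring
      · simp; ring
    · refine le_trans (le_of_eq ?_) K.f0
      simp [qq, om]; field_simp
      interval_cases c <;> simp
  · apply ev {0, 1, 2} (fun i => h i / yy c h 1)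
    · simp
    · simp [h0]; field_simp; rw [e1]; ring
    · simp [PA]; field_simp; ring
    · refine le_trans (le_of_eq ?_) K.e1
      simp [qq, om, h0]; field_simp; ring
  · apply od {0, 1, 2} (fun i => if i = 0 then c / yy c h 1 else h i / yy c h 1)
    · simp
    · simp [PA, h0]; field_simp
      interval_cases c
      · rw [hab rfl]; simp; ring
      · simp; ring
    · refine le_trans (le_of_eq ?_) K.f1
      simp [qq, om, h0]; field_simp
      interval_cases c <;> simp <;> ring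
  · apply ev {1, 2, 3} (fun i => h i / yy c h 2)
    · simp
    · simp; field_simp; rw [e2]; ring
    · simp [PA]; field_simp; ring
    · refine le_trans (le_of_eq ?_) K.e2
      simp [qq, om]; field_simp; ring
  · apply od {1, 2, 3} (fun i => h i / yy c h 2)
    · simp
    · simp [PA]; field_simp; ring
    · refine le_trans (le_of_eq ?_) K.f2
      simp [qq, om]; field_simp; ring

lemma stat_half (hc : c ≤ 1) (h0 : h 0 = 1) (hy : ∀ n, 0 < yy c h n) (a b : ℕ → ℝ) (M : ℕ) :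
    ∑ n ∈ range (M + 1), qq c h Z n / 2 * (PA c h a b n + PA c h b a n) =
      ∑ n ∈ range (M + 1), qq c h Z n * ((a n + b n) / 2) +
        h M * h (M + 1) / Z * (a (M + 1) - a M + b (M + 1) - b M) := by
  induction M with
  | zero =>
    have := hy 0
    simp only [zero_add, sum_range_one, qq, om, PA, h0]
    field_simp
    simp only [yy]
    interval_cases c <;> simp <;> ring
  | succ M ih =>
    rw [sum_range_succ, ih, sum_range_succ _ (M + 1)]
    have := hy (M + 1)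
    simp only [qq, om, PA]
    field_simp
    simp only [yy]; ring

lemma sum_ext {f : ℕ → ℝ} {M L : ℕ} (hML : M ≤ L) (hf : ∀ n, M ≤ n → f n = 0) :
    ∑ n ∈ range L, f n = ∑ n ∈ range M, f n :=
  (sum_subset (range_mono hML) fun n _ hn => hf n (by simpa using hn)).symm

theorem hc_half (hc : c ≤ 1) (hd : 2 ≤ d) (h0 : h 0 = 1) (hp : ∀ n, 0 < h n)
    (hy : ∀ n, 0 < yy c h n) (hZ : 0 < Z) {D0 D1 D2 : PD} (K : CenOk c h Z D0 D1 D2)
    {θ θ' C τ ε : ℝ} (T : TailOk c d h Z θ θ' C τ) (hC : 0 ≤ C) (hε : 0 ≤ ε)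
    (R : PolyOk d ε D0 D1 D2 C τ) (hQ : ∀ M, ∑ n ∈ range M, qq c h Z n ≤ 1)
    (hQ1 : Tendsto (fun M => ∑ n ∈ range M, qq c h Z n) atTop (𝓝 1))
    {a b : ℕ → ℝ} (ha : ∀ n, 0 ≤ a n) (hb : ∀ n, 0 ≤ b n) (hab : c = 0 → a 0 = b 0) {M : ℕ}
    (hM : ∀ n, M ≤ n → a n = 0 ∧ b n = 0)
    (hn : ∑ n ∈ range M, qq c h Z n / 2 * (a n ^ 2 + b n ^ 2) = 1) {m : ℝ}
    (hm : m = ∑ n ∈ range M, qq c h Z n / 2 * (a n + b n)) (M' : ℕ) :
    ∑ n ∈ range M', qq c h Z n / 2 * (PA c h a b n ^ (2 * d) + PA c h b a n ^ (2 * d)) ≤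
      1 - ε * (1 - m ^ 2) := by
  have hq := qq_pos hp hy hZ
  have hm0 : 0 ≤ m := by
    rw [hm]; exact sum_nonneg fun i _ => by have := hq i; have := ha i; have := hb i; positivity
  have main : ∀ L, M + M' ≤ L → m ^ 2 ≤ 1 ∧
      ∑ n ∈ range M', qq c h Z n / 2 * (PA c h a b n ^ (2 * d) + PA c h b a n ^ (2 * d)) ≤
      m ^ (2 * d) * (∑ n ∈ range (L + 3), qq c h Z n) +
        (2 * d : ℕ) * m ^ (2 * d - 1) * (m - m * ∑ n ∈ range (L + 3), qq c h Z n) +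
        (1 - ε) * (1 - m ^ (2 * d)) := by
    intro L hL
    have hm' : ∀ L', M ≤ L' → m = ∑ n ∈ range L', qq c h Z n * ((a n + b n) / 2) := by
      intro L' hL'
      rw [hm, sum_ext hL' (fun n hn => by simp [hM n hn])]
      exact sum_congr rfl fun i _ => by ring
    have hn' : ∑ n ∈ range (L + 4), qq c h Z n / 2 * (a n ^ 2 + b n ^ 2) = 1 := by
      rw [← hn, sum_ext (show M ≤ L + 4 by omega) (fun n hn => by simp [hM n hn])]
    set A := ∑ n ∈ range (L + 4), qq c h Z n * ((a n + b n) / 2) ^ 2 - m ^ 2 with hA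
    set B := ∑ n ∈ range (L + 4), qq c h Z n * ((a n - b n) / 2) ^ 2 with hB
    have hB0 : 0 ≤ B := sum_nonneg fun i _ => by have := hq i; positivity
    have hA0 : 0 ≤ A := by
      have h1 := sum_sq_le_sum_mul_sum_of_sq_le_mul (range (L + 4))
        (r := fun n => qq c h Z n * ((a n + b n) / 2)) (f := qq c h Z)
        (g := fun n => qq c h Z n * ((a n + b n) / 2) ^ 2) (fun i _ => (hq i).le)
        (fun i _ => by have := hq i; positivity) (fun i _ => le_of_eq (by ring))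
      rw [← hm' _ (by omega)] at h1
      have h2 : 0 ≤ ∑ n ∈ range (L + 4), qq c h Z n * ((a n + b n) / 2) ^ 2 :=
        sum_nonneg fun i _ => by have := hq i; positivity
      have := mul_le_mul_of_nonneg_right (hQ (L + 4)) h2
      rw [hA]; linarith
    have hAB : A + B = 1 - m ^ 2 := by
      rw [hA, hB, ← hn', sub_add_eq_add_sub, ← sum_add_distrib]
      congr 1; exact sum_congr rfl fun i _ => by ring
    have hm1 : m ^ 2 ≤ 1 := by linarith
    refine ⟨hm1, ?_⟩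
    set α := √A
    set β := √B
    set s := √(1 - m ^ 2)
    have hα : α ^ 2 = A := Real.sq_sqrt hA0
    have hβ : β ^ 2 = B := Real.sq_sqrt hB0
    have hs : s ^ 2 = 1 - m ^ 2 := Real.sq_sqrt (by linarith)
    have hα0 : 0 ≤ α := Real.sqrt_nonneg _
    have hβ0 : 0 ≤ β := Real.sqrt_nonneg _
    have hs0 : 0 ≤ s := Real.sqrt_nonneg _
    have hss : s ^ 2 = α ^ 2 + β ^ 2 := by rw [hs, hα, hβ, hAB]
    have hE : ∑ n ∈ range (L + 4), qq c h Z n / 2 * ((a n - m) ^ 2 + (b n - m) ^ 2) ≤ s ^ 2 := by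
      have e : ∑ n ∈ range (L + 4), qq c h Z n / 2 * ((a n - m) ^ 2 + (b n - m) ^ 2) =
          ∑ n ∈ range (L + 4), qq c h Z n / 2 * (a n ^ 2 + b n ^ 2)
          - 2 * m * ∑ n ∈ range (L + 4), qq c h Z n * ((a n + b n) / 2)
          + m ^ 2 * ∑ n ∈ range (L + 4), qq c h Z n := by
        simp only [mul_sum, ← sum_add_distrib, ← sum_sub_distrib]
        exact sum_congr rfl fun i _ => by ring
      rw [e, hn', ← hm' _ (by omega), hs]
      have := mul_le_mul_of_nonneg_left (hQ (L + 4)) (sq_nonneg m)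
      nlinarith
    obtain ⟨⟨c0, c0'⟩, ⟨c1, c1'⟩, ⟨c2, c2'⟩⟩ :=
      center hc h0 hp hy hZ K L (hQ _) hab (hm' _ (by omega)) hA hA0 hB
    rw [← hα] at c0 c1 c2
    rw [← hβ] at c0' c1' c2'
    obtain ⟨u2, u3, u4, uk⟩ := PD.bounds K.o0 (half_pos (hq 0)).le K.p0 hα0 hβ0 hs0 hss c0 c0'
    obtain ⟨v2, v3, v4, vk⟩ := PD.bounds K.o1 (half_pos (hq 1)).le K.p1 hα0 hβ0 hs0 hss c1 c1'
    obtain ⟨w2, w3, w4, wk⟩ := PD.bounds K.o2 (half_pos (hq 2)).le K.p2 hα0 hβ0 hs0 hss c2 c2'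
    set Mom : ℕ → ℝ := fun k => ∑ n ∈ range (L + 3), qq c h Z n / 2 *
      ((PA c h a b n - m) ^ k + (PA c h b a n - m) ^ k) with hMom
    have hT := fun k hk hkd => tail_sum T hp hy hZ hC a b m s hs0 L hE (k := k) hk hkd
    have hsplit : ∀ k, Mom k =
        qq c h Z 0 / 2 * ((PA c h a b 0 - m) ^ k + (PA c h b a 0 - m) ^ k) +
        qq c h Z 1 / 2 * ((PA c h a b 1 - m) ^ k + (PA c h b a 1 - m) ^ k) +
        qq c h Z 2 / 2 * ((PA c h a b 2 - m) ^ k + (PA c h b a 2 - m) ^ k) +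
        ∑ j ∈ range L, qq c h Z (3 + j) / 2 *
          ((PA c h a b (3 + j) - m) ^ k + (PA c h b a (3 + j) - m) ^ k) := by
      intro k
      simp only [hMom]
      rw [add_comm L 3, sum_range_add]
      simp [sum_range_succ]
    have hpoly := R m α β s Mom hm0 hα0 hβ0 hs0 hss
      (by rw [hsplit]; linarith [hT 2 le_rfl (by omega)])
      (by rw [hsplit]; linarith [hT 3 (by norm_num) (by omega)])
      (by rw [hsplit]; linarith [hT 4 (by norm_num) (by omega)])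
      (fun k hk hkd => by
        rw [hsplit]; linarith [hT k hk hkd, uk k hk, vk k hk, wk k hk])
    rw [hs, add_sub_cancel, one_pow] at hpoly
    have hexp : ∑ n ∈ range (L + 3), qq c h Z n / 2 *
        (PA c h a b n ^ (2 * d) + PA c h b a n ^ (2 * d)) =
        ∑ k ∈ range (2 * d + 1), ((2 * d).choose k : ℝ) * m ^ (2 * d - k) * Mom k := by
      simp only [hMom, mul_sum]
      rw [sum_comm]
      refine sum_congr rfl fun n _ => ?_
      have e1 := add_pow (PA c h a b n - m) m (2 * d)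
      have e2 := add_pow (PA c h b a n - m) m (2 * d)
      rw [sub_add_cancel] at e1 e2
      rw [e1, e2, ← sum_add_distrib, mul_sum]
      exact sum_congr rfl fun k _ => by ring
    have hM0 : Mom 0 = ∑ n ∈ range (L + 3), qq c h Z n := by
      simp only [hMom]; exact sum_congr rfl fun k _ => by ring
    have hM1 : Mom 1 = m - m * ∑ n ∈ range (L + 3), qq c h Z n := by
      have := stat_half (Z := Z) hc h0 hy a b (L + 2)
      rw [(hM (L + 2) (by omega)).1, (hM (L + 2) (by omega)).2, (hM (L + 2 + 1) (by omega)).1,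
        (hM (L + 2 + 1) (by omega)).2, ← hm' _ (by omega)] at this
      simp only [sub_zero, add_zero, mul_zero] at this
      simp only [hMom]
      nth_rewrite 3 [← this]
      rw [mul_sum, ← sum_sub_distrib]
      exact sum_congr rfl fun k _ => by ring
    calc _ ≤ ∑ n ∈ range (L + 3), qq c h Z n / 2 *
        (PA c h a b n ^ (2 * d) + PA c h b a n ^ (2 * d)) := by
          apply sum_le_sum_of_subset_of_nonneg (range_mono (by omega))
          intro i _ _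
          have := hq i
          rw [pow_mul, pow_mul]; positivity
      _ ≤ _ := by
        rw [hexp, show 2 * d + 1 = 2 + (2 * d - 1) by omega, sum_range_add, sum_range_succ,
          sum_range_one, hM0, hM1]
        simp only [Nat.choose_zero_right, Nat.choose_one_right, Nat.cast_one, one_mul, tsub_zero]
        linarith
  have hm1 := (main _ le_rfl).1
  have hlim : Tendsto (fun L => m ^ (2 * d) * (∑ n ∈ range (L + 3), qq c h Z n) +
        (2 * d : ℕ) * m ^ (2 * d - 1) * (m - m * ∑ n ∈ range (L + 3), qq c h Z n) +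
        (1 - ε) * (1 - m ^ (2 * d))) atTop (𝓝 (m ^ (2 * d) * 1 +
        (2 * d : ℕ) * m ^ (2 * d - 1) * (m - m * 1) + (1 - ε) * (1 - m ^ (2 * d)))) := by
    have := (tendsto_add_atTop_iff_nat 3).2 hQ1
    exact ((this.const_mul _).add (((this.const_mul _).const_sub _).const_mul _)).add_const _
  have h1 := ge_of_tendsto hlim (eventually_atTop.2 ⟨M + M', fun L hL => (main L hL).2⟩)
  have h2 : m ^ (2 * d) ≤ m ^ 2 := by
    rw [pow_mul]; exact pow_le_of_le_one (sq_nonneg _) hm1 (by omega)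
  nlinarith

end Pool.Agent.P.MP_23c5a6_pr
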