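import Mathlib

namespace Pool.Agent.P.MP_23c5a6_pr

open Filter Topology

/-- neighbour sums on the half line -/
def yy (c : ℕ) (h : ℕ → ℝ) : ℕ → ℝ
  | 0 => (1 + c) + (2 - c) * h 1
  | n + 1 => h n + h (n + 1) + h (n + 2)

noncomputable def Phi (c d : ℕ) (h : ℕ → ℝ) (n : ℕ) : ℝ := (yy c h n / yy c h 0) ^ d

structure Inv (h : ℕ → ℝ) : Prop where
  h0 : h 0 = 1
  nn : ∀ n, 0 ≤ h n
  h1 : h 1 ≤ 1
  half : ∀ n, 1 ≤ n → h (n + 1) ≤ h n / 2

noncomputable def orb (c d : ℕ) : ℕ → ℕ → ℝ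
  | 0 => fun n => if n = 0 then 1 else 0
  | N + 1 => Phi c d (orb c d N)

variable {c d : ℕ} {h h' : ℕ → ℝ}

lemma yy_zero_ge (hc : c ≤ 1) (H : Inv h) : 1 ≤ yy c h 0 := by
  have := H.nn 1
  interval_cases c <;> simp [yy] <;> linarith

lemma yy_nn (hc : c ≤ 1) (H : Inv h) (n : ℕ) : 0 ≤ yy c h n := by
  cases n with
  | zero => linarith [yy_zero_ge hc H]
  | succ n => have := H.nn n; have := H.nn (n+1); have := H.nn (n+2); simp only [yy]; linarith

lemma yy_half (H : Inv h) (n : ℕ) (hn : 2 ≤ n) : yy c h (n + 1) ≤ yy c h n / 2 := by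
  obtain ⟨m, rfl⟩ : ∃ m, n = m + 1 := ⟨n - 1, by omega⟩
  have h1 := H.half m (by omega); have h2 := H.half (m+1) (by omega)
  have h3 := H.half (m+2) (by omega)
  simp only [yy]; linarith

lemma Inv.phi (hc : c ≤ 1) (hd : 2 ≤ d) (H : Inv h) : Inv (Phi c d h) := by
  have hy := yy_zero_ge hc H
  have hy0 : 0 < yy c h 0 := by linarith
  have key : ∀ (n : ℕ) (r : ℝ), 0 ≤ r → r ^ 2 ≤ 1 / 2 → yy c h (n + 1) ≤ r * yy c h n →
      Phi c d h (n + 1) ≤ Phi c d h n / 2 := by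
    intro n r hr hr2 hle
    have hr1 : r ≤ 1 := by nlinarith
    have : r ^ d ≤ 1 / 2 := (pow_le_pow_of_le_one hr hr1 hd).trans hr2
    have h1 : Phi c d h (n + 1) ≤ r ^ d * Phi c d h n := by
      unfold Phi
      rw [← mul_pow]
      apply pow_le_pow_left₀ (div_nonneg (yy_nn hc H _) hy0.le)
      rw [← mul_div_assoc]
      exact div_le_div_of_nonneg_right hle hy0.le
    have h2 : 0 ≤ Phi c d h n := pow_nonneg (div_nonneg (yy_nn hc H _) hy0.le) _
    nlinarith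
  refine ⟨?_, fun n => pow_nonneg (div_nonneg (yy_nn hc H _) hy0.le) _, ?_, ?_⟩
  · simp [Phi, hy0.ne']
  · apply pow_le_one₀ (div_nonneg (yy_nn hc H _) hy0.le)
    rw [div_le_one hy0]
    have h1 := H.half 1 le_rfl; have := H.nn 1; have := H.h1; have h0 := H.h0
    interval_cases c <;> simp only [yy] <;> push_cast <;> linarith
  · intro n hn
    rcases hn.eq_or_lt with rfl | hn
    · apply key 1 (7 / 10) (by norm_num) (by norm_num)
      have h1 := H.half 1 le_rfl; have := H.half 2 (by norm_num); have := H.h1; have h0 := H.h0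
      simp only [yy]; norm_num at *; linarith
    · apply key n (1 / 2) (by norm_num) (by norm_num)
      have := yy_half (c := c) H n hn; linarith

lemma inv_orb (hc : c ≤ 1) (hd : 2 ≤ d) (N : ℕ) : Inv (orb c d N) := by
  induction N with
  | zero =>
    refine ⟨by simp [orb], fun n => ?_, by simp [orb], fun n hn => ?_⟩
    · simp only [orb]; split_ifs <;> norm_num
    · have : n ≠ 0 := by omega
      simp [orb, this]
  | succ N ih => exact ih.phi hc hd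

/-! ### Interval boxes -/

structure InB (l1 u1 l2 u2 l3 u3 l4 u4 : ℝ) (h : ℕ → ℝ) : Prop where
  a1 : l1 ≤ h 1
  b1 : h 1 ≤ u1
  a2 : l2 ≤ h 2
  b2 : h 2 ≤ u2
  a3 : l3 ≤ h 3
  b3 : h 3 ≤ u3
  a4 : l4 ≤ h 4
  b4 : h 4 ≤ u4

structure Bx where
  l1 : ℕ
  u1 : ℕ
  l2 : ℕ
  u2 : ℕ
  l3 : ℕ
  u3 : ℕ
  l4 : ℕ
  u4 : ℕ

def SS : ℕ := 10 ^ 40

def Bx.Mem (B : Bx) (h : ℕ → ℝ) : Prop :=
  InB (B.l1 / SS) (B.u1 / SS) (B.l2 / SS) (B.u2 / SS) (B.l3 / SS) (B.u3 / SS) (B.l4 / SS)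
    (B.u4 / SS) h

def lo (d n m : ℕ) : ℕ := n ^ d * SS / m ^ d
def hi (d n m : ℕ) : ℕ := n ^ d * SS / m ^ d + 1

def Bx.step (c d : ℕ) (B : Bx) : Bx where
  l1 := if c = 0 then lo d (SS + B.u1 + B.l2) (SS + 2 * B.u1) else lo d (SS + B.l1 + B.l2) (2 * SS + B.l1)
  u1 := if c = 0 then hi d (SS + B.l1 + B.u2) (SS + 2 * B.l1) else hi d (SS + B.u1 + B.u2) (2 * SS + B.u1)
  l2 := lo d (B.l1 + B.l2 + B.l3) ((1 + c) * SS + (2 - c) * B.u1)
  u2 := hi d (B.u1 + B.u2 + B.u3) ((1 + c) * SS + (2 - c) * B.l1)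
  l3 := lo d (B.l2 + B.l3 + B.l4) ((1 + c) * SS + (2 - c) * B.u1)
  u3 := hi d (B.u2 + B.u3 + B.u4) ((1 + c) * SS + (2 - c) * B.l1)
  l4 := lo d (B.l3 + B.l4) ((1 + c) * SS + (2 - c) * B.u1)
  u4 := hi d (B.u3 + 2 * B.u4) ((1 + c) * SS + (2 - c) * B.l1)

def Bx.sub (B C : Bx) : Bool :=
  decide (C.l1 ≤ B.l1) && decide (B.u1 ≤ C.u1) && decide (C.l2 ≤ B.l2) && decide (B.u2 ≤ C.u2) &&
  decide (C.l3 ≤ B.l3) && decide (B.u3 ≤ C.u3) && decide (C.l4 ≤ B.l4) && decide (B.u4 ≤ C.u4)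

def Bx.iter (c d : ℕ) : ℕ → Bx → Bx
  | 0, B => B
  | N + 1, B => Bx.iter c d N (B.step c d)

lemma SS_pos : (0 : ℝ) < SS := by unfold SS; positivity

lemma lo_le {n m : ℕ} {y z : ℝ} (hm : 0 < m) (hz : 0 < z) (hle : n * z ≤ y * m) :
    (lo d n m : ℝ) / SS ≤ (y / z) ^ d := by
  have hm' : (0 : ℝ) < m := by exact_mod_cast hm
  rw [div_le_iff₀ SS_pos]
  have h1 : (lo d n m : ℝ) ≤ ((n : ℝ) / m) ^ d * SS := by
    refine Nat.cast_div_le.trans (le_of_eq ?_)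
    push_cast; rw [div_pow]; ring
  refine h1.trans (mul_le_mul_of_nonneg_right ?_ SS_pos.le)
  apply pow_le_pow_left₀ (by positivity)
  rw [div_le_div_iff₀ hm' hz]; exact hle

lemma le_hi {n m : ℕ} {y z : ℝ} (hm : 0 < m) (hz : 0 < z) (hy : 0 ≤ y) (hle : y * m ≤ n * z) :
    (y / z) ^ d ≤ (hi d n m : ℝ) / SS := by
  have hm' : (0 : ℝ) < m := by exact_mod_cast hm
  rw [le_div_iff₀ SS_pos]
  have h1 : ((n : ℝ) / m) ^ d * SS ≤ (hi d n m : ℝ) := by
    have h2 : n ^ d * SS < (n ^ d * SS / m ^ d + 1) * m ^ d := by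
      have := Nat.lt_div_mul_add (a := n ^ d * SS) (pow_pos hm d)
      linarith
    have h3 : ((n : ℝ) ^ d * SS) ≤ (hi d n m : ℝ) * (m : ℝ) ^ d := by
      unfold hi; exact_mod_cast h2.le
    rw [div_pow, div_mul_eq_mul_div, div_le_iff₀ (by positivity)]; exact h3
  refine le_trans (mul_le_mul_of_nonneg_right ?_ SS_pos.le) h1
  apply pow_le_pow_left₀ (by positivity)
  rw [div_le_div_iff₀ hz hm']; exact hle

lemma Bx.Mem.step (hc : c ≤ 1) {B : Bx} (H : Inv h) (hB : B.Mem h) :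
    (B.step c d).Mem (Phi c d h) := by
  have hS := SS_pos
  have hSn : 0 < SS := by exact_mod_cast hS
  have hy := yy_zero_ge hc H
  have hy0 : 0 < yy c h 0 := by linarith
  obtain ⟨a1, b1, a2, b2, a3, b3, a4, b4⟩ := hB
  rw [div_le_iff₀ hS] at a1 a2 a3 a4
  rw [le_div_iff₀ hS] at b1 b2 b3 b4
  have n1 := H.nn 1; have n2 := H.nn 2; have n3 := H.nn 3; have n4 := H.nn 4; have n5 := H.nn 5
  have h0 := H.h0; have k1 := H.h1; have k2 := H.half 1 le_rfl; have k5 := H.half 4 (by norm_num)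
  norm_num at k2 k5
  have hyu : yy c h 0 * SS ≤ (((1 + c) * SS + (2 - c) * B.u1 : ℕ) : ℝ) := by
    interval_cases c <;> simp only [yy] <;> push_cast <;> nlinarith
  have hyl : (((1 + c) * SS + (2 - c) * B.l1 : ℕ) : ℝ) ≤ yy c h 0 * SS := by
    interval_cases c <;> simp only [yy] <;> push_cast <;> nlinarith
  have hLo : ∀ (n : ℕ) (y : ℝ), 0 ≤ y → (n : ℝ) ≤ y * SS →
      (lo d n ((1 + c) * SS + (2 - c) * B.u1) : ℝ) / SS ≤ (y / yy c h 0) ^ d := by
    intro n y hy' hn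
    apply lo_le (by positivity) hy0
    calc (n : ℝ) * yy c h 0 ≤ y * SS * yy c h 0 := by gcongr
      _ = y * (yy c h 0 * SS) := by ring
      _ ≤ _ := by gcongr
  have hHi : ∀ (n : ℕ) (y : ℝ), 0 ≤ y → y * SS ≤ (n : ℝ) →
      (y / yy c h 0) ^ d ≤ (hi d n ((1 + c) * SS + (2 - c) * B.l1) : ℝ) / SS := by
    intro n y hy' hn
    apply le_hi (by positivity) hy0 hy'
    calc y * _ ≤ y * (yy c h 0 * SS) := by gcongr
      _ = y * SS * yy c h 0 := by ring
      _ ≤ _ := by gcongr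
  refine ⟨?_, ?_, ?_, ?_, ?_, ?_, ?_, ?_⟩
  · interval_cases c
    · simp only [Bx.step, if_true]
      apply lo_le (by positivity) hy0
      simp only [yy, h0]; push_cast
      have : (0 : ℝ) ≤ B.u1 - h 1 * SS := by linarith
      have h2 : (0 : ℝ) ≤ h 2 * SS - B.l2 := by linarith
      nlinarith [mul_nonneg this n2, mul_nonneg h2 n1]
    · simp only [Bx.step, one_ne_zero, if_false]
      apply lo_le (by positivity) hy0
      simp only [yy, h0]; push_cast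
      have : (0 : ℝ) ≤ h 1 * SS - B.l1 := by linarith
      have h2 : (0 : ℝ) ≤ h 2 * SS - B.l2 := by linarith
      have h3 : 0 ≤ 1 - h 2 := by linarith
      nlinarith [mul_nonneg this h3, mul_nonneg h2 n1]
  · interval_cases c
    · simp only [Bx.step, if_true]
      apply le_hi (by positivity) hy0 (yy_nn hc H 1)
      simp only [yy, h0]; push_cast
      have : (0 : ℝ) ≤ h 1 * SS - B.l1 := by linarith
      have h2 : (0 : ℝ) ≤ B.u2 - h 2 * SS := by linarith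
      nlinarith [mul_nonneg this n2, mul_nonneg h2 n1]
    · simp only [Bx.step, one_ne_zero, if_false]
      apply le_hi (by positivity) hy0 (yy_nn le_rfl H 1)
      simp only [yy, h0]; push_cast
      have : (0 : ℝ) ≤ B.u1 - h 1 * SS := by linarith
      have h2 : (0 : ℝ) ≤ B.u2 - h 2 * SS := by linarith
      have h3 : 0 ≤ 1 - h 2 := by linarith
      nlinarith [mul_nonneg this h3, mul_nonneg h2 n1]
  · apply hLo _ _ (yy_nn hc H 2); simp only [yy]; push_cast; linarith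
  · apply hHi _ _ (yy_nn hc H 2); simp only [yy]; push_cast; linarith
  · apply hLo _ _ (yy_nn hc H 3); simp only [yy]; push_cast; linarith
  · apply hHi _ _ (yy_nn hc H 3); simp only [yy]; push_cast; linarith
  · apply hLo _ _ (yy_nn hc H 4); simp only [yy]; push_cast; nlinarith
  · apply hHi _ _ (yy_nn hc H 4); simp only [yy]; push_cast; nlinarith

lemma Bx.Mem.sub {B C : Bx} (hB : B.Mem h) (hs : B.sub C = true) : C.Mem h := by
  simp only [Bx.sub, Bool.and_eq_true, decide_eq_true_eq] at hs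
  obtain ⟨⟨⟨⟨⟨⟨⟨s1, s2⟩, s3⟩, s4⟩, s5⟩, s6⟩, s7⟩, s8⟩ := hs
  have hS := SS_pos
  have e : ∀ {a b : ℕ}, a ≤ b → (a : ℝ) / SS ≤ (b : ℝ) / SS := fun hab => by
    gcongr
  exact ⟨(e s1).trans hB.a1, hB.b1.trans (e s2), (e s3).trans hB.a2, hB.b2.trans (e s4),
    (e s5).trans hB.a3, hB.b3.trans (e s6), (e s7).trans hB.a4, hB.b4.trans (e s8)⟩

lemma mem_iter (hc : c ≤ 1) (hd : 2 ≤ d) (N : ℕ) : ∀ (M : ℕ) (B : Bx), B.Mem (orb c d M) →
    (Bx.iter c d N B).Mem (orb c d (M + N)) := by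
  induction N with
  | zero => intro M B hB; exact hB
  | succ N ih =>
    intro M B hB
    have := ih (M + 1) _ (hB.step (d := d) hc (inv_orb hc hd M))
    rw [show M + (N + 1) = M + 1 + N by ring]; exact this

lemma mem_eventually (hc : c ≤ 1) (hd : 2 ≤ d) {N0 : ℕ} {B : Bx}
    (h1 : (Bx.iter c d N0 ⟨0, 0, 0, 0, 0, 0, 0, 0⟩).sub B = true) (h2 : (B.step c d).sub B = true)
    (N : ℕ) : B.Mem (orb c d (N0 + N)) := by
  induction N with
  | zero =>
    have := mem_iter hc hd N0 0 ⟨0, 0, 0, 0, 0, 0, 0, 0⟩ (by constructor <;> simp [orb])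
    rw [zero_add] at this
    exact this.sub h1
  | succ N ih => exact (ih.step (d := d) hc (inv_orb hc hd _)).sub h2

end Pool.Agent.P.MP_23c5a6_pr
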