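import Pool.Agent.P.MP_23c5a6_pr.Zlev

namespace Pool.Agent.P.MP_23c5a6_pr

open Finset Filter Topology

variable {d : ℕ} {x pi : ℤ → ℝ} {ε : ℝ}

lemma YY_pos (hx : ∀ i, 0 < x i) (i : ℤ) : 0 < YY x i := by
  have := hx (i - 1); have := hx i; have := hx (i + 1); unfold YY; linarith

lemma Chain.pi_pos (C : Chain d x pi ε) (i : ℤ) : 0 < pi i := by
  obtain ⟨Z, hZ, h⟩ := C.Z
  have := C.pos i; have := YY_pos C.pos i
  rw [h]; positivity

lemma Pm_nn (hx : ∀ i, 0 < x i) {v : ℤ → ℝ} (hv : ∀ i, 0 ≤ v i) (i : ℤ) : 0 ≤ Pm x v i := by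
  have := hx (i - 1); have := hx i; have := hx (i + 1); have := YY_pos hx i
  have := hv (i - 1); have := hv i; have := hv (i + 1)
  unfold Pm; positivity

lemma Pm_const (hx : ∀ i, 0 < x i) (a : ℝ) (i : ℤ) : Pm x (fun _ => a) i = a := by
  have := YY_pos hx i
  unfold Pm; field_simp; rfl

def nb (F : Finset ℤ) : Finset ℤ := F.image (· + 1) ∪ F ∪ F.image (· - 1)

lemma not_mem_nb {F : Finset ℤ} {i : ℤ} (h : i ∉ nb F) : i - 1 ∉ F ∧ i ∉ F ∧ i + 1 ∉ F := by
  simp only [nb, mem_union, mem_image, not_or, not_exists, not_and] at h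
  exact ⟨fun hh => h.1.1 _ hh (by ring), h.1.2, fun hh => h.2 _ hh (by ring)⟩

lemma Pm_zero {v : ℤ → ℝ} {F : Finset ℤ} (hF : ∀ i, i ∉ F → v i = 0) (i : ℤ) (hi : i ∉ nb F) :
    Pm x v i = 0 := by
  obtain ⟨a, b, c⟩ := not_mem_nb hi
  simp [Pm, hF _ a, hF _ b, hF _ c]

lemma Chain.rev (C : Chain d x pi ε) {r : ℤ → ℝ} {F : Finset ℤ} (hF : ∀ i, i ∉ F → r i = 0)
    (g : ℤ → ℝ) : ∑' i, pi i * (Pm x r i * g i) = ∑' j, pi j * (r j * Pm x g j) := by
  obtain ⟨Z, hZ, h⟩ := C.Z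
  have e1 : ∀ i, pi i * (Pm x r i * g i) = x i * x (i - 1) * r (i - 1) * g i / Z +
      x i * x i * r i * g i / Z + x i * x (i + 1) * r (i + 1) * g i / Z := by
    intro i; have := YY_pos C.pos i; rw [h, Pm]; field_simp
  have e2 : ∀ j, pi j * (r j * Pm x g j) = x (j + 1) * x j * r j * g (j + 1) / Z +
      x j * x j * r j * g j / Z + x (j - 1) * x j * r j * g (j - 1) / Z := by
    intro i; have := YY_pos C.pos i; rw [h, Pm]; field_simp; ring
  have s1 : Summable fun j => x (j + 1) * x j * r j * g (j + 1) / Z :=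
    summable_of_ne_finset_zero (s := F) fun i hi => by simp [hF i hi]
  have s2 : Summable fun j => x j * x j * r j * g j / Z :=
    summable_of_ne_finset_zero (s := F) fun i hi => by simp [hF i hi]
  have s3 : Summable fun j => x (j - 1) * x j * r j * g (j - 1) / Z :=
    summable_of_ne_finset_zero (s := F) fun i hi => by simp [hF i hi]
  have t1 : Summable fun i => x i * x (i - 1) * r (i - 1) * g i / Z :=
    summable_of_ne_finset_zero (s := nb F) fun i hi => by simp [hF _ (not_mem_nb hi).1]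
  have t3 : Summable fun i => x i * x (i + 1) * r (i + 1) * g i / Z :=
    summable_of_ne_finset_zero (s := nb F) fun i hi => by simp [hF _ (not_mem_nb hi).2.2]
  simp only [e1, e2]
  rw [(t1.add s2).tsum_add t3, t1.tsum_add s2, (s1.add s2).tsum_add s3, s1.tsum_add s2]
  congr 1
  · congr 1
    rw [← (Equiv.addRight (1 : ℤ)).tsum_eq]; simp
  · rw [← (Equiv.subRight (1 : ℤ)).tsum_eq]; simp

lemma Chain.stat (C : Chain d x pi ε) {r : ℤ → ℝ} {F : Finset ℤ} (hF : ∀ i, i ∉ F → r i = 0) :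
    ∑' i, pi i * Pm x r i = ∑' j, pi j * r j := by
  simpa [Pm_const C.pos] using C.rev hF (fun _ => 1)

lemma Pm_log (hx : ∀ i, 0 < x i) {v : ℤ → ℝ} {j : ℤ} (h1 : 0 < v (j - 1)) (h2 : 0 < v j)
    (h3 : 0 < v (j + 1)) : 0 < Pm x v j ∧ Pm x (fun i => Real.log (v i)) j ≤ Real.log (Pm x v j) := by
  have a1 := hx (j - 1); have a2 := hx j; have a3 := hx (j + 1); have hY := YY_pos hx j
  have hA : 0 < Pm x v j := by unfold Pm; positivity
  refine ⟨hA, ?_⟩
  have k : ∀ {t : ℝ}, 0 < t → Real.log t ≤ Real.log (Pm x v j) + t / Pm x v j - 1 := by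
    intro t ht
    have := Real.log_le_sub_one_of_pos (div_pos ht hA)
    rw [Real.log_div ht.ne' hA.ne'] at this; linarith
  have b1 := mul_le_mul_of_nonneg_left (k h1) a1.le
  have b2 := mul_le_mul_of_nonneg_left (k h2) a2.le
  have b3 := mul_le_mul_of_nonneg_left (k h3) a3.le
  have e : x (j - 1) * (v (j - 1) / Pm x v j) + x j * (v j / Pm x v j) +
      x (j + 1) * (v (j + 1) / Pm x v j) = YY x j := by
    have : x (j - 1) * v (j - 1) + x j * v j + x (j + 1) * v (j + 1) = YY x j * Pm x v j := by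
      unfold Pm; field_simp
    field_simp; linarith
  rw [Pm, div_le_iff₀ hY]
  unfold YY at *
  linarith

lemma Pm_pos_of (hx : ∀ i, 0 < x i) {r : ℤ → ℝ} (hr : ∀ i, 0 ≤ r i) {j : ℤ} (hj : 0 < r j) :
    0 < Pm x r (j - 1) ∧ 0 < Pm x r j ∧ 0 < Pm x r (j + 1) := by
  have k : ∀ i, 0 ≤ x i * r i := fun i => mul_nonneg (hx i).le (hr i)
  have k0 : 0 < x j * r j := mul_pos (hx j) hj
  refine ⟨div_pos ?_ (YY_pos hx _), div_pos ?_ (YY_pos hx _), div_pos ?_ (YY_pos hx _)⟩
  · rw [sub_add_cancel]; linarith [k (j - 1 - 1), k (j - 1)]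
  · linarith [k (j - 1), k (j + 1)]
  · rw [add_sub_cancel_right]; linarith [k (j + 1 + 1), k (j + 1)]

theorem Chain.key (C : Chain d x pi ε) {r : ℤ → ℝ} (hr : ∀ i, 0 ≤ r i) {F : Finset ℤ}
    (hF : ∀ i, i ∉ F → r i = 0) (h1 : ∑' i, pi i * r i = 1) :
    d * ∑' i, pi i * (Pm x r i * Real.log (Pm x r i)) + ε * (1 - (∑' i, pi i * √(Pm x r i)) ^ 2) ≤
      ∑' i, pi i * (r i * Real.log (r i)) := by
  have hs := Pm_nn C.pos hr
  have hF' := Pm_zero (x := x) hF
  have hc := C.hc (fun i => √(Pm x r i)) (nb F) F (fun i => Real.sqrt_nonneg _)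
    (fun i hi => by simp [hF' i hi]) (by
      simp only [Real.sq_sqrt (hs _)]
      rw [← h1, ← C.stat hF, tsum_eq_sum (s := nb F) (fun i hi => by simp [hF' i hi])])
  rw [C.rev hF, tsum_eq_sum (s := F) (fun i hi => by simp [hF i hi]),
    tsum_eq_sum (s := nb F) (fun i hi => by simp [hF' i hi]),
    tsum_eq_sum (s := F) (fun i hi => by simp [hF i hi])]
  rw [tsum_eq_sum (s := F) (fun i hi => by simp [hF i hi])] at h1
  have pt : ∀ j ∈ F, d * (pi j * (r j * Pm x (fun i => Real.log (Pm x r i)) j)) ≤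
      pi j * (r j * Real.log (r j)) + (pi j * Pm x (fun i => √(Pm x r i)) j ^ (2 * d) - pi j * r j) := by
    intro j _
    have hp := C.pi_pos j
    rcases (hr j).eq_or_lt with h0 | h0
    · rw [← h0, pow_mul]; simp; positivity
    · obtain ⟨a1, a2, a3⟩ := Pm_pos_of C.pos hr h0
      obtain ⟨b1, b2⟩ := Pm_log C.pos (v := fun i => √(Pm x r i)) (j := j) (Real.sqrt_pos.2 a1)
        (Real.sqrt_pos.2 a2) (Real.sqrt_pos.2 a3)
      have e : Pm x (fun i => Real.log (Pm x r i)) j =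
          2 * Pm x (fun i => Real.log √(Pm x r i)) j := by
        simp only [Real.log_sqrt (hs _)]
        unfold Pm; ring
      set T := Pm x (fun i => √(Pm x r i)) j
      have c1 := Real.log_le_sub_one_of_pos (div_pos (pow_pos b1 (2 * d)) h0)
      rw [Real.log_div (pow_pos b1 _).ne' h0.ne', Real.log_pow] at c1
      have c2 := mul_le_mul_of_nonneg_left c1 h0.le
      have c3 : r j * (T ^ (2 * d) / r j - 1) = T ^ (2 * d) - r j := by field_simp
      have c4 := mul_le_mul_of_nonneg_left b2 (show 0 ≤ 2 * d * r j by positivity)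
      rw [c3] at c2
      push_cast at c2
      have c5 : d * (r j * Pm x (fun i => Real.log (Pm x r i)) j) ≤
          r j * Real.log (r j) + (T ^ (2 * d) - r j) := by rw [e]; linarith
      have := mul_le_mul_of_nonneg_left c5 hp.le
      linarith
  have := sum_le_sum pt
  rw [← mul_sum, sum_add_distrib, sum_sub_distrib, h1] at this
  linarith

lemma Chain.dev (C : Chain d x pi ε) {v : ℤ → ℝ} {F : Finset ℤ} (hF : ∀ i, i ∉ F → v i = 0)
    (h1 : ∑' i, pi i * v i ^ 2 = 1) (j : ℤ) :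
    pi j * (v j - ∑' i, pi i * v i) ^ 2 ≤ 1 - (∑' i, pi i * v i) ^ 2 := by
  set m := ∑' i, pi i * v i with hm
  have s1 : HasSum (fun i => pi i * v i ^ 2) 1 := by
    rw [← h1]
    exact (summable_of_ne_finset_zero (s := F) fun i hi => by simp [hF i hi]).hasSum
  have s2 : HasSum (fun i => pi i * v i) m :=
    (summable_of_ne_finset_zero (s := F) fun i hi => by simp [hF i hi]).hasSum
  have s3 : HasSum (fun i => pi i * (v i - m) ^ 2) (1 - m ^ 2) := by
    have := (s1.sub (s2.mul_left (2 * m))).add (C.sum.mul_left (m ^ 2))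
    rw [show 1 - 2 * m * m + m ^ 2 * 1 = 1 - m ^ 2 by ring] at this
    exact this.congr_fun (fun i => by ring)
  exact le_hasSum s3 j fun i _ => mul_nonneg (C.pi_pos i).le (sq_nonneg _)

end Pool.Agent.P.MP_23c5a6_pr
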