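import Pool.Agent.P.MP_23c5a6_pr.Meas

namespace Pool.Agent.P.MP_23c5a6_pr

open Finset Filter Topology MeasureTheory

variable {d : ℕ}

def Ev (n : ℕ) (E : List (Fin d) → ℤ → Prop) (i : ℤ) : Set (List (Fin d) → ℤ) :=
  {f | f [] = i ∧ ∀ v : List (Fin d), v.length ≤ n → E v (f v)}

open Classical in
lemma meas_Ev {ν : Measure (List (Fin d) → ℤ)} [IsFiniteMeasure ν] (hν : ∀ᵐ f ∂ν, Lip f) (n : ℕ)
    (E : List (Fin d) → ℤ → Prop) (i : ℤ) : ν.real (Ev n E i) = ∑ ζ ∈ conf d n i,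
      if ∀ v : List (Fin d), v.length ≤ n → E v (ζ v) then ν.real (cyl (ball d n) ζ) else 0 := by
  rw [← sum_filter, ← measureReal_biUnion_finset _ (fun ζ _ => meas_cyl _ ζ)]
  · apply measureReal_congr
    rw [eventuallyEq_set]
    filter_upwards [hν] with f hf
    simp only [Set.mem_iUnion, mem_filter, Ev, Set.mem_ofPred_eq, cyl, mem_ball]
    constructor
    · rintro ⟨rfl, h⟩
      exact ⟨trunc n f, ⟨trunc_mem (hf.lipB n), fun v hv => by rw [trunc, if_pos hv]; exact h v hv⟩,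
        fun v hv => by rw [trunc, if_pos hv]⟩
    · rintro ⟨ζ, ⟨h1, h2⟩, h3⟩
      exact ⟨(h3 [] (by simp)).trans (mem_conf.1 h1).1, fun v hv => by rw [h3 v hv]; exact h2 v hv⟩
  · intro ζ h1 ζ' h2 hne
    rw [Function.onFun, Set.disjoint_left]
    intro f a1 a2
    apply hne
    ext v
    by_cases hv : v.length ≤ n
    · rw [← a1 v (mem_ball.2 hv), a2 v (mem_ball.2 hv)]
    · rw [(mem_conf.1 (mem_filter.1 h1).1).2.2 v (by omega),
        (mem_conf.1 (mem_filter.1 h2).1).2.2 v (by omega)]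

lemma hasSum_root {ν : Measure (List (Fin d) → ℤ)} [IsFiniteMeasure ν] {A : Set (List (Fin d) → ℤ)}
    (hA : MeasurableSet A) : HasSum (fun i => ν.real (A ∩ {f | f [] = i})) (ν.real A) := by
  have h1 : A = ⋃ i, A ∩ {f | f [] = i} := by ext f; simp
  have h2 : ν A = ∑' i, ν (A ∩ {f | f [] = i}) := by
    conv_lhs => rw [h1]
    apply measure_iUnion
    · intro i j hij
      rw [Function.onFun, Set.disjoint_left]
      intro f a b; exact hij (a.2.symm.trans b.2)
    · exact fun i => hA.inter (measurable_pi_apply (X := fun _ : List (Fin d) => ℤ) []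
        (measurableSet_singleton i))
  have := ENNReal.hasSum_toReal (f := fun i => ν (A ∩ {f | f [] = i})) (h2 ▸ measure_ne_top _ _)
  rwa [← ENNReal.tsum_toReal_eq (fun _ => measure_ne_top _ _), ← h2] at this

lemma Mk.ev {x : ℤ → ℝ} {g X : ℝ} {μ : Measure (List (Fin d) → ℤ)} (H : Mk x g X μ) (n : ℕ)
    (E : List (Fin d) → ℤ → Prop) (i : ℤ) :
    μ.real (Ev n E i) = WW n (ind E) x i / (kap d g n * X) := by
  have := H.prob
  rw [meas_Ev H.lip, ← sum_wt, sum_div]
  refine sum_congr rfl fun ζ hζ => ?_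
  rw [wt_ind]
  split_ifs
  · exact H.cy n ζ (mem_conf.1 hζ).2.1
  · simp

lemma count_eq (hd : 0 < d) (c N : ℕ) (U : Finset (List (Fin d))) (η : List (Fin d) → ℤ)
    (hU : ∀ u ∈ U, u.length ≤ N) : ((finLip d N (Set.Icc 0 c) ∩ cyl U η).ncard : ℝ) =
      ∑' i, WW N (ind fun v j => v ∈ U → j = η v) ((Set.Icc (0 : ℤ) c).indicator 1) i := by
  classical
  set P : (List (Fin d) → ℤ) → Prop := fun f => (∀ v : List (Fin d), v.length ≤ N → v ∈ U → f v = η v) ∧
    ∀ v : List (Fin d), v.length = N → f v ∈ Set.Icc (0 : ℤ) c with hP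
  have hw : ∀ i, WW N (ind fun v j => v ∈ U → j = η v) ((Set.Icc (0 : ℤ) c).indicator 1) i =
      ∑ f ∈ conf d N i, if P f then 1 else 0 := by
    intro i
    rw [← sum_wt]
    refine sum_congr rfl fun f _ => ?_
    rw [wt_ind, wt_leaf]
    by_cases h1 : ∀ v : List (Fin d), v.length ≤ N → v ∈ U → f v = η v
    · by_cases h2 : ∀ v : List (Fin d), v.length = N → f v ∈ Set.Icc (0 : ℤ) c
      · rw [if_pos h1, if_pos h2, if_pos ⟨h1, h2⟩]
      · rw [if_pos h1, if_neg h2, if_neg fun h => h2 h.2]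
    · rw [if_neg h1, if_neg fun h => h1 h.1]
  have hb : ∀ i, ∀ f ∈ conf d N i, P f → i ∈ Icc (-N : ℤ) (c + N) := by
    intro i f hf hPf
    obtain ⟨rfl, h2, -⟩ := mem_conf.1 hf
    have h3 := abs_le.1 (root_bound hd N f h2)
    have h4 := hPf.2 (List.replicate N ⟨0, hd⟩) (by simp)
    rw [Set.mem_Icc] at h4
    rw [mem_Icc]; omega
  have hs : finLip d N (Set.Icc 0 c) ∩ cyl U η =
      ↑(((Icc (-N : ℤ) (c + N)).biUnion (conf d N)).filter P) := by
    ext f
    simp only [Set.mem_inter_iff, coe_filter, mem_biUnion, Set.mem_ofPred_eq, finLip, cyl]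
    constructor
    · rintro ⟨⟨h1, h2, h3⟩, h4⟩
      have hf : f ∈ conf d N (f []) := mem_conf.2 ⟨rfl, h1, h3⟩
      have hPf : P f := ⟨fun v _ hv => h4 v hv, h2⟩
      exact ⟨⟨_, hb _ f hf hPf, hf⟩, hPf⟩
    · rintro ⟨⟨i, -, hf⟩, h1, h2⟩
      obtain ⟨-, h3, h4⟩ := mem_conf.1 hf
      exact ⟨⟨h3, h2, h4⟩, fun u hu => h1 u (hU u hu) hu⟩
  rw [hs, Set.ncard_coe_finset, card_filter, tsum_eq_sum (s := Icc (-N : ℤ) (c + N))]
  · push_cast
    rw [sum_biUnion fun i _ j _ hij => conf_disj hij]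
    exact sum_congr rfl fun i _ => (hw i).symm
  · intro i hi
    rw [hw]
    exact sum_eq_zero fun f hf => if_neg fun h => hi (hb i f hf h)

variable {c : ℕ}

noncomputable def Zn (d c M : ℕ) : ℤ → ℝ :=
  WW M (1 : List (Fin d) → ℤ → ℝ) ((Set.Icc (0 : ℤ) c).indicator 1)

lemma idx_zero (hc : c ≤ 1) : idx c 0 = 0 := by simpa using idx_neg hc 0

lemma WW_one_succ (n : ℕ) (b : ℤ → ℝ) (i : ℤ) : WW (n + 1) (1 : List (Fin d) → ℤ → ℝ) b i =
    YY (WW n (1 : List (Fin d) → ℤ → ℝ) b) i ^ d := by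
  have e2 : ∀ a : Fin d, sub (1 : List (Fin d) → ℤ → ℝ) a = 1 := fun a => rfl
  simp [WW, e2, YY]

lemma Zn_eq (hc : c ≤ 1) (hd : 2 ≤ d) (M : ℕ) :
    0 < Zn d c M 0 ∧ ∀ i, Zn d c M i = Zn d c M 0 * xz c (orb c d M) i := by
  induction M with
  | zero =>
    have h0 : Zn d c 0 0 = 1 := by simp [Zn, WW]
    refine ⟨by rw [h0]; norm_num, fun i => ?_⟩
    rw [h0]
    simp only [Zn, WW, xz, orb, Set.indicator, Set.mem_Icc, Pi.one_apply, one_mul, idx]
    split_ifs <;> first | rfl | omega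
  | succ M ih =>
    have I := inv_orb hc hd M
    have e : ∀ i, Zn d c (M + 1) i = (Zn d c M 0 * yy c (orb c d M) (idx c i)) ^ d := by
      intro i
      rw [← YY_xz hc I.h0]
      refine (WW_one_succ M _ i).trans ?_
      congr 1
      change YY (Zn d c M) i = _
      simp only [YY]
      rw [ih.2 (i - 1), ih.2 i, ih.2 (i + 1)]; ring
    have hy := yy_zero_ge hc I
    have h0 := ih.1
    refine ⟨by rw [e, idx_zero hc]; positivity, fun i => ?_⟩
    rw [e, e, idx_zero hc]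
    simp only [xz, orb, Phi]
    rw [← mul_pow]; congr 1; field_simp

lemma WW_fix {x : ℤ → ℝ} {g : ℝ} (hg : ∀ i, YY x i ^ d = g * x i) (n : ℕ) :
    ∀ i, WW n (1 : List (Fin d) → ℤ → ℝ) x i = kap d g n * x i := by
  induction n with
  | zero => simp [WW, kap]
  | succ n ih =>
    intro i
    rw [WW_one_succ, kap, mul_assoc, ← hg, ← mul_pow]
    congr 1; simp only [YY, ih]; ring

lemma ind_nn (E : List (Fin d) → ℤ → Prop) (v j) : 0 ≤ ind E v j := by
  unfold ind; split_ifs <;> norm_num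

lemma ind_le (E : List (Fin d) → ℤ → Prop) (v j) : ind E v j ≤ 1 := by
  unfold ind; split_ifs <;> norm_num

theorem Mk.limit (hc : c ≤ 1) (hd : 2 ≤ d) {h : ℕ → ℝ} (F : IsFix c d h) {g X : ℝ}
    (hg : ∀ i, YY (xz c h) i ^ d = g * xz c h i) (hg0 : 0 < g) (hX : HasSum (xz c h) X)
    {μ : Measure (List (Fin d) → ℤ)} (H : Mk (xz c h) g X μ) :
    IsLocalLimit d (Set.Icc 0 c) μ := by
  refine ⟨H.prob, fun U η => ?_⟩
  have := H.prob
  obtain ⟨k, hk⟩ := exists_ball U
  have hX0 : 0 < X := (F.pos hc _).trans_le (le_hasSum hX 0 fun j _ => (F.pos hc _).le)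
  have hκ := kap_pos (d := d) hg0 k
  have hb : Summable fun i => 2 * (1 / 2 : ℝ) ^ idx c i :=
    summable_idx hc (g := fun n => 2 * (1 / 2 : ℝ) ^ n) (summable_geometric_two.mul_left 2)
  have hx : ∀ i, Tendsto (fun M => xz c (orb c d M) i) atTop (𝓝 (xz c h i)) := fun i => F.lim _
  have hind : ∀ i, 0 ≤ (Set.Icc (0 : ℤ) c).indicator (1 : ℤ → ℝ) i := fun i =>
    Set.indicator_nonneg (fun _ _ => zero_le_one) i
  have key : ∀ e : List (Fin d) → ℤ → ℝ, (∀ v j, 0 ≤ e v j) → (∀ v j, e v j ≤ 1) →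
      (∀ v : List (Fin d), k < v.length → e v = 1) →
      Tendsto (fun M => ∑' i, WW (M + k) e ((Set.Icc (0 : ℤ) c).indicator 1) i / Zn d c (M + k) 0)
        atTop (𝓝 (∑' i, WW k e (xz c h) i / kap d g k)) := by
    intro e e0 e1 e2
    refine tendsto_tsum_of_dominated_convergence hb (fun i => ?_) (Eventually.of_forall fun M i => ?_)
    · have a1 : ∀ M, Zn d c M = fun j => Zn d c M 0 * xz c (orb c d M) j :=
        fun M => funext (Zn_eq hc hd M).2
      have a2 : ∀ M, WW (M + k) e ((Set.Icc (0 : ℤ) c).indicator 1) i / Zn d c (M + k) 0 =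
          WW k e (xz c (orb c d M)) i / WW k (1 : List (Fin d) → ℤ → ℝ) (xz c (orb c d M)) 0 := by
        intro M
        have := (Zn_eq hc hd M).1
        rw [Zn, WW_semi _ M k e e2, WW_semi _ M k 1 fun _ _ => rfl]
        change WW k e (Zn d c M) i / WW k 1 (Zn d c M) 0 = _
        rw [a1 M, WW_smul, WW_smul, mul_div_mul_left _ _ (by positivity)]
      simp only [a2]
      have a3 : kap d g k = WW k (1 : List (Fin d) → ℤ → ℝ) (xz c h) 0 := by
        rw [WW_fix hg, xz, idx_zero hc, F.inv.h0, mul_one]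
      rw [a3]
      exact (WW_tendsto hx k e i).div (WW_tendsto hx k 1 0) (a3 ▸ hκ.ne')
    · have z0 := (Zn_eq hc hd (M + k)).1
      rw [Real.norm_of_nonneg (div_nonneg (WW_nn hind _ e e0 i) z0.le), div_le_iff₀ z0]
      refine (WW_le hind _ e e0 e1 i).trans ?_
      change Zn d c (M + k) i ≤ _
      rw [(Zn_eq hc hd (M + k)).2 i, mul_comm]
      exact mul_le_mul_of_nonneg_right ((inv_orb hc hd _).geo _) z0.le
  set E : List (Fin d) → ℤ → Prop := fun v j => v ∈ U → j = η v with hE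
  have k1 := key (ind E) (ind_nn E) (ind_le E) fun v hv => funext fun j =>
    if_pos fun hu => absurd (hk v hu) (by omega)
  have k2 := key 1 (fun _ _ => zero_le_one) (fun _ _ => le_rfl) fun _ _ => rfl
  have t2 : ∑' i, WW k (1 : List (Fin d) → ℤ → ℝ) (xz c h) i / kap d g k = X := by
    simp only [WW_fix hg, mul_div_cancel_left₀ _ hκ.ne']; exact hX.tsum_eq
  have t1 : (∑' i, WW k (ind E) (xz c h) i / kap d g k) / X = μ.real (cyl U η) := by
    rw [← (hasSum_root (meas_cyl U η)).tsum_eq, ← tsum_div_const]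
    refine tsum_congr fun i => ?_
    rw [div_div, ← H.ev]
    congr 1; ext f
    simp only [Ev, cyl, hE, Set.mem_inter_iff, Set.mem_ofPred_eq]
    exact ⟨fun h => ⟨fun u hu => h.2 u (hk u hu) hu, h.1⟩, fun h => ⟨h.2, fun u _ hu => h.1 u hu⟩⟩
  rw [t2] at k2
  rw [← tendsto_add_atTop_iff_nat k, ← t1]
  refine (k1.div k2 hX0.ne').congr fun M => ?_
  have z0 := (Zn_eq hc hd (M + k)).1
  have c1 := count_eq (by omega) c (M + k) U η fun u hu => (hk u hu).trans (by omega)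
  have c2 := count_eq (d := d) (by omega) c (M + k) ∅ η (by simp)
  have e1 : cyl (∅ : Finset (List (Fin d))) η = Set.univ := by ext; simp [cyl]
  have e2 : (ind fun (v : List (Fin d)) j => v ∈ (∅ : Finset _) → j = η v) = 1 := by
    ext v j; simp [ind]
  rw [e1, Set.inter_univ, e2] at c2
  simp only [Pi.div_apply]
  rw [c1, c2, tsum_div_const, tsum_div_const, div_div_div_cancel_right₀ z0.ne']

lemma limit_unique {S : Set ℤ} {μ ν : Measure (List (Fin d) → ℤ)} (h1 : IsLocalLimit d S μ)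
    (h2 : IsLocalLimit d S ν) : μ = ν := by
  have := h1.1; have := h2.1
  refine ext_ball 0 fun m _ ζ => ?_
  exact (measureReal_eq_measureReal_iff (measure_ne_top _ _) (measure_ne_top _ _)).1
    (tendsto_nhds_unique (h1.2 _ ζ) (h2.2 _ ζ))

end Pool.Agent.P.MP_23c5a6_pr
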