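import Pool.Agent.P.MP_23c5a6_pr.Tree

namespace Pool.Agent.P.MP_23c5a6_pr

open Finset Filter Topology MeasureTheory

variable {d : ℕ}

lemma meas_cyl (U : Finset (List (Fin d))) (η : List (Fin d) → ℤ) : MeasurableSet (cyl U η) := by
  have : cyl U η = ⋂ u ∈ U, (fun f : List (Fin d) → ℤ => f u) ⁻¹' {η u} := by
    ext f; simp [cyl]
  rw [this]
  exact Finset.measurableSet_biInter _ fun u _ => measurable_pi_apply u (measurableSet_singleton _)

lemma meas_Lip : MeasurableSet {f : List (Fin d) → ℤ | Lip f} := by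
  have : {f : List (Fin d) → ℤ | Lip f} = ⋂ v, ⋂ a, (fun f : List (Fin d) → ℤ =>
      (f (v ++ [a]), f v)) ⁻¹' {p : ℤ × ℤ | |p.1 - p.2| ≤ 1} := by
    ext f; simp [Lip]
  rw [this]
  exact MeasurableSet.iInter fun v => MeasurableSet.iInter fun a =>
    ((measurable_pi_apply _).prodMk (measurable_pi_apply _)) (MeasurableSet.of_discrete)

lemma ext_ball (n : ℕ) {μ ν : Measure (List (Fin d) → ℤ)} [IsFiniteMeasure μ]
    (h : ∀ m, n ≤ m → ∀ ζ, μ (cyl (ball d m) ζ) = ν (cyl (ball d m) ζ)) : μ = ν := by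
  have key : ∀ m, n ≤ m → μ.map (ball d m).restrict = ν.map (ball d m).restrict := by
    intro m hm
    apply Measure.ext_of_singleton
    intro a
    rw [Measure.map_apply (Finset.measurable_restrict _) (measurableSet_singleton _),
      Measure.map_apply (Finset.measurable_restrict _) (measurableSet_singleton _)]
    have : (ball d m).restrict (π := fun _ => ℤ) ⁻¹' {a} =
        cyl (ball d m) (fun v => if h : v ∈ ball d m then a ⟨v, h⟩ else 0) := by
      ext f
      simp only [Set.mem_preimage, Set.mem_singleton_iff, cyl, Set.mem_ofPred_eq]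
      constructor
      · rintro rfl u hu; rw [dif_pos hu]; rfl
      · intro hf; ext u; have := hf u.1 u.2; rw [dif_pos u.2] at this; exact this
    rw [this]; exact h m hm _
  have key2 : ∀ m, n ≤ m → ∀ S, MeasurableSet S →
      μ ((ball d m).restrict ⁻¹' S) = ν ((ball d m).restrict ⁻¹' S) := by
    intro m hm S hS
    rw [← Measure.map_apply (Finset.measurable_restrict _) hS, key m hm,
      Measure.map_apply (Finset.measurable_restrict _) hS]
  refine ext_of_generate_finite _ generateFrom_measurableCylinders.symm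
    isPiSystem_measurableCylinders (fun t ht => ?_) ?_
  · obtain ⟨s, S, hS, rfl⟩ := (mem_measurableCylinders t).1 ht
    obtain ⟨k, hk⟩ := exists_ball s
    have hs : s ⊆ ball d (max n k) := fun u hu => mem_ball.2 ((hk u hu).trans (le_max_right _ _))
    exact key2 (max n k) (le_max_left _ _) (Finset.restrict₂ (π := fun _ => ℤ) hs ⁻¹' S)
      (Finset.measurable_restrict₂ hs hS)
  · exact key2 n le_rfl Set.univ MeasurableSet.univ

lemma exists_law {p : ℤ → ℝ} (h0 : ∀ j, 0 ≤ p j) (h1 : HasSum p 1) :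
    ∃ μ : Measure ℤ, IsProbabilityMeasure μ ∧ ∀ j, μ {j} = ENNReal.ofReal (p j) := by
  have : HasSum (fun j => ENNReal.ofReal (p j)) 1 := by
    rw [ENNReal.summable.hasSum_iff, ← ENNReal.ofReal_tsum_of_nonneg h0 h1.summable, h1.tsum_eq,
      ENNReal.ofReal_one]
  refine ⟨PMF.toMeasure ⟨_, this⟩, inferInstance, fun j => ?_⟩
  rw [PMF.toMeasure_apply_singleton _ _ (measurableSet_singleton _)]; rfl

def GG : ℤ → (List (Fin d) → ℤ → ℤ) → List (Fin d) → ℤ
  | i, _, [] => i
  | i, U, a :: w => GG (U [a] i) (sub U a) w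

lemma GG_concat : ∀ (v : List (Fin d)) (a : Fin d) (i : ℤ) (U : List (Fin d) → ℤ → ℤ),
    GG i U (v ++ [a]) = U (v ++ [a]) (GG i U v)
  | [], _, _, _ => rfl
  | b :: w, a, i, U => GG_concat w a (U [b] i) (sub U b)

def FF (ω : List (Fin d) × ℤ → ℤ) : List (Fin d) → ℤ := GG (ω ([], 0)) fun v i => ω (v, i)

lemma FF_concat (ω : List (Fin d) × ℤ → ℤ) (v : List (Fin d)) (a : Fin d) :
    FF ω (v ++ [a]) = ω (v ++ [a], FF ω v) := GG_concat v a _ _

lemma measurable_FF : Measurable (FF (d := d)) := by
  refine measurable_pi_iff.2 fun v => ?_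
  induction v using List.reverseRecOn with
  | nil => exact measurable_pi_apply _
  | append_singleton v a ih =>
    simp only [FF_concat]
    have : Measurable fun p : (List (Fin d) × ℤ → ℤ) × ℤ => p.1 (v ++ [a], p.2) :=
      measurable_from_prod_countable_left fun j => measurable_pi_apply (v ++ [a], j)
    exact this.comp (measurable_id.prodMk ih)

def par (ζ : List (Fin d) → ℤ) (v : List (Fin d)) : ℤ := if v = [] then 0 else ζ v.dropLast

lemma FF_mem {n : ℕ} {ζ : List (Fin d) → ℤ} {ω : List (Fin d) × ℤ → ℤ} :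
    FF ω ∈ cyl (ball d n) ζ ↔ ∀ v ∈ ball d n, ω (v, par ζ v) = ζ v := by
  simp only [cyl, Set.mem_ofPred_eq, mem_ball]
  constructor
  · intro h v hv
    induction v using List.reverseRecOn with
    | nil => exact h [] hv
    | append_singleton v a _ =>
      have := h v (by simp at hv; omega)
      rw [← h _ hv, FF_concat, this]; simp [par]
  · intro h v hv
    induction v using List.reverseRecOn with
    | nil => exact h [] hv
    | append_singleton v a ih =>
      rw [FF_concat, ih (by simp at hv; omega), ← h _ hv]; simp [par]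

noncomputable def tp (x : ℤ → ℝ) (i j : ℤ) : ℝ := if |j - i| ≤ 1 then x j / YY x i else 0

lemma hasSum_tp {x : ℤ → ℝ} (hx : ∀ i, 0 < x i) (i : ℤ) : HasSum (tp x i) 1 := by
  have := hasSum_sum_of_ne_finset_zero (L := SummationFilter.unconditional _) (f := tp x i)
    (s := {i - 1, i, i + 1}) (fun j hj => if_neg fun h => hj (by
      simp only [mem_insert, mem_singleton]; rw [abs_le] at h; omega))
  rw [sum_insert (by simp; omega), sum_insert (by simp), sum_singleton] at this
  have h := YY_pos hx i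
  convert this using 1
  simp [tp]; field_simp; unfold YY; ring

noncomputable def kap (d : ℕ) (g : ℝ) : ℕ → ℝ
  | 0 => 1
  | n + 1 => kap d g n ^ d * g

lemma kap_pos {g : ℝ} (hg : 0 < g) : ∀ n, 0 < kap d g n
  | 0 => one_pos
  | n + 1 => mul_pos (pow_pos (kap_pos hg n) _) hg

noncomputable def TT (x : ℤ → ℝ) (ζ : List (Fin d) → ℤ) (v : List (Fin d)) : ℝ :=
  if v = [] then 1 else tp x (ζ v.dropLast) (ζ v)

lemma prod_TT {x : ℤ → ℝ} (hx : ∀ i, 0 < x i) {g : ℝ} (hg : ∀ i, YY x i ^ d = g * x i) :
    ∀ (n : ℕ) (ζ : List (Fin d) → ℤ), LipB n ζ →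
      x (ζ []) * kap d g n * ∏ v ∈ ball d n, TT x ζ v = wt n 1 x ζ
  | 0, ζ, _ => by simp [ball, TT, kap, wt]
  | n + 1, ζ, h => by
    have e2 : ∀ a : Fin d, sub (1 : List (Fin d) → ℤ → ℝ) a = 1 := fun a => rfl
    have e1 : ∀ a w, TT x ζ (a :: w) =
        (if w = [] then x (ζ [a]) / YY x (ζ []) else 1) * TT x (sub ζ a) w := by
      intro a w
      cases w with
      | nil => simp [TT, tp, (lipB_succ.1 h a).1]
      | cons b w => simp [TT, sub]
    have hY := YY_pos hx (ζ [])
    have h0 : ([] : List (Fin d)) ∈ ball d n := mem_ball.2 (by simp)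
    rw [prod_ball, wt]
    simp only [e1, e2, prod_mul_distrib, prod_ite_eq', h0, if_true, Pi.one_apply, one_mul,
      ← fun a => prod_TT hx hg n _ (lipB_succ.1 h a).2, prod_div_distrib, prod_const, card_univ,
      Fintype.card_fin, hg, kap]
    have hg0 : g ≠ 0 := by
      intro h0; have := hg 0; rw [h0, zero_mul] at this; exact (pow_pos (YY_pos hx 0) d).ne' this
    have := (hx (ζ [])).ne'
    simp only [TT, if_true, sub]
    field_simp

structure Mk (x : ℤ → ℝ) (g X : ℝ) (μ : Measure (List (Fin d) → ℤ)) : Prop where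
  prob : IsProbabilityMeasure μ
  lip : ∀ᵐ f ∂μ, Lip f
  cy : ∀ n ζ, LipB n ζ → μ.real (cyl (ball d n) ζ) = wt n 1 x ζ / (kap d g n * X)

theorem exists_Mk {x : ℤ → ℝ} (hx : ∀ i, 0 < x i) {g X : ℝ} (hg : ∀ i, YY x i ^ d = g * x i)
    (hX : HasSum x X) : ∃ μ : Measure (List (Fin d) → ℤ), Mk x g X μ := by
  have hX0 : 0 < X := (hx 0).trans_le (le_hasSum hX 0 fun j _ => (hx j).le)
  have hg0 : 0 < g := by
    have h1 := pow_pos (YY_pos hx 0) d
    rw [hg 0] at h1; exact (mul_pos_iff_of_pos_right (hx 0)).1 h1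
  set p : List (Fin d) × ℤ → ℤ → ℝ := fun q j => if q.1 = [] then x j / X else tp x q.2 j with hp
  have hp0 : ∀ q j, 0 ≤ p q j := by
    intro q j; have := hx j; have := YY_pos hx q.2
    simp only [hp, tp]; split_ifs <;> positivity
  have hp1 : ∀ q, HasSum (p q) 1 := by
    intro q
    by_cases h : q.1 = []
    · simp only [hp, h, if_true]; rw [← div_self hX0.ne']; exact hX.div_const X
    · simp only [hp, h, if_false]; exact hasSum_tp hx _
  choose law hl1 hl2 using fun q => exists_law (hp0 q) (hp1 q)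
  refine ⟨(Measure.infinitePi law).map FF, Measure.isProbabilityMeasure_map
    measurable_FF.aemeasurable, ?_, fun n ζ hζ => ?_⟩
  · rw [ae_map_iff measurable_FF.aemeasurable meas_Lip]
    have : ∀ᵐ ω ∂Measure.infinitePi law, ∀ q : List (Fin d) × ℤ, q.1 ≠ [] → |ω q - q.2| ≤ 1 := by
      rw [ae_all_iff]
      intro q
      by_cases h : q.1 = []
      · simp [h]
      · simp only [ne_eq, h, not_false_eq_true, forall_const]
        apply (measurePreserving_eval_infinitePi law q).quasiMeasurePreserving.ae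
          (p := fun j => |j - q.2| ≤ 1)
        rw [ae_iff_of_countable]
        intro j hj
        by_contra hh
        apply hj
        rw [hl2]; simp [hp, h, tp, hh]
    filter_upwards [this] with ω hω v a
    rw [FF_concat]; exact hω (v ++ [a], FF ω v) (by simp)
  · rw [Measure.real, Measure.map_apply measurable_FF (meas_cyl _ _)]
    have inj : Set.InjOn (fun v => (v, par ζ v)) (ball d n : Set (List (Fin d))) :=
      fun _ _ _ _ h => (Prod.mk.inj h).1
    have : FF ⁻¹' cyl (ball d n) ζ = Set.pi (((ball d n).image fun v => (v, par ζ v) : Finset _) : Set _)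
        fun q => {ζ q.1} := by
      ext ω; simp [FF_mem]
    rw [this, Measure.infinitePi_pi _ fun _ _ => measurableSet_singleton _, prod_image inj]
    simp only [hl2]
    rw [← ENNReal.ofReal_prod_of_nonneg fun _ _ => hp0 _ _,
      ENNReal.toReal_ofReal (prod_nonneg fun _ _ => hp0 _ _), ← prod_TT hx hg n ζ hζ]
    have e : ∀ v, p (v, par ζ v) (ζ v) = (if v = [] then x (ζ []) / X else 1) * TT x ζ v := by
      intro v
      by_cases h : v = [] <;> simp [hp, h, TT, par]
    have h0 : ([] : List (Fin d)) ∈ ball d n := mem_ball.2 (by simp)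
    simp only [e, prod_mul_distrib, prod_ite_eq', h0, if_true]
    have := kap_pos (d := d) hg0 n
    field_simp

end Pool.Agent.P.MP_23c5a6_pr
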