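import Pool.Agent.P.MP_23c5a6_pr.Conv

namespace Pool.Agent.P.MP_23c5a6_pr

open Finset

lemma cs_plain {F G : Finset ℕ} (hG : G ⊆ F) {q P v : ℕ → ℝ} (hq : ∀ i, 0 < q i) :
    (∑ i ∈ G, P i * v i) ^ 2 ≤ (∑ i ∈ G, P i ^ 2 / q i) * ∑ i ∈ F, q i * v i ^ 2 := by
  have h1 : (∑ i ∈ G, P i * v i) ^ 2 ≤ (∑ i ∈ G, P i ^ 2 / q i) * ∑ i ∈ G, q i * v i ^ 2 := by
    apply sum_sq_le_sum_mul_sum_of_sq_le_mul
    · intro i _; have := hq i; positivity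
    · intro i _; have := hq i; positivity
    · intro i _; have := hq i; apply le_of_eq; field_simp
  refine h1.trans (mul_le_mul_of_nonneg_left ?_ ?_)
  · apply sum_le_sum_of_subset_of_nonneg hG
    intro i _ _; have := hq i; positivity
  · apply sum_nonneg; intro i _; have := hq i; positivity

lemma cs_cent {F G : Finset ℕ} (hG : G ⊆ F) {q P v : ℕ → ℝ} (hq : ∀ i, 0 < q i)
    (hQ : ∑ i ∈ F, q i ≤ 1) (hP : ∑ i ∈ G, P i = 1) {m : ℝ} (hm : m = ∑ i ∈ F, q i * v i) :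
    (∑ i ∈ G, P i * v i - m) ^ 2 ≤
      (∑ i ∈ G, P i ^ 2 / q i - 1) * (∑ i ∈ F, q i * v i ^ 2 - m ^ 2) := by
  classical
  set f : ℕ → ℝ := fun i => if i ∈ G then P i / q i else 0 with hf
  have key : ∀ g : ℕ → ℝ, ∑ i ∈ F, q i * f i * g i = ∑ i ∈ G, P i * g i := by
    intro g
    rw [← sum_subset hG (f := fun i => q i * f i * g i) (fun i _ hi => by simp [hf, hi])]
    refine sum_congr rfl fun i hi => ?_
    have := hq i
    simp only [hf, hi, if_true]; field_simp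
  have k1 := key v
  have k2 := key (fun _ => 1)
  have k3 : ∑ i ∈ F, q i * f i * f i = ∑ i ∈ G, P i ^ 2 / q i := by
    rw [key f]; refine sum_congr rfl fun i hi => ?_
    simp only [hf, hi, if_true]; ring
  simp only [mul_one] at k2
  have hdis : ∀ l : ℝ, 0 ≤ (∑ i ∈ G, P i ^ 2 / q i - 1) * (l * l) +
      (-2 * (∑ i ∈ G, P i * v i - m)) * l + (∑ i ∈ F, q i * v i ^ 2 - m ^ 2) := by
    intro l
    have h0 : 0 ≤ ∑ i ∈ F, q i * (v i - (m - l) - l * f i) ^ 2 :=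
      sum_nonneg fun i _ => by have := hq i; positivity
    have h1 : ∑ i ∈ F, q i * (v i - (m - l) - l * f i) ^ 2 =
        ∑ i ∈ F, q i * v i ^ 2 - 2 * (m - l) * ∑ i ∈ F, q i * v i
          - 2 * l * ∑ i ∈ F, q i * f i * v i + (m - l) ^ 2 * ∑ i ∈ F, q i
          + 2 * (m - l) * l * ∑ i ∈ F, q i * f i + l ^ 2 * ∑ i ∈ F, q i * f i * f i := by
      simp only [mul_sum, ← sum_add_distrib, ← sum_sub_distrib]
      exact sum_congr rfl fun i _ => by ring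
    rw [h1, k1, k2, k3, hP, ← hm] at h0
    have h2 := mul_le_mul_of_nonneg_left hQ (sq_nonneg (m - l))
    nlinarith
  have := discrim_le_zero hdis
  unfold discrim at this
  nlinarith

lemma pow_le_sq_mul {t u : ℝ} (h : |t| ≤ u) {k : ℕ} (hk : 2 ≤ k) : t ^ k ≤ t ^ 2 * u ^ (k - 2) := by
  obtain ⟨j, rfl⟩ : ∃ j, k = 2 + j := ⟨k - 2, by omega⟩
  rw [pow_add, Nat.add_sub_cancel_left]
  refine mul_le_mul_of_nonneg_left ((le_abs_self _).trans ?_) (sq_nonneg _)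
  rw [abs_pow]; gcongr

structure PD where
  p : ℝ
  E : ℝ
  O : ℝ
  k : ℝ
  G : ℝ

structure PD.Ok (D : PD) : Prop where
  E0 : 0 ≤ D.E
  O0 : 0 ≤ D.O
  k0 : 0 ≤ D.k
  kk : D.E ^ 2 + D.O ^ 2 ≤ D.k ^ 2
  GE : D.E ^ 2 ≤ D.G
  GO : D.O ^ 2 ≤ D.G

def PD.m2 (D : PD) (α β : ℝ) : ℝ := 2 * D.p * (D.E ^ 2 * α ^ 2 + D.O ^ 2 * β ^ 2)
def PD.m3 (D : PD) (α β : ℝ) : ℝ := D.p * (2 * D.E ^ 3 * α ^ 3 + 6 * D.E * D.O ^ 2 * (α * β ^ 2))
def PD.m4 (D : PD) (α β : ℝ) : ℝ :=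
  2 * D.p * (D.E ^ 4 * α ^ 4 + 6 * D.E ^ 2 * D.O ^ 2 * (α ^ 2 * β ^ 2) + D.O ^ 4 * β ^ 4)
def PD.mk' (D : PD) (k : ℕ) : ℝ := 2 * D.p * D.G * D.k ^ (k - 2)

lemma PD.bounds {D : PD} (hD : D.Ok) {w t t' α β s : ℝ} (hw : 0 ≤ w) (hp : w ≤ D.p)
    (hα : 0 ≤ α) (hβ : 0 ≤ β) (hs : 0 ≤ s) (hss : s ^ 2 = α ^ 2 + β ^ 2)
    (he : ((t + t') / 2) ^ 2 ≤ D.E ^ 2 * α ^ 2) (ho : ((t - t') / 2) ^ 2 ≤ D.O ^ 2 * β ^ 2) :
    w * (t ^ 2 + t' ^ 2) ≤ D.m2 α β ∧ w * (t ^ 3 + t' ^ 3) ≤ D.m3 α β ∧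
    w * (t ^ 4 + t' ^ 4) ≤ D.m4 α β ∧ ∀ k, 2 ≤ k → w * (t ^ k + t' ^ k) ≤ D.mk' k * s ^ k := by
  obtain ⟨E0, O0, k0, kk, GE, GO⟩ := hD
  set e := (t + t') / 2 with hee
  set o := (t - t') / 2 with hoo
  have ht : t = e + o := by rw [hee, hoo]; ring
  have ht' : t' = e - o := by rw [hee, hoo]; ring
  have he' : |e| ≤ D.E * α := abs_le_of_sq_le_sq' (by rw [mul_pow]; exact he) (by positivity) |>
    abs_le.2
  have ho' : |o| ≤ D.O * β := abs_le_of_sq_le_sq' (by rw [mul_pow]; exact ho) (by positivity) |>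
    abs_le.2
  have hp0 : 0 ≤ D.p := hw.trans hp
  have fin : ∀ {A B : ℝ}, A ≤ B → 0 ≤ B → w * A ≤ D.p * B := fun hAB hB =>
    (mul_le_mul_of_nonneg_left hAB hw).trans (mul_le_mul_of_nonneg_right hp hB)
  have h2 : t ^ 2 + t' ^ 2 ≤ 2 * (D.E ^ 2 * α ^ 2 + D.O ^ 2 * β ^ 2) := by
    rw [ht, ht']; nlinarith
  refine ⟨?_, ?_, ?_, fun k hk => ?_⟩
  · refine (fin h2 (by positivity)).trans (le_of_eq ?_); unfold PD.m2; ring
  · apply fin _ (by positivity)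
    have e1 : t ^ 3 + t' ^ 3 = 2 * e ^ 3 + 6 * (e * o ^ 2) := by rw [ht, ht']; ring
    have e2 : e ^ 3 ≤ (D.E * α) ^ 3 :=
      (le_abs_self _).trans (by rw [abs_pow]; gcongr)
    have e3 : e * o ^ 2 ≤ (D.E * α) * (D.O ^ 2 * β ^ 2) :=
      (mul_le_mul_of_nonneg_right ((le_abs_self _).trans he') (sq_nonneg _)).trans (by gcongr)
    rw [e1]; nlinarith
  · have e1 : t ^ 4 + t' ^ 4 = 2 * ((e ^ 2) ^ 2 + 6 * (e ^ 2 * o ^ 2) + (o ^ 2) ^ 2) := by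
      rw [ht, ht']; ring
    have e2 : t ^ 4 + t' ^ 4 ≤ 2 * ((D.E ^ 2 * α ^ 2) ^ 2 +
        6 * ((D.E ^ 2 * α ^ 2) * (D.O ^ 2 * β ^ 2)) + (D.O ^ 2 * β ^ 2) ^ 2) := by
      rw [e1]; gcongr
    refine (fin e2 (by positivity)).trans (le_of_eq ?_); unfold PD.m4; ring
  · have hu : D.E * α + D.O * β ≤ D.k * s := by
      apply le_of_sq_le_sq _ (by positivity)
      calc (D.E * α + D.O * β) ^ 2 ≤ (D.E ^ 2 + D.O ^ 2) * s ^ 2 := by
            rw [hss]; nlinarith [sq_nonneg (D.E * β - D.O * α)]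
        _ ≤ D.k ^ 2 * s ^ 2 := by gcongr
        _ = _ := by ring
    have a1 : |t| ≤ D.k * s := by rw [ht]; linarith [abs_add_le e o]
    have a2 : |t'| ≤ D.k * s := by rw [ht']; linarith [abs_sub e o]
    have b1 := pow_le_sq_mul a1 hk
    have b2 := pow_le_sq_mul a2 hk
    have hG : 0 ≤ D.G := (sq_nonneg _).trans GE
    have h3 : t ^ 2 + t' ^ 2 ≤ 2 * D.G * s ^ 2 := by
      have := mul_le_mul_of_nonneg_right GE (sq_nonneg α)
      have := mul_le_mul_of_nonneg_right GO (sq_nonneg β)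
      rw [hss]; linarith
    have h4 : t ^ k + t' ^ k ≤ 2 * D.G * s ^ 2 * (D.k * s) ^ (k - 2) := by
      have := mul_le_mul_of_nonneg_right h3 (show 0 ≤ (D.k * s) ^ (k - 2) by positivity)
      linarith
    refine (fin h4 (by positivity)).trans (le_of_eq ?_)
    obtain ⟨j, rfl⟩ : ∃ j, k = 2 + j := ⟨k - 2, by omega⟩
    unfold PD.mk'; rw [Nat.add_sub_cancel_left]; ring

noncomputable def om (c : ℕ) : ℕ → ℝ
  | 0 => (1 + c) / 2
  | _ + 1 => 1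

noncomputable def qq (c : ℕ) (h : ℕ → ℝ) (Z : ℝ) (n : ℕ) : ℝ := 2 * om c n * (h n * yy c h n) / Z

noncomputable def PA (c : ℕ) (h a b : ℕ → ℝ) : ℕ → ℝ
  | 0 => (c * b 0 + (1 - c) * h 1 * b 1 + a 0 + h 1 * a 1) / yy c h 0
  | n + 1 => (h n * a n + h (n + 1) * a (n + 1) + h (n + 2) * a (n + 2)) / yy c h (n + 1)

structure TailOk (c d : ℕ) (h : ℕ → ℝ) (Z θ θ' C τ : ℝ) : Prop where
  t0 : 0 < θ
  t0' : 0 < θ'
  tau0 : 0 < τ
  ex : ∀ n, 2 ≤ n → ∃ X K, τ ≤ X ∧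
    Z / yy c h (n + 1) ^ 2 * (h n / yy c h n + h (n + 1) / yy c h (n + 1) +
      h (n + 2) / yy c h (n + 2)) ≤ X ^ 2 ∧
    Z / yy c h (n + 1) ^ 2 * (h n / yy c h n + h (n + 1) / yy c h (n + 1) / θ +
      h (n + 2) / yy c h (n + 2) / θ') ≤ K ∧
    qq c h Z (n + 1) / 2 * X ^ (2 * d - 2) * K * (1 + θ + θ') ≤ C

lemma three_cs {p1 p2 p3 w1 w2 w3 r1 r2 r3 : ℝ} (h1 : 0 < r1) (h2 : 0 < r2) (h3 : 0 < r3) :
    (p1 * w1 + p2 * w2 + p3 * w3) ^ 2 ≤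
      (p1 ^ 2 / r1 + p2 ^ 2 / r2 + p3 ^ 2 / r3) * (r1 * w1 ^ 2 + r2 * w2 ^ 2 + r3 * w3 ^ 2) := by
  have := cs_plain (F := range 3) (G := range 3) subset_rfl
    (q := fun i => if i = 0 then r1 else if i = 1 then r2 else r3)
    (P := fun i => if i = 0 then p1 else if i = 1 then p2 else p3)
    (v := fun i => if i = 0 then w1 else if i = 1 then w2 else w3)
    (fun i => by split_ifs <;> assumption)
  simpa [sum_range_succ] using this

lemma shift_le {g : ℕ → ℝ} (hg : ∀ n, 0 ≤ g n) (L r : ℕ) (hr : r ≤ 4) :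
    ∑ j ∈ range L, g (r + j) ≤ ∑ k ∈ range (L + 4), g k := by
  have h1 : ∑ j ∈ range L, g (r + j) ≤ ∑ k ∈ range (r + L), g k := by
    rw [sum_range_add]
    have : 0 ≤ ∑ x ∈ range r, g x := sum_nonneg fun i _ => hg i
    linarith
  exact h1.trans (sum_le_sum_of_subset_of_nonneg (range_mono (by omega)) fun i _ _ => hg i)

variable {c d : ℕ} {h : ℕ → ℝ} {Z : ℝ}

lemma qq_pos (hp : ∀ n, 0 < h n) (hy : ∀ n, 0 < yy c h n) (hZ : 0 < Z) (n : ℕ) :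
    0 < qq c h Z n := by
  have := hp n; have := hy n
  have : 0 < om c n := by cases n <;> simp only [om] <;> positivity
  unfold qq; positivity

lemma tail_one {θ θ' C τ : ℝ} (T : TailOk c d h Z θ θ' C τ) (hp : ∀ n, 0 < h n)
    (hy : ∀ n, 0 < yy c h n) (hZ : 0 < Z) (a b : ℕ → ℝ) (m s : ℝ) (hs : 0 ≤ s) (n : ℕ) (hn : 2 ≤ n)
    (hE : qq c h Z n / 2 * (a n - m) ^ 2 + qq c h Z (n + 1) / 2 * (a (n + 1) - m) ^ 2 +
      qq c h Z (n + 2) / 2 * (a (n + 2) - m) ^ 2 ≤ s ^ 2) {k : ℕ} (hk : 2 ≤ k) (hkd : k ≤ 2 * d) :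
    qq c h Z (n + 1) / 2 * (PA c h a b (n + 1) - m) ^ k ≤
      C / τ ^ (2 * d - k) / (1 + θ + θ') * s ^ (k - 2) *
        (qq c h Z n / 2 * (a n - m) ^ 2 + θ * (qq c h Z (n + 1) / 2 * (a (n + 1) - m) ^ 2) +
          θ' * (qq c h Z (n + 2) / 2 * (a (n + 2) - m) ^ 2)) := by
  obtain ⟨X, K, hX, h1, h2, h3⟩ := T.ex n hn
  have t0 := T.t0; have t0' := T.t0'; have tau0 := T.tau0
  obtain ⟨n, rfl⟩ : ∃ j, n = j + 1 := ⟨n - 1, by omega⟩
  have q1 := qq_pos hp hy hZ (n + 1)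
  have q2 := qq_pos hp hy hZ (n + 1 + 1)
  have q3 := qq_pos hp hy hZ (n + 1 + 2)
  have y1 := hy (n + 1); have y2 := hy (n + 1 + 1); have y3 := hy (n + 1 + 2)
  have p1 := hp (n + 1); have p2 := hp (n + 1 + 1); have p3 := hp (n + 1 + 2)
  set t := PA c h a b (n + 1 + 1) - m with ht
  have et : t = h (n + 1) / yy c h (n + 1 + 1) * (a (n + 1) - m) +
      h (n + 1 + 1) / yy c h (n + 1 + 1) * (a (n + 1 + 1) - m) +
      h (n + 1 + 2) / yy c h (n + 1 + 1) * (a (n + 1 + 2) - m) := by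
    rw [ht]; simp only [PA]; field_simp; simp only [yy]; ring
  have c1 := three_cs (p1 := h (n + 1) / yy c h (n + 1 + 1))
    (p2 := h (n + 1 + 1) / yy c h (n + 1 + 1)) (p3 := h (n + 1 + 2) / yy c h (n + 1 + 1))
    (w1 := a (n + 1) - m) (w2 := a (n + 1 + 1) - m) (w3 := a (n + 1 + 2) - m)
    (half_pos q1) (half_pos q2) (half_pos q3)
  have c2 := three_cs (p1 := h (n + 1) / yy c h (n + 1 + 1))
    (p2 := h (n + 1 + 1) / yy c h (n + 1 + 1)) (p3 := h (n + 1 + 2) / yy c h (n + 1 + 1))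
    (w1 := a (n + 1) - m) (w2 := a (n + 1 + 1) - m) (w3 := a (n + 1 + 2) - m)
    (half_pos q1) (mul_pos t0 (half_pos q2)) (mul_pos t0' (half_pos q3))
  rw [← et] at c1 c2
  have e1 : (h (n + 1) / yy c h (n + 1 + 1)) ^ 2 / (qq c h Z (n + 1) / 2) +
      (h (n + 1 + 1) / yy c h (n + 1 + 1)) ^ 2 / (qq c h Z (n + 1 + 1) / 2) +
      (h (n + 1 + 2) / yy c h (n + 1 + 1)) ^ 2 / (qq c h Z (n + 1 + 2) / 2) ≤ X ^ 2 := by
    refine le_trans (le_of_eq ?_) h1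
    simp only [qq, om]; field_simp
  have e2 : (h (n + 1) / yy c h (n + 1 + 1)) ^ 2 / (qq c h Z (n + 1) / 2) +
      (h (n + 1 + 1) / yy c h (n + 1 + 1)) ^ 2 / (θ * (qq c h Z (n + 1 + 1) / 2)) +
      (h (n + 1 + 2) / yy c h (n + 1 + 1)) ^ 2 / (θ' * (qq c h Z (n + 1 + 2) / 2)) ≤ K := by
    refine le_trans (le_of_eq ?_) h2
    simp only [qq, om]; field_simp
  have hX0 : 0 < X := by linarith
  have a1 : |t| ≤ X * s := by
    apply abs_le_of_sq_le_sq _ (by positivity)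
    rw [mul_pow]
    exact c1.trans (mul_le_mul e1 hE (by positivity) (by positivity))
  set W := qq c h Z (n + 1) / 2 * (a (n + 1) - m) ^ 2 +
    θ * (qq c h Z (n + 1 + 1) / 2 * (a (n + 1 + 1) - m) ^ 2) +
    θ' * (qq c h Z (n + 1 + 2) / 2 * (a (n + 1 + 2) - m) ^ 2) with hW
  have hW0 : 0 ≤ W := by positivity
  have a2 : t ^ 2 ≤ K * W := by
    refine c2.trans ?_
    rw [mul_assoc θ, mul_assoc θ']
    exact mul_le_mul_of_nonneg_right e2 hW0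
  have hK : 0 ≤ K := le_trans (by positivity) e2
  have a3 : t ^ k ≤ K * W * (X * s) ^ (k - 2) :=
    (pow_le_sq_mul a1 hk).trans (mul_le_mul_of_nonneg_right a2 (by positivity))
  have a4 : qq c h Z (n + 1 + 1) / 2 * X ^ (k - 2) * K ≤ C / τ ^ (2 * d - k) / (1 + θ + θ') := by
    rw [le_div_iff₀ (by positivity), le_div_iff₀ (by positivity)]
    refine le_trans ?_ h3
    have : X ^ (k - 2) * τ ^ (2 * d - k) ≤ X ^ (2 * d - 2) := by
      rw [show 2 * d - 2 = (k - 2) + (2 * d - k) by omega, pow_add]; gcongr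
    calc _ = qq c h Z (n + 1 + 1) / 2 * (X ^ (k - 2) * τ ^ (2 * d - k)) * K * (1 + θ + θ') := by
          ring
      _ ≤ _ := by gcongr
  calc _ ≤ qq c h Z (n + 1 + 1) / 2 * (K * W * (X * s) ^ (k - 2)) := by gcongr
    _ = (qq c h Z (n + 1 + 1) / 2 * X ^ (k - 2) * K) * s ^ (k - 2) * W := by rw [mul_pow]; ring
    _ ≤ _ := by gcongr

lemma tail_sum {θ θ' C τ : ℝ} (T : TailOk c d h Z θ θ' C τ) (hp : ∀ n, 0 < h n)
    (hy : ∀ n, 0 < yy c h n) (hZ : 0 < Z) (hC : 0 ≤ C) (a b : ℕ → ℝ) (m s : ℝ) (hs : 0 ≤ s) (L : ℕ)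
    (hE : ∑ n ∈ range (L + 4), qq c h Z n / 2 * ((a n - m) ^ 2 + (b n - m) ^ 2) ≤ s ^ 2)
    {k : ℕ} (hk : 2 ≤ k) (hkd : k ≤ 2 * d) :
    ∑ j ∈ range L, qq c h Z (3 + j) / 2 *
      ((PA c h a b (3 + j) - m) ^ k + (PA c h b a (3 + j) - m) ^ k) ≤
      C / τ ^ (2 * d - k) * s ^ k := by
  have t0 := T.t0; have t0' := T.t0'; have tau0 := T.tau0
  have hq := qq_pos hp hy hZ
  set g : ℕ → ℝ := fun n => qq c h Z n / 2 * ((a n - m) ^ 2 + (b n - m) ^ 2) with hg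
  have hg0 : ∀ n, 0 ≤ g n := fun n => by have := hq n; simp only [hg]; positivity
  set A := C / τ ^ (2 * d - k) / (1 + θ + θ') * s ^ (k - 2) with hA
  have hA0 : 0 ≤ A := by positivity
  have h1 : ∀ j ∈ range L, qq c h Z (3 + j) / 2 *
      ((PA c h a b (3 + j) - m) ^ k + (PA c h b a (3 + j) - m) ^ k) ≤
      A * (g (2 + j) + θ * g (3 + j) + θ' * g (4 + j)) := by
    intro j hj
    have hj' := mem_range.1 hj
    have h3 : g (2 + j) + g (2 + j + 1) + g (2 + j + 2) ≤ s ^ 2 := by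
      refine le_trans ?_ hE
      have : ({2 + j, 2 + j + 1, 2 + j + 2} : Finset ℕ) ⊆ range (L + 4) := by
        intro x hx; simp only [mem_insert, mem_singleton] at hx; rw [mem_range]; omega
      refine le_trans (le_of_eq ?_) (sum_le_sum_of_subset_of_nonneg this fun i _ _ => hg0 i)
      rw [sum_insert (by simp), sum_insert (by simp), sum_singleton]; ring
    have u1 := hq (2 + j); have u2 := hq (2 + j + 1); have u3 := hq (2 + j + 2)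
    have ea := tail_one T hp hy hZ a b m s hs (2 + j) (by omega) (by
      refine le_trans ?_ h3
      simp only [hg]
      have : 0 ≤ qq c h Z (2 + j) / 2 * (b (2 + j) - m) ^ 2 +
        qq c h Z (2 + j + 1) / 2 * (b (2 + j + 1) - m) ^ 2 +
        qq c h Z (2 + j + 2) / 2 * (b (2 + j + 2) - m) ^ 2 := by positivity
      linarith) hk hkd
    have eb := tail_one T hp hy hZ b a m s hs (2 + j) (by omega) (by
      refine le_trans ?_ h3
      simp only [hg]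
      have : 0 ≤ qq c h Z (2 + j) / 2 * (a (2 + j) - m) ^ 2 +
        qq c h Z (2 + j + 1) / 2 * (a (2 + j + 1) - m) ^ 2 +
        qq c h Z (2 + j + 2) / 2 * (a (2 + j + 2) - m) ^ 2 := by positivity
      linarith) hk hkd
    rw [← hA] at ea eb
    rw [show 3 + j = 2 + j + 1 by ring, show 4 + j = 2 + j + 2 by ring]
    simp only [hg]
    nlinarith
  refine (sum_le_sum h1).trans ?_
  rw [← mul_sum, sum_add_distrib, sum_add_distrib, ← mul_sum, ← mul_sum]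
  have s2 := (shift_le hg0 L 2 (by norm_num)).trans hE
  have s3 := (shift_le hg0 L 3 (by norm_num)).trans hE
  have s4 := (shift_le hg0 L 4 (by norm_num)).trans hE
  calc _ ≤ A * (s ^ 2 + θ * s ^ 2 + θ' * s ^ 2) := by gcongr
    _ = _ := by
      obtain ⟨j, rfl⟩ : ∃ j, k = 2 + j := ⟨k - 2, by omega⟩
      rw [hA, Nat.add_sub_cancel_left]; field_simp; ring

end Pool.Agent.P.MP_23c5a6_pr
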