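import Pool.Agent.P.MP_23c5a6_pr.Cert

namespace Pool.Agent.P.MP_23c5a6_pr

open Finset

lemma m2_le {D0 D1 D2 : PD} {T B α β s : ℝ} (hs : s ^ 2 = α ^ 2 + β ^ 2)
    (he : 2 * D0.p * D0.E ^ 2 + 2 * D1.p * D1.E ^ 2 + 2 * D2.p * D2.E ^ 2 + T ≤ B)
    (ho : 2 * D0.p * D0.O ^ 2 + 2 * D1.p * D1.O ^ 2 + 2 * D2.p * D2.O ^ 2 + T ≤ B) :
    D0.m2 α β + D1.m2 α β + D2.m2 α β + T * s ^ 2 ≤ B * s ^ 2 := by
  have h1 := mul_le_mul_of_nonneg_right he (sq_nonneg α)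
  have h2 := mul_le_mul_of_nonneg_right ho (sq_nonneg β)
  unfold PD.m2; rw [hs]; linarith

noncomputable def PD.c3 (D : PD) : ℝ := D.p * (2 * D.E ^ 3 + 6 * D.E * D.O ^ 2 * (2 / 5))

lemma PD.m3_le {D : PD} (hp : 0 ≤ D.p) (hE : 0 ≤ D.E) {α β s : ℝ} (hα : 0 ≤ α) (hs0 : 0 ≤ s)
    (hs : s ^ 2 = α ^ 2 + β ^ 2) : D.m3 α β ≤ D.c3 * s ^ 3 := by
  have h1 : α ≤ s := le_of_sq_le_sq (by nlinarith [sq_nonneg β]) hs0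
  have h2 : α ^ 3 ≤ s ^ 3 := by gcongr
  have h3 : α * β ^ 2 ≤ 2 / 5 * s ^ 3 := by
    have : β ^ 2 = s ^ 2 - α ^ 2 := by linarith
    rw [this]
    nlinarith [mul_nonneg (sq_nonneg (α - 3 / 5 * s)) (show 0 ≤ α + 6 / 5 * s by positivity),
      mul_nonneg (sq_nonneg s) (sub_nonneg.2 h1), mul_nonneg (sq_nonneg s) hα, pow_nonneg hs0 3]
  unfold PD.m3 PD.c3
  calc _ ≤ D.p * (2 * D.E ^ 3 * s ^ 3 + 6 * D.E * D.O ^ 2 * (2 / 5 * s ^ 3)) := by gcongr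
    _ = _ := by ring

lemma poly3 {D0 D1 D2 : PD} {C τ ε : ℝ} (B2 B3 B4 B5 B6 : ℝ)
    (p0 : 0 ≤ D0.p) (p1 : 0 ≤ D1.p) (p2 : 0 ≤ D2.p) (e0 : 0 ≤ D0.E) (e1 : 0 ≤ D1.E) (e2 : 0 ≤ D2.E)
    (he : 2 * D0.p * D0.E ^ 2 + 2 * D1.p * D1.E ^ 2 + 2 * D2.p * D2.E ^ 2 + C / τ ^ 4 ≤ B2)
    (ho : 2 * D0.p * D0.O ^ 2 + 2 * D1.p * D1.O ^ 2 + 2 * D2.p * D2.O ^ 2 + C / τ ^ 4 ≤ B2)
    (h3 : D0.c3 + D1.c3 + D2.c3 + C / τ ^ 3 ≤ B3)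
    (h4 : D0.mk' 4 + D1.mk' 4 + D2.mk' 4 + C / τ ^ 2 ≤ B4)
    (h5 : D0.mk' 5 + D1.mk' 5 + D2.mk' 5 + C / τ ^ 1 ≤ B5)
    (h6 : D0.mk' 6 + D1.mk' 6 + D2.mk' 6 + C / τ ^ 0 ≤ B6)
    (n3 : 0 ≤ B3)
    (n5 : 0 ≤ B5)
    (c1 : 15 * B2 + 20 * B3 / 2 ≤ (1 - ε) * 3)
    (c2 : 15 * B4 + 20 * B3 / 2 + 6 * B5 / 2 ≤ (1 - ε) * 3)
    (c3 : 1 * B6 + 6 * B5 / 2 ≤ (1 - ε) * 1)
    : PolyOk 3 ε D0 D1 D2 C τ := by
  intro m α β s M hm hα hβ hs0 hs k2 k3 _ kk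
  have a2 : M 2 ≤ B2 * s ^ 2 := k2.trans (m2_le hs he ho)
  have a3 : M 3 ≤ B3 * s ^ 3 := by
    have := PD.m3_le p0 e0 hα hs0 hs
    have := PD.m3_le p1 e1 hα hs0 hs
    have := PD.m3_le p2 e2 hα hs0 hs
    have := mul_le_mul_of_nonneg_right h3 (pow_nonneg hs0 3)
    norm_num at k3
    linarith
  have a4 : M 4 ≤ B4 * s ^ 4 := (kk 4 (by norm_num) (by norm_num)).trans
    (mul_le_mul_of_nonneg_right h4 (pow_nonneg hs0 _))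
  have a5 : M 5 ≤ B5 * s ^ 5 := (kk 5 (by norm_num) (by norm_num)).trans
    (mul_le_mul_of_nonneg_right h5 (pow_nonneg hs0 _))
  have a6 : M 6 ≤ B6 * s ^ 6 := (kk 6 (by norm_num) (by norm_num)).trans
    (mul_le_mul_of_nonneg_right h6 (pow_nonneg hs0 _))
  have b2 := mul_le_mul_of_nonneg_left a2 (pow_nonneg hm 4)
  have b3 := mul_le_mul_of_nonneg_left a3 (pow_nonneg hm 3)
  have b4 := mul_le_mul_of_nonneg_left a4 (pow_nonneg hm 2)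
  have b5 := mul_le_mul_of_nonneg_left a5 (pow_nonneg hm 1)
  have b6 := mul_le_mul_of_nonneg_left a6 (pow_nonneg hm 0)
  have o3 : 0 ≤ B3 * (m ^ 2 * s ^ 2 * (m - s) ^ 2) := by positivity
  have o5 : 0 ≤ B5 * (m ^ 0 * s ^ 4 * (m - s) ^ 2) := by positivity
  have d1 := mul_le_mul_of_nonneg_right c1 (show 0 ≤ m ^ 4 * s ^ 2 by positivity)
  have d2 := mul_le_mul_of_nonneg_right c2 (show 0 ≤ m ^ 2 * s ^ 4 by positivity)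
  have d3 := mul_le_mul_of_nonneg_right c3 (show 0 ≤ m ^ 0 * s ^ 6 by positivity)
  simp only [sum_range_succ, sum_range_zero]
  norm_num [Nat.choose]
  linarith

lemma poly4 {D0 D1 D2 : PD} {C τ ε : ℝ} (B2 B3 B4 B5 B6 B7 B8 : ℝ)
    (p0 : 0 ≤ D0.p) (p1 : 0 ≤ D1.p) (p2 : 0 ≤ D2.p) (e0 : 0 ≤ D0.E) (e1 : 0 ≤ D1.E) (e2 : 0 ≤ D2.E)
    (he : 2 * D0.p * D0.E ^ 2 + 2 * D1.p * D1.E ^ 2 + 2 * D2.p * D2.E ^ 2 + C / τ ^ 6 ≤ B2)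
    (ho : 2 * D0.p * D0.O ^ 2 + 2 * D1.p * D1.O ^ 2 + 2 * D2.p * D2.O ^ 2 + C / τ ^ 6 ≤ B2)
    (h3 : D0.c3 + D1.c3 + D2.c3 + C / τ ^ 5 ≤ B3)
    (h4 : D0.mk' 4 + D1.mk' 4 + D2.mk' 4 + C / τ ^ 4 ≤ B4)
    (h5 : D0.mk' 5 + D1.mk' 5 + D2.mk' 5 + C / τ ^ 3 ≤ B5)
    (h6 : D0.mk' 6 + D1.mk' 6 + D2.mk' 6 + C / τ ^ 2 ≤ B6)
    (h7 : D0.mk' 7 + D1.mk' 7 + D2.mk' 7 + C / τ ^ 1 ≤ B7)
    (h8 : D0.mk' 8 + D1.mk' 8 + D2.mk' 8 + C / τ ^ 0 ≤ B8)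
    (n3 : 0 ≤ B3)
    (n5 : 0 ≤ B5)
    (n7 : 0 ≤ B7)
    (c1 : 28 * B2 + 56 * B3 / 2 ≤ (1 - ε) * 4)
    (c2 : 70 * B4 + 56 * B3 / 2 + 56 * B5 / 2 ≤ (1 - ε) * 6)
    (c3 : 28 * B6 + 56 * B5 / 2 + 8 * B7 / 2 ≤ (1 - ε) * 4)
    (c4 : 1 * B8 + 8 * B7 / 2 ≤ (1 - ε) * 1)
    : PolyOk 4 ε D0 D1 D2 C τ := by
  intro m α β s M hm hα hβ hs0 hs k2 k3 _ kk
  have a2 : M 2 ≤ B2 * s ^ 2 := k2.trans (m2_le hs he ho)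
  have a3 : M 3 ≤ B3 * s ^ 3 := by
    have := PD.m3_le p0 e0 hα hs0 hs
    have := PD.m3_le p1 e1 hα hs0 hs
    have := PD.m3_le p2 e2 hα hs0 hs
    have := mul_le_mul_of_nonneg_right h3 (pow_nonneg hs0 3)
    norm_num at k3
    linarith
  have a4 : M 4 ≤ B4 * s ^ 4 := (kk 4 (by norm_num) (by norm_num)).trans
    (mul_le_mul_of_nonneg_right h4 (pow_nonneg hs0 _))
  have a5 : M 5 ≤ B5 * s ^ 5 := (kk 5 (by norm_num) (by norm_num)).trans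
    (mul_le_mul_of_nonneg_right h5 (pow_nonneg hs0 _))
  have a6 : M 6 ≤ B6 * s ^ 6 := (kk 6 (by norm_num) (by norm_num)).trans
    (mul_le_mul_of_nonneg_right h6 (pow_nonneg hs0 _))
  have a7 : M 7 ≤ B7 * s ^ 7 := (kk 7 (by norm_num) (by norm_num)).trans
    (mul_le_mul_of_nonneg_right h7 (pow_nonneg hs0 _))
  have a8 : M 8 ≤ B8 * s ^ 8 := (kk 8 (by norm_num) (by norm_num)).trans
    (mul_le_mul_of_nonneg_right h8 (pow_nonneg hs0 _))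
  have b2 := mul_le_mul_of_nonneg_left a2 (pow_nonneg hm 6)
  have b3 := mul_le_mul_of_nonneg_left a3 (pow_nonneg hm 5)
  have b4 := mul_le_mul_of_nonneg_left a4 (pow_nonneg hm 4)
  have b5 := mul_le_mul_of_nonneg_left a5 (pow_nonneg hm 3)
  have b6 := mul_le_mul_of_nonneg_left a6 (pow_nonneg hm 2)
  have b7 := mul_le_mul_of_nonneg_left a7 (pow_nonneg hm 1)
  have b8 := mul_le_mul_of_nonneg_left a8 (pow_nonneg hm 0)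
  have o3 : 0 ≤ B3 * (m ^ 4 * s ^ 2 * (m - s) ^ 2) := by positivity
  have o5 : 0 ≤ B5 * (m ^ 2 * s ^ 4 * (m - s) ^ 2) := by positivity
  have o7 : 0 ≤ B7 * (m ^ 0 * s ^ 6 * (m - s) ^ 2) := by positivity
  have d1 := mul_le_mul_of_nonneg_right c1 (show 0 ≤ m ^ 6 * s ^ 2 by positivity)
  have d2 := mul_le_mul_of_nonneg_right c2 (show 0 ≤ m ^ 4 * s ^ 4 by positivity)
  have d3 := mul_le_mul_of_nonneg_right c3 (show 0 ≤ m ^ 2 * s ^ 6 by positivity)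
  have d4 := mul_le_mul_of_nonneg_right c4 (show 0 ≤ m ^ 0 * s ^ 8 by positivity)
  simp only [sum_range_succ, sum_range_zero]
  norm_num [Nat.choose]
  linarith

lemma poly5 {D0 D1 D2 : PD} {C τ ε : ℝ} (B2 B3 B4 B5 B6 B7 B8 B9 B10 : ℝ)
    (p0 : 0 ≤ D0.p) (p1 : 0 ≤ D1.p) (p2 : 0 ≤ D2.p) (e0 : 0 ≤ D0.E) (e1 : 0 ≤ D1.E) (e2 : 0 ≤ D2.E)
    (he : 2 * D0.p * D0.E ^ 2 + 2 * D1.p * D1.E ^ 2 + 2 * D2.p * D2.E ^ 2 + C / τ ^ 8 ≤ B2)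
    (ho : 2 * D0.p * D0.O ^ 2 + 2 * D1.p * D1.O ^ 2 + 2 * D2.p * D2.O ^ 2 + C / τ ^ 8 ≤ B2)
    (h3 : D0.c3 + D1.c3 + D2.c3 + C / τ ^ 7 ≤ B3)
    (h4 : D0.mk' 4 + D1.mk' 4 + D2.mk' 4 + C / τ ^ 6 ≤ B4)
    (h5 : D0.mk' 5 + D1.mk' 5 + D2.mk' 5 + C / τ ^ 5 ≤ B5)
    (h6 : D0.mk' 6 + D1.mk' 6 + D2.mk' 6 + C / τ ^ 4 ≤ B6)
    (h7 : D0.mk' 7 + D1.mk' 7 + D2.mk' 7 + C / τ ^ 3 ≤ B7)
    (h8 : D0.mk' 8 + D1.mk' 8 + D2.mk' 8 + C / τ ^ 2 ≤ B8)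
    (h9 : D0.mk' 9 + D1.mk' 9 + D2.mk' 9 + C / τ ^ 1 ≤ B9)
    (h10 : D0.mk' 10 + D1.mk' 10 + D2.mk' 10 + C / τ ^ 0 ≤ B10)
    (n3 : 0 ≤ B3)
    (n5 : 0 ≤ B5)
    (n7 : 0 ≤ B7)
    (n9 : 0 ≤ B9)
    (c1 : 45 * B2 + 120 * B3 / 2 ≤ (1 - ε) * 5)
    (c2 : 210 * B4 + 120 * B3 / 2 + 252 * B5 / 2 ≤ (1 - ε) * 10)
    (c3 : 210 * B6 + 252 * B5 / 2 + 120 * B7 / 2 ≤ (1 - ε) * 10)
    (c4 : 45 * B8 + 120 * B7 / 2 + 10 * B9 / 2 ≤ (1 - ε) * 5)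
    (c5 : 1 * B10 + 10 * B9 / 2 ≤ (1 - ε) * 1)
    : PolyOk 5 ε D0 D1 D2 C τ := by
  intro m α β s M hm hα hβ hs0 hs k2 k3 _ kk
  have a2 : M 2 ≤ B2 * s ^ 2 := k2.trans (m2_le hs he ho)
  have a3 : M 3 ≤ B3 * s ^ 3 := by
    have := PD.m3_le p0 e0 hα hs0 hs
    have := PD.m3_le p1 e1 hα hs0 hs
    have := PD.m3_le p2 e2 hα hs0 hs
    have := mul_le_mul_of_nonneg_right h3 (pow_nonneg hs0 3)
    norm_num at k3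
    linarith
  have a4 : M 4 ≤ B4 * s ^ 4 := (kk 4 (by norm_num) (by norm_num)).trans
    (mul_le_mul_of_nonneg_right h4 (pow_nonneg hs0 _))
  have a5 : M 5 ≤ B5 * s ^ 5 := (kk 5 (by norm_num) (by norm_num)).trans
    (mul_le_mul_of_nonneg_right h5 (pow_nonneg hs0 _))
  have a6 : M 6 ≤ B6 * s ^ 6 := (kk 6 (by norm_num) (by norm_num)).trans
    (mul_le_mul_of_nonneg_right h6 (pow_nonneg hs0 _))
  have a7 : M 7 ≤ B7 * s ^ 7 := (kk 7 (by norm_num) (by norm_num)).trans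
    (mul_le_mul_of_nonneg_right h7 (pow_nonneg hs0 _))
  have a8 : M 8 ≤ B8 * s ^ 8 := (kk 8 (by norm_num) (by norm_num)).trans
    (mul_le_mul_of_nonneg_right h8 (pow_nonneg hs0 _))
  have a9 : M 9 ≤ B9 * s ^ 9 := (kk 9 (by norm_num) (by norm_num)).trans
    (mul_le_mul_of_nonneg_right h9 (pow_nonneg hs0 _))
  have a10 : M 10 ≤ B10 * s ^ 10 := (kk 10 (by norm_num) (by norm_num)).trans
    (mul_le_mul_of_nonneg_right h10 (pow_nonneg hs0 _))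
  have b2 := mul_le_mul_of_nonneg_left a2 (pow_nonneg hm 8)
  have b3 := mul_le_mul_of_nonneg_left a3 (pow_nonneg hm 7)
  have b4 := mul_le_mul_of_nonneg_left a4 (pow_nonneg hm 6)
  have b5 := mul_le_mul_of_nonneg_left a5 (pow_nonneg hm 5)
  have b6 := mul_le_mul_of_nonneg_left a6 (pow_nonneg hm 4)
  have b7 := mul_le_mul_of_nonneg_left a7 (pow_nonneg hm 3)
  have b8 := mul_le_mul_of_nonneg_left a8 (pow_nonneg hm 2)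
  have b9 := mul_le_mul_of_nonneg_left a9 (pow_nonneg hm 1)
  have b10 := mul_le_mul_of_nonneg_left a10 (pow_nonneg hm 0)
  have o3 : 0 ≤ B3 * (m ^ 6 * s ^ 2 * (m - s) ^ 2) := by positivity
  have o5 : 0 ≤ B5 * (m ^ 4 * s ^ 4 * (m - s) ^ 2) := by positivity
  have o7 : 0 ≤ B7 * (m ^ 2 * s ^ 6 * (m - s) ^ 2) := by positivity
  have o9 : 0 ≤ B9 * (m ^ 0 * s ^ 8 * (m - s) ^ 2) := by positivity
  have d1 := mul_le_mul_of_nonneg_right c1 (show 0 ≤ m ^ 8 * s ^ 2 by positivity)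
  have d2 := mul_le_mul_of_nonneg_right c2 (show 0 ≤ m ^ 6 * s ^ 4 by positivity)
  have d3 := mul_le_mul_of_nonneg_right c3 (show 0 ≤ m ^ 4 * s ^ 6 by positivity)
  have d4 := mul_le_mul_of_nonneg_right c4 (show 0 ≤ m ^ 2 * s ^ 8 by positivity)
  have d5 := mul_le_mul_of_nonneg_right c5 (show 0 ≤ m ^ 0 * s ^ 10 by positivity)
  simp only [sum_range_succ, sum_range_zero]
  norm_num [Nat.choose]
  linarith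

lemma poly6 {D0 D1 D2 : PD} {C τ ε : ℝ} (B2 B3 B4 B5 B6 B7 B8 B9 B10 B11 B12 : ℝ)
    (p0 : 0 ≤ D0.p) (p1 : 0 ≤ D1.p) (p2 : 0 ≤ D2.p) (e0 : 0 ≤ D0.E) (e1 : 0 ≤ D1.E) (e2 : 0 ≤ D2.E)
    (he : 2 * D0.p * D0.E ^ 2 + 2 * D1.p * D1.E ^ 2 + 2 * D2.p * D2.E ^ 2 + C / τ ^ 10 ≤ B2)
    (ho : 2 * D0.p * D0.O ^ 2 + 2 * D1.p * D1.O ^ 2 + 2 * D2.p * D2.O ^ 2 + C / τ ^ 10 ≤ B2)
    (h3 : D0.c3 + D1.c3 + D2.c3 + C / τ ^ 9 ≤ B3)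
    (h4 : D0.mk' 4 + D1.mk' 4 + D2.mk' 4 + C / τ ^ 8 ≤ B4)
    (h5 : D0.mk' 5 + D1.mk' 5 + D2.mk' 5 + C / τ ^ 7 ≤ B5)
    (h6 : D0.mk' 6 + D1.mk' 6 + D2.mk' 6 + C / τ ^ 6 ≤ B6)
    (h7 : D0.mk' 7 + D1.mk' 7 + D2.mk' 7 + C / τ ^ 5 ≤ B7)
    (h8 : D0.mk' 8 + D1.mk' 8 + D2.mk' 8 + C / τ ^ 4 ≤ B8)
    (h9 : D0.mk' 9 + D1.mk' 9 + D2.mk' 9 + C / τ ^ 3 ≤ B9)
    (h10 : D0.mk' 10 + D1.mk' 10 + D2.mk' 10 + C / τ ^ 2 ≤ B10)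
    (h11 : D0.mk' 11 + D1.mk' 11 + D2.mk' 11 + C / τ ^ 1 ≤ B11)
    (h12 : D0.mk' 12 + D1.mk' 12 + D2.mk' 12 + C / τ ^ 0 ≤ B12)
    (n3 : 0 ≤ B3)
    (n5 : 0 ≤ B5)
    (n7 : 0 ≤ B7)
    (n9 : 0 ≤ B9)
    (n11 : 0 ≤ B11)
    (c1 : 66 * B2 + 220 * B3 / 2 ≤ (1 - ε) * 6)
    (c2 : 495 * B4 + 220 * B3 / 2 + 792 * B5 / 2 ≤ (1 - ε) * 15)
    (c3 : 924 * B6 + 792 * B5 / 2 + 792 * B7 / 2 ≤ (1 - ε) * 20)
    (c4 : 495 * B8 + 792 * B7 / 2 + 220 * B9 / 2 ≤ (1 - ε) * 15)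
    (c5 : 66 * B10 + 220 * B9 / 2 + 12 * B11 / 2 ≤ (1 - ε) * 6)
    (c6 : 1 * B12 + 12 * B11 / 2 ≤ (1 - ε) * 1)
    : PolyOk 6 ε D0 D1 D2 C τ := by
  intro m α β s M hm hα hβ hs0 hs k2 k3 _ kk
  have a2 : M 2 ≤ B2 * s ^ 2 := k2.trans (m2_le hs he ho)
  have a3 : M 3 ≤ B3 * s ^ 3 := by
    have := PD.m3_le p0 e0 hα hs0 hs
    have := PD.m3_le p1 e1 hα hs0 hs
    have := PD.m3_le p2 e2 hα hs0 hs
    have := mul_le_mul_of_nonneg_right h3 (pow_nonneg hs0 3)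
    norm_num at k3
    linarith
  have a4 : M 4 ≤ B4 * s ^ 4 := (kk 4 (by norm_num) (by norm_num)).trans
    (mul_le_mul_of_nonneg_right h4 (pow_nonneg hs0 _))
  have a5 : M 5 ≤ B5 * s ^ 5 := (kk 5 (by norm_num) (by norm_num)).trans
    (mul_le_mul_of_nonneg_right h5 (pow_nonneg hs0 _))
  have a6 : M 6 ≤ B6 * s ^ 6 := (kk 6 (by norm_num) (by norm_num)).trans
    (mul_le_mul_of_nonneg_right h6 (pow_nonneg hs0 _))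
  have a7 : M 7 ≤ B7 * s ^ 7 := (kk 7 (by norm_num) (by norm_num)).trans
    (mul_le_mul_of_nonneg_right h7 (pow_nonneg hs0 _))
  have a8 : M 8 ≤ B8 * s ^ 8 := (kk 8 (by norm_num) (by norm_num)).trans
    (mul_le_mul_of_nonneg_right h8 (pow_nonneg hs0 _))
  have a9 : M 9 ≤ B9 * s ^ 9 := (kk 9 (by norm_num) (by norm_num)).trans
    (mul_le_mul_of_nonneg_right h9 (pow_nonneg hs0 _))
  have a10 : M 10 ≤ B10 * s ^ 10 := (kk 10 (by norm_num) (by norm_num)).trans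
    (mul_le_mul_of_nonneg_right h10 (pow_nonneg hs0 _))
  have a11 : M 11 ≤ B11 * s ^ 11 := (kk 11 (by norm_num) (by norm_num)).trans
    (mul_le_mul_of_nonneg_right h11 (pow_nonneg hs0 _))
  have a12 : M 12 ≤ B12 * s ^ 12 := (kk 12 (by norm_num) (by norm_num)).trans
    (mul_le_mul_of_nonneg_right h12 (pow_nonneg hs0 _))
  have b2 := mul_le_mul_of_nonneg_left a2 (pow_nonneg hm 10)
  have b3 := mul_le_mul_of_nonneg_left a3 (pow_nonneg hm 9)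
  have b4 := mul_le_mul_of_nonneg_left a4 (pow_nonneg hm 8)
  have b5 := mul_le_mul_of_nonneg_left a5 (pow_nonneg hm 7)
  have b6 := mul_le_mul_of_nonneg_left a6 (pow_nonneg hm 6)
  have b7 := mul_le_mul_of_nonneg_left a7 (pow_nonneg hm 5)
  have b8 := mul_le_mul_of_nonneg_left a8 (pow_nonneg hm 4)
  have b9 := mul_le_mul_of_nonneg_left a9 (pow_nonneg hm 3)
  have b10 := mul_le_mul_of_nonneg_left a10 (pow_nonneg hm 2)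
  have b11 := mul_le_mul_of_nonneg_left a11 (pow_nonneg hm 1)
  have b12 := mul_le_mul_of_nonneg_left a12 (pow_nonneg hm 0)
  have o3 : 0 ≤ B3 * (m ^ 8 * s ^ 2 * (m - s) ^ 2) := by positivity
  have o5 : 0 ≤ B5 * (m ^ 6 * s ^ 4 * (m - s) ^ 2) := by positivity
  have o7 : 0 ≤ B7 * (m ^ 4 * s ^ 6 * (m - s) ^ 2) := by positivity
  have o9 : 0 ≤ B9 * (m ^ 2 * s ^ 8 * (m - s) ^ 2) := by positivity
  have o11 : 0 ≤ B11 * (m ^ 0 * s ^ 10 * (m - s) ^ 2) := by positivity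
  have d1 := mul_le_mul_of_nonneg_right c1 (show 0 ≤ m ^ 10 * s ^ 2 by positivity)
  have d2 := mul_le_mul_of_nonneg_right c2 (show 0 ≤ m ^ 8 * s ^ 4 by positivity)
  have d3 := mul_le_mul_of_nonneg_right c3 (show 0 ≤ m ^ 6 * s ^ 6 by positivity)
  have d4 := mul_le_mul_of_nonneg_right c4 (show 0 ≤ m ^ 4 * s ^ 8 by positivity)
  have d5 := mul_le_mul_of_nonneg_right c5 (show 0 ≤ m ^ 2 * s ^ 10 by positivity)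
  have d6 := mul_le_mul_of_nonneg_right c6 (show 0 ≤ m ^ 0 * s ^ 12 by positivity)
  simp only [sum_range_succ, sum_range_zero]
  norm_num [Nat.choose]
  linarith

lemma poly7 {D0 D1 D2 : PD} {C τ ε : ℝ} (B2 B3 B4 B5 B6 B7 B8 B9 B10 B11 B12 B13 B14 : ℝ)
    (p0 : 0 ≤ D0.p) (p1 : 0 ≤ D1.p) (p2 : 0 ≤ D2.p) (e0 : 0 ≤ D0.E) (e1 : 0 ≤ D1.E) (e2 : 0 ≤ D2.E)
    (he : 2 * D0.p * D0.E ^ 2 + 2 * D1.p * D1.E ^ 2 + 2 * D2.p * D2.E ^ 2 + C / τ ^ 12 ≤ B2)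
    (ho : 2 * D0.p * D0.O ^ 2 + 2 * D1.p * D1.O ^ 2 + 2 * D2.p * D2.O ^ 2 + C / τ ^ 12 ≤ B2)
    (h3 : D0.c3 + D1.c3 + D2.c3 + C / τ ^ 11 ≤ B3)
    (h4 : D0.mk' 4 + D1.mk' 4 + D2.mk' 4 + C / τ ^ 10 ≤ B4)
    (h5 : D0.mk' 5 + D1.mk' 5 + D2.mk' 5 + C / τ ^ 9 ≤ B5)
    (h6 : D0.mk' 6 + D1.mk' 6 + D2.mk' 6 + C / τ ^ 8 ≤ B6)
    (h7 : D0.mk' 7 + D1.mk' 7 + D2.mk' 7 + C / τ ^ 7 ≤ B7)
    (h8 : D0.mk' 8 + D1.mk' 8 + D2.mk' 8 + C / τ ^ 6 ≤ B8)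
    (h9 : D0.mk' 9 + D1.mk' 9 + D2.mk' 9 + C / τ ^ 5 ≤ B9)
    (h10 : D0.mk' 10 + D1.mk' 10 + D2.mk' 10 + C / τ ^ 4 ≤ B10)
    (h11 : D0.mk' 11 + D1.mk' 11 + D2.mk' 11 + C / τ ^ 3 ≤ B11)
    (h12 : D0.mk' 12 + D1.mk' 12 + D2.mk' 12 + C / τ ^ 2 ≤ B12)
    (h13 : D0.mk' 13 + D1.mk' 13 + D2.mk' 13 + C / τ ^ 1 ≤ B13)
    (h14 : D0.mk' 14 + D1.mk' 14 + D2.mk' 14 + C / τ ^ 0 ≤ B14)
    (n3 : 0 ≤ B3)
    (n5 : 0 ≤ B5)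
    (n7 : 0 ≤ B7)
    (n9 : 0 ≤ B9)
    (n11 : 0 ≤ B11)
    (n13 : 0 ≤ B13)
    (c1 : 91 * B2 + 364 * B3 / 2 ≤ (1 - ε) * 7)
    (c2 : 1001 * B4 + 364 * B3 / 2 + 2002 * B5 / 2 ≤ (1 - ε) * 21)
    (c3 : 3003 * B6 + 2002 * B5 / 2 + 3432 * B7 / 2 ≤ (1 - ε) * 35)
    (c4 : 3003 * B8 + 3432 * B7 / 2 + 2002 * B9 / 2 ≤ (1 - ε) * 35)
    (c5 : 1001 * B10 + 2002 * B9 / 2 + 364 * B11 / 2 ≤ (1 - ε) * 21)
    (c6 : 91 * B12 + 364 * B11 / 2 + 14 * B13 / 2 ≤ (1 - ε) * 7)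
    (c7 : 1 * B14 + 14 * B13 / 2 ≤ (1 - ε) * 1)
    : PolyOk 7 ε D0 D1 D2 C τ := by
  intro m α β s M hm hα hβ hs0 hs k2 k3 _ kk
  have a2 : M 2 ≤ B2 * s ^ 2 := k2.trans (m2_le hs he ho)
  have a3 : M 3 ≤ B3 * s ^ 3 := by
    have := PD.m3_le p0 e0 hα hs0 hs
    have := PD.m3_le p1 e1 hα hs0 hs
    have := PD.m3_le p2 e2 hα hs0 hs
    have := mul_le_mul_of_nonneg_right h3 (pow_nonneg hs0 3)
    norm_num at k3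
    linarith
  have a4 : M 4 ≤ B4 * s ^ 4 := (kk 4 (by norm_num) (by norm_num)).trans
    (mul_le_mul_of_nonneg_right h4 (pow_nonneg hs0 _))
  have a5 : M 5 ≤ B5 * s ^ 5 := (kk 5 (by norm_num) (by norm_num)).trans
    (mul_le_mul_of_nonneg_right h5 (pow_nonneg hs0 _))
  have a6 : M 6 ≤ B6 * s ^ 6 := (kk 6 (by norm_num) (by norm_num)).trans
    (mul_le_mul_of_nonneg_right h6 (pow_nonneg hs0 _))
  have a7 : M 7 ≤ B7 * s ^ 7 := (kk 7 (by norm_num) (by norm_num)).trans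
    (mul_le_mul_of_nonneg_right h7 (pow_nonneg hs0 _))
  have a8 : M 8 ≤ B8 * s ^ 8 := (kk 8 (by norm_num) (by norm_num)).trans
    (mul_le_mul_of_nonneg_right h8 (pow_nonneg hs0 _))
  have a9 : M 9 ≤ B9 * s ^ 9 := (kk 9 (by norm_num) (by norm_num)).trans
    (mul_le_mul_of_nonneg_right h9 (pow_nonneg hs0 _))
  have a10 : M 10 ≤ B10 * s ^ 10 := (kk 10 (by norm_num) (by norm_num)).trans
    (mul_le_mul_of_nonneg_right h10 (pow_nonneg hs0 _))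
  have a11 : M 11 ≤ B11 * s ^ 11 := (kk 11 (by norm_num) (by norm_num)).trans
    (mul_le_mul_of_nonneg_right h11 (pow_nonneg hs0 _))
  have a12 : M 12 ≤ B12 * s ^ 12 := (kk 12 (by norm_num) (by norm_num)).trans
    (mul_le_mul_of_nonneg_right h12 (pow_nonneg hs0 _))
  have a13 : M 13 ≤ B13 * s ^ 13 := (kk 13 (by norm_num) (by norm_num)).trans
    (mul_le_mul_of_nonneg_right h13 (pow_nonneg hs0 _))
  have a14 : M 14 ≤ B14 * s ^ 14 := (kk 14 (by norm_num) (by norm_num)).trans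
    (mul_le_mul_of_nonneg_right h14 (pow_nonneg hs0 _))
  have b2 := mul_le_mul_of_nonneg_left a2 (pow_nonneg hm 12)
  have b3 := mul_le_mul_of_nonneg_left a3 (pow_nonneg hm 11)
  have b4 := mul_le_mul_of_nonneg_left a4 (pow_nonneg hm 10)
  have b5 := mul_le_mul_of_nonneg_left a5 (pow_nonneg hm 9)
  have b6 := mul_le_mul_of_nonneg_left a6 (pow_nonneg hm 8)
  have b7 := mul_le_mul_of_nonneg_left a7 (pow_nonneg hm 7)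
  have b8 := mul_le_mul_of_nonneg_left a8 (pow_nonneg hm 6)
  have b9 := mul_le_mul_of_nonneg_left a9 (pow_nonneg hm 5)
  have b10 := mul_le_mul_of_nonneg_left a10 (pow_nonneg hm 4)
  have b11 := mul_le_mul_of_nonneg_left a11 (pow_nonneg hm 3)
  have b12 := mul_le_mul_of_nonneg_left a12 (pow_nonneg hm 2)
  have b13 := mul_le_mul_of_nonneg_left a13 (pow_nonneg hm 1)
  have b14 := mul_le_mul_of_nonneg_left a14 (pow_nonneg hm 0)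
  have o3 : 0 ≤ B3 * (m ^ 10 * s ^ 2 * (m - s) ^ 2) := by positivity
  have o5 : 0 ≤ B5 * (m ^ 8 * s ^ 4 * (m - s) ^ 2) := by positivity
  have o7 : 0 ≤ B7 * (m ^ 6 * s ^ 6 * (m - s) ^ 2) := by positivity
  have o9 : 0 ≤ B9 * (m ^ 4 * s ^ 8 * (m - s) ^ 2) := by positivity
  have o11 : 0 ≤ B11 * (m ^ 2 * s ^ 10 * (m - s) ^ 2) := by positivity
  have o13 : 0 ≤ B13 * (m ^ 0 * s ^ 12 * (m - s) ^ 2) := by positivity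
  have d1 := mul_le_mul_of_nonneg_right c1 (show 0 ≤ m ^ 12 * s ^ 2 by positivity)
  have d2 := mul_le_mul_of_nonneg_right c2 (show 0 ≤ m ^ 10 * s ^ 4 by positivity)
  have d3 := mul_le_mul_of_nonneg_right c3 (show 0 ≤ m ^ 8 * s ^ 6 by positivity)
  have d4 := mul_le_mul_of_nonneg_right c4 (show 0 ≤ m ^ 6 * s ^ 8 by positivity)
  have d5 := mul_le_mul_of_nonneg_right c5 (show 0 ≤ m ^ 4 * s ^ 10 by positivity)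
  have d6 := mul_le_mul_of_nonneg_right c6 (show 0 ≤ m ^ 2 * s ^ 12 by positivity)
  have d7 := mul_le_mul_of_nonneg_right c7 (show 0 ≤ m ^ 0 * s ^ 14 by positivity)
  simp only [sum_range_succ, sum_range_zero]
  norm_num [Nat.choose]
  linarith

lemma poly2 {D0 D1 D2 : PD} {C τ ε : ℝ} (Ae Ao c30 c12 T3 q40 q22 q04 : ℝ)
    (he : 2 * D0.p * D0.E ^ 2 + 2 * D1.p * D1.E ^ 2 + 2 * D2.p * D2.E ^ 2 + C / τ ^ 2 ≤ Ae)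
    (ho : 2 * D0.p * D0.O ^ 2 + 2 * D1.p * D1.O ^ 2 + 2 * D2.p * D2.O ^ 2 + C / τ ^ 2 ≤ Ao)
    (h30 : 2 * D0.p * D0.E ^ 3 + 2 * D1.p * D1.E ^ 3 + 2 * D2.p * D2.E ^ 3 ≤ c30)
    (h12 : 6 * D0.p * D0.E * D0.O ^ 2 + 6 * D1.p * D1.E * D1.O ^ 2 + 6 * D2.p * D2.E * D2.O ^ 2 ≤ c12)
    (hT : C / τ ≤ T3)
    (h40 : 2 * D0.p * D0.E ^ 4 + 2 * D1.p * D1.E ^ 4 + 2 * D2.p * D2.E ^ 4 + C ≤ q40)
    (h22 : 12 * D0.p * D0.E ^ 2 * D0.O ^ 2 + 12 * D1.p * D1.E ^ 2 * D1.O ^ 2 +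
      12 * D2.p * D2.E ^ 2 * D2.O ^ 2 + 2 * C ≤ q22)
    (h04 : 2 * D0.p * D0.O ^ 4 + 2 * D1.p * D1.O ^ 4 + 2 * D2.p * D2.O ^ 4 + C ≤ q04)
    (hF : ∀ m α β s : ℝ, s ^ 2 = α ^ 2 + β ^ 2 →
      6 * m ^ 2 * (Ae * α ^ 2 + Ao * β ^ 2) + 4 * m * (c30 * α ^ 3 + c12 * (α * β ^ 2) + T3 * s ^ 3)
        + (q40 * α ^ 4 + q22 * (α ^ 2 * β ^ 2) + q04 * β ^ 4) ≤
        (1 - ε) * (2 * m ^ 2 * s ^ 2 + s ^ 4)) : PolyOk 2 ε D0 D1 D2 C τ := by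
  intro m α β s M hm hα hβ hs0 hs k2 k3 k4 _
  norm_num at k2 k3 k4
  have a2 : M 2 ≤ Ae * α ^ 2 + Ao * β ^ 2 := by
    have h1 := mul_le_mul_of_nonneg_right he (sq_nonneg α)
    have h2 := mul_le_mul_of_nonneg_right ho (sq_nonneg β)
    unfold PD.m2 at k2; rw [hs] at k2; linarith
  have a3 : M 3 ≤ c30 * α ^ 3 + c12 * (α * β ^ 2) + T3 * s ^ 3 := by
    have h1 := mul_le_mul_of_nonneg_right h30 (pow_nonneg hα 3)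
    have h2 := mul_le_mul_of_nonneg_right h12 (show 0 ≤ α * β ^ 2 by positivity)
    have h3 := mul_le_mul_of_nonneg_right hT (pow_nonneg hs0 3)
    unfold PD.m3 at k3; linarith
  have a4 : M 4 ≤ q40 * α ^ 4 + q22 * (α ^ 2 * β ^ 2) + q04 * β ^ 4 := by
    have h1 := mul_le_mul_of_nonneg_right h40 (pow_nonneg hα 4)
    have h2 := mul_le_mul_of_nonneg_right h22 (show 0 ≤ α ^ 2 * β ^ 2 by positivity)
    have h3 := mul_le_mul_of_nonneg_right h04 (pow_nonneg hβ 4)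
    have h4 : s ^ 4 = (α ^ 2 + β ^ 2) ^ 2 := by rw [← hs]; ring
    unfold PD.m4 at k4; rw [h4] at k4; linarith
  have b2 := mul_le_mul_of_nonneg_left a2 (pow_nonneg hm 2)
  have b3 := mul_le_mul_of_nonneg_left a3 hm
  have := hF m α β s hs
  simp only [sum_range_succ, sum_range_zero]
  norm_num [Nat.choose]
  linarith

theorem good_of {c d : ℕ} (hc : c ≤ 1) (hd : 2 ≤ d) (N0 : ℕ) (B : Bx)
    (h1 : (Bx.iter c d N0 ⟨0, 0, 0, 0, 0, 0, 0, 0⟩).sub B = true) (h2 : (B.step c d).sub B = true)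
    {l1 u1 l2 u2 l3 u3 l4 u4 w2 w3 κ yl0 yl1 yl2 yl3 yu0 yu1 yu2 yu3 g1 g2 g3 Zl Zu ρ θ θ' C τ ε : ℝ}
    {D0 D1 D2 : PD} (hB : ∀ h, B.Mem h → InB l1 u1 l2 u2 l3 u3 l4 u4 h)
    (K : ContrCert c d l1 u1 u2 u3 u4 w2 w3 κ)
    (N : NumCert c d l1 u1 l2 u2 l3 u3 l4 u4 yl0 yl1 yl2 yl3 yu0 yu1 yu2 yu3 g1 g2 g3
      Zl Zu ρ θ θ' C τ D0 D1 D2) (hε : 0 < ε) (R : PolyOk d ε D0 D1 D2 C τ) : Good c d := by
  obtain ⟨h, F, hb⟩ := exists_fix hc hd K fun N => hB _ (mem_eventually hc hd h1 h2 N)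
  exact ⟨h, ε, F, hε, hch_of hc hd F hb N hε.le R⟩

end Pool.Agent.P.MP_23c5a6_pr
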