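import Pool.Agent.P.MP_23c5a6_pr.Ent
import Pool.Agent.P.MP_23c5a6_pr.Defs

namespace Pool.Agent.P.MP_23c5a6_pr

open Finset Filter Topology

variable {d : ℕ}

def sub {α : Type*} (f : List (Fin d) → α) (a : Fin d) : List (Fin d) → α := fun w => f (a :: w)

def graft (i : ℤ) (g : Fin d → List (Fin d) → ℤ) : List (Fin d) → ℤ
  | [] => i
  | a :: w => g a w

def LipB (n : ℕ) (f : List (Fin d) → ℤ) : Prop :=
  ∀ (v : List (Fin d)) (a : Fin d), v.length < n → |f (v ++ [a]) - f v| ≤ 1

lemma Lip.lipB {f : List (Fin d) → ℤ} (h : Lip f) (n : ℕ) : LipB n f := fun v a _ => h v a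

lemma lipB_succ {n : ℕ} {f : List (Fin d) → ℤ} :
    LipB (n + 1) f ↔ ∀ a, |f [a] - f []| ≤ 1 ∧ LipB n (sub f a) := by
  constructor
  · intro h a
    exact ⟨h [] a (by simp), fun v b hv => h (a :: v) b (by simpa using hv)⟩
  · intro h v b hv
    cases v with
    | nil => exact (h b).1
    | cons a w => exact (h a).2 w b (by simpa using hv)

noncomputable instance : DecidableEq (List (Fin d) → ℤ) := Classical.decEq _

noncomputable def conf (d : ℕ) : ℕ → ℤ → Finset (List (Fin d) → ℤ)
  | 0, i => {graft i fun _ _ => 0}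
  | n + 1, i => (Fintype.piFinset fun _ : Fin d =>
      conf d n (i - 1) ∪ conf d n i ∪ conf d n (i + 1)).image (graft i)

lemma graft_sub (f : List (Fin d) → ℤ) : graft (f []) (sub f) = f := by
  ext v; cases v <;> rfl

lemma mem_conf : ∀ {n : ℕ} {i : ℤ} {f : List (Fin d) → ℤ},
    f ∈ conf d n i ↔ f [] = i ∧ LipB n f ∧ ∀ v : List (Fin d), n < v.length → f v = 0
  | 0, i, f => by
    simp only [conf, mem_singleton]
    constructor
    · rintro rfl
      refine ⟨rfl, fun v a hv => by omega, fun v hv => ?_⟩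
      cases v with
      | nil => simp at hv
      | cons a w => rfl
    · rintro ⟨rfl, -, h⟩
      ext v
      cases v with
      | nil => rfl
      | cons a w => exact h _ (by simp)
  | n + 1, i, f => by
    simp only [conf, mem_image, Fintype.mem_piFinset, mem_union, mem_conf, lipB_succ]
    constructor
    · rintro ⟨g, hg, rfl⟩
      refine ⟨rfl, fun a => ?_, fun v hv => ?_⟩
      · have e1 : graft i g [a] = g a [] := rfl
        have e2 : graft i g [] = i := rfl
        rw [e1, e2]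
        rcases hg a with (h | h) | h <;> exact ⟨by rw [h.1]; simp, h.2.1⟩
      · cases v with
        | nil => simp at hv
        | cons a w =>
          have hw : n < w.length := by simpa using hv
          rcases hg a with (h | h) | h <;> exact h.2.2 w hw
    · rintro ⟨rfl, h1, h2⟩
      refine ⟨sub f, fun a => ?_, graft_sub f⟩
      have h3 : ∀ v : List (Fin d), n < v.length → sub f a v = 0 := fun v hv =>
        h2 _ (by simpa using hv)
      have h4 := abs_le.1 (h1 a).1
      have e : sub f a [] = f [a] := rfl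
      rcases (show f [a] = f [] - 1 ∨ f [a] = f [] ∨ f [a] = f [] + 1 by omega) with h | h | h
      · exact Or.inl (Or.inl ⟨h, (h1 a).2, h3⟩)
      · exact Or.inl (Or.inr ⟨h, (h1 a).2, h3⟩)
      · exact Or.inr ⟨h, (h1 a).2, h3⟩

lemma conf_disj {n : ℕ} {i j : ℤ} (h : i ≠ j) : Disjoint (conf d n i) (conf d n j) :=
  disjoint_left.2 fun _ h1 h2 => h ((mem_conf.1 h1).1.symm.trans (mem_conf.1 h2).1)

lemma sum_conf_succ (n : ℕ) (i : ℤ) (φ : Fin d → (List (Fin d) → ℤ) → ℝ) :
    ∑ f ∈ conf d (n + 1) i, ∏ a, φ a (sub f a) = ∏ a, (∑ f ∈ conf d n (i - 1), φ a f +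
      ∑ f ∈ conf d n i, φ a f + ∑ f ∈ conf d n (i + 1), φ a f) := by
  rw [conf, sum_image]
  · have := prod_univ_sum (fun _ : Fin d => conf d n (i - 1) ∪ conf d n i ∪ conf d n (i + 1)) φ
    refine this.symm.trans (prod_congr rfl fun a _ => ?_)
    rw [sum_union, sum_union (conf_disj (by omega))]
    rw [disjoint_union_left]; exact ⟨conf_disj (by omega), conf_disj (by omega)⟩
  · intro g _ g' _ h
    ext a w
    exact congrFun h (a :: w)

noncomputable def WW : ℕ → (List (Fin d) → ℤ → ℝ) → (ℤ → ℝ) → ℤ → ℝ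
  | 0, e, b, i => e [] i * b i
  | n + 1, e, b, i => e [] i *
      ∏ a, (WW n (sub e a) b (i - 1) + WW n (sub e a) b i + WW n (sub e a) b (i + 1))

noncomputable def wt : ℕ → (List (Fin d) → ℤ → ℝ) → (ℤ → ℝ) → (List (Fin d) → ℤ) → ℝ
  | 0, e, b, f => e [] (f []) * b (f [])
  | n + 1, e, b, f => e [] (f []) * ∏ a, wt n (sub e a) b (sub f a)

lemma sum_wt : ∀ (n : ℕ) (e : List (Fin d) → ℤ → ℝ) (b : ℤ → ℝ) (i : ℤ),
    ∑ f ∈ conf d n i, wt n e b f = WW n e b i
  | 0, e, b, i => by simp [conf, wt, WW, graft]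
  | n + 1, e, b, i => by
    rw [sum_congr rfl (g := fun f => e [] i * ∏ a, wt n (sub e a) b (sub f a))
      fun f hf => by rw [wt, (mem_conf.1 hf).1], ← mul_sum,
      sum_conf_succ n i (fun a f => wt n (sub e a) b f)]
    simp only [sum_wt n, WW]

open Classical in
noncomputable def ind (E : List (Fin d) → ℤ → Prop) : List (Fin d) → ℤ → ℝ :=
  fun v j => if E v j then 1 else 0

open Classical in
lemma wt_ind : ∀ (n : ℕ) (E : List (Fin d) → ℤ → Prop) (b : ℤ → ℝ) (f : List (Fin d) → ℤ),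
    wt n (ind E) b f = if ∀ v : List (Fin d), v.length ≤ n → E v (f v) then wt n 1 b f else 0
  | 0, E, b, f => by
    have : (∀ v : List (Fin d), v.length ≤ 0 → E v (f v)) ↔ E [] (f []) := by simp
    simp only [this, wt, ind]; split_ifs <;> simp
  | n + 1, E, b, f => by
    have e1 : ∀ a, sub (ind E) a = ind (sub E a) := fun a => rfl
    have e2 : ∀ a : Fin d, sub (1 : List (Fin d) → ℤ → ℝ) a = 1 := fun a => rfl
    simp only [wt, e1, e2, wt_ind n, Pi.one_apply, one_mul]
    split_ifs with h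
    · rw [ind, if_pos (h [] (by simp)), one_mul]
      refine prod_congr rfl fun a _ => if_pos fun v hv => h (a :: v) (by simpa using hv)
    · push Not at h
      obtain ⟨v, hv, hE⟩ := h
      cases v with
      | nil => rw [ind, if_neg hE, zero_mul]
      | cons a w =>
        rw [prod_eq_zero (mem_univ a), mul_zero]
        exact if_neg fun hh => hE (hh w (by simpa using hv))

open Classical in
lemma wt_leaf (S : Set ℤ) : ∀ (n : ℕ) (f : List (Fin d) → ℤ),
    wt n 1 (S.indicator 1) f = if ∀ v : List (Fin d), v.length = n → f v ∈ S then 1 else 0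
  | 0, f => by
    have : (∀ v : List (Fin d), v.length = 0 → f v ∈ S) ↔ f [] ∈ S := by simp
    simp only [this, wt, Set.indicator]; split_ifs <;> simp
  | n + 1, f => by
    have e2 : ∀ a : Fin d, sub (1 : List (Fin d) → ℤ → ℝ) a = 1 := fun a => rfl
    simp only [wt, e2, wt_leaf S n, Pi.one_apply, one_mul]
    split_ifs with h
    · exact prod_eq_one fun a _ => if_pos fun v hv => h (a :: v) (by simpa using hv)
    · push Not at h
      obtain ⟨v, hv, hE⟩ := h
      cases v with
      | nil => simp at hv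
      | cons a w =>
        exact prod_eq_zero (mem_univ a) (if_neg fun hh => hE (hh w (by simpa using hv)))

lemma wt_congr (b : ℤ → ℝ) : ∀ (n : ℕ) (f g : List (Fin d) → ℤ),
    (∀ v : List (Fin d), v.length = n → f v = g v) → wt n 1 b f = wt n 1 b g
  | 0, f, g, h => by simp [wt, h [] rfl]
  | n + 1, f, g, h => by
    have e2 : ∀ a : Fin d, sub (1 : List (Fin d) → ℤ → ℝ) a = 1 := fun a => rfl
    simp only [wt, e2, Pi.one_apply, one_mul]
    exact prod_congr rfl fun a _ => wt_congr b n _ _ fun v hv => h (a :: v) (by simpa using hv)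

lemma wt_pos {b : ℤ → ℝ} (hb : ∀ i, 0 < b i) : ∀ (n : ℕ) (f : List (Fin d) → ℤ), 0 < wt n 1 b f
  | 0, f => by simpa [wt] using hb _
  | n + 1, f => by
    have e2 : ∀ a : Fin d, sub (1 : List (Fin d) → ℤ → ℝ) a = 1 := fun a => rfl
    simp only [wt, e2, Pi.one_apply, one_mul]
    exact prod_pos fun a _ => wt_pos hb n _

lemma WW_nn {b : ℤ → ℝ} (hb : ∀ i, 0 ≤ b i) : ∀ (n : ℕ) (e : List (Fin d) → ℤ → ℝ),
    (∀ v j, 0 ≤ e v j) → ∀ i, 0 ≤ WW n e b i
  | 0, e, he, i => mul_nonneg (he _ _) (hb _)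
  | n + 1, e, he, i => mul_nonneg (he _ _) (prod_nonneg fun a _ => by
      have := WW_nn hb n (sub e a) fun v j => he _ _
      exact add_nonneg (add_nonneg (this _) (this _)) (this _))

lemma WW_le {b : ℤ → ℝ} (hb : ∀ i, 0 ≤ b i) : ∀ (n : ℕ) (e : List (Fin d) → ℤ → ℝ),
    (∀ v j, 0 ≤ e v j) → (∀ v j, e v j ≤ 1) → ∀ i, WW n e b i ≤ WW n (1 : List (Fin d) → ℤ → ℝ) b i
  | 0, e, he, he', i => mul_le_mul_of_nonneg_right (he' _ _) (hb _)
  | n + 1, e, he, he', i => by
    have h0 : ∀ a, 0 ≤ WW n (sub e a) b (i - 1) + WW n (sub e a) b i + WW n (sub e a) b (i + 1) :=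
      fun a => by
        have := WW_nn hb n (sub e a) fun v j => he _ _
        exact add_nonneg (add_nonneg (this _) (this _)) (this _)
    refine mul_le_mul (he' _ _) (prod_le_prod (fun a _ => h0 a) fun a _ => ?_)
      (prod_nonneg fun a _ => h0 a) zero_le_one
    have := WW_le hb n (sub e a) (fun v j => he _ _) fun v j => he' _ _
    exact add_le_add (add_le_add (this _) (this _)) (this _)

lemma WW_semi (b : ℤ → ℝ) (M : ℕ) : ∀ (k : ℕ) (e : List (Fin d) → ℤ → ℝ),
    (∀ v : List (Fin d), k < v.length → e v = 1) →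
    WW (M + k) e b = WW k e (WW M (1 : List (Fin d) → ℤ → ℝ) b)
  | 0, e, he => by
    ext i
    cases M with
    | zero => simp [WW]
    | succ M =>
      have : ∀ a, sub e a = sub 1 a := fun a => funext fun w => he _ (by simp)
      simp [WW, this]
  | k + 1, e, he => by
    ext i
    have := fun a => WW_semi b M k (sub e a) fun v hv => he _ (by simpa using hv)
    simp only [WW, Nat.add_eq, this]

lemma WW_smul (b : ℤ → ℝ) (l : ℝ) : ∀ (k : ℕ) (e : List (Fin d) → ℤ → ℝ) (i : ℤ),
    WW k e (fun j => l * b j) i = l ^ (d ^ k) * WW k e b i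
  | 0, e, i => by simp [WW]; ring
  | k + 1, e, i => by
    simp only [WW, WW_smul b l k, ← mul_add, prod_mul_distrib, prod_const, card_univ,
      Fintype.card_fin, ← pow_mul, pow_succ]
    ring

lemma WW_tendsto {b : ℕ → ℤ → ℝ} {b' : ℤ → ℝ} (h : ∀ i, Tendsto (fun M => b M i) atTop (𝓝 (b' i))) :
    ∀ (k : ℕ) (e : List (Fin d) → ℤ → ℝ) (i : ℤ),
    Tendsto (fun M => WW k e (b M) i) atTop (𝓝 (WW k e b' i))
  | 0, e, i => (h i).const_mul _
  | k + 1, e, i => Tendsto.const_mul _ (tendsto_finsetProd _ fun a _ =>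
      ((WW_tendsto h k _ _).add (WW_tendsto h k _ _)).add (WW_tendsto h k _ _))

lemma root_bound (hd : 0 < d) : ∀ (n : ℕ) (f : List (Fin d) → ℤ), LipB n f →
    |f (List.replicate n ⟨0, hd⟩) - f []| ≤ n
  | 0, f, _ => by simp
  | n + 1, f, h => by
    obtain ⟨h1, h2⟩ := lipB_succ.1 h ⟨0, hd⟩
    have := root_bound hd n _ h2
    simp only [sub] at this
    rw [List.replicate_succ, abs_le] at *
    push_cast; constructor <;> linarith [this.1, this.2, h1.1, h1.2]

def ball (d : ℕ) : ℕ → Finset (List (Fin d))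
  | 0 => {[]}
  | n + 1 => insert [] (univ.biUnion fun a => (ball d n).image (a :: ·))

lemma mem_ball : ∀ {n : ℕ} {v : List (Fin d)}, v ∈ ball d n ↔ v.length ≤ n
  | 0, v => by simp [ball]
  | n + 1, [] => by simp [ball]
  | n + 1, a :: w => by simp [ball, mem_ball (n := n)]

lemma prod_ball (n : ℕ) (g : List (Fin d) → ℝ) :
    ∏ v ∈ ball d (n + 1), g v = g [] * ∏ a, ∏ w ∈ ball d n, g (a :: w) := by
  rw [ball, prod_insert (by simp), prod_biUnion]
  · congr 1
    exact prod_congr rfl fun a _ => prod_image fun _ _ _ _ h => by simpa using h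
  · intro a _ b _ hab
    simp only [Function.onFun, disjoint_left, mem_image]
    rintro _ ⟨w, -, rfl⟩ ⟨w', -, h⟩
    simp at h; exact hab h.1.symm

lemma exists_ball (U : Finset (List (Fin d))) : ∃ k, ∀ u ∈ U, u.length ≤ k :=
  ⟨U.sup List.length, fun _ hu => Finset.le_sup (f := List.length) hu⟩

def trunc (n : ℕ) (f : List (Fin d) → ℤ) : List (Fin d) → ℤ :=
  fun v => if v.length ≤ n then f v else 0

lemma trunc_mem {n : ℕ} {f : List (Fin d) → ℤ} (h : LipB n f) : trunc n f ∈ conf d n (f []) := by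
  refine mem_conf.2 ⟨by simp [trunc], fun v a hv => ?_, fun v hv => if_neg (by omega)⟩
  have h1 : (v ++ [a]).length ≤ n := by simp; omega
  simp only [trunc, if_pos h1, if_pos hv.le]; exact h v a hv

end Pool.Agent.P.MP_23c5a6_pr
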