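import Pool.Agent.P.MP_23c5a6_pr.Num

namespace Pool.Agent.P.MP_23c5a6_pr

open Finset Filter Topology

def YY (x : ℤ → ℝ) (i : ℤ) : ℝ := x (i - 1) + x i + x (i + 1)

noncomputable def Pm (x v : ℤ → ℝ) (i : ℤ) : ℝ :=
  (x (i - 1) * v (i - 1) + x i * v i + x (i + 1) * v (i + 1)) / YY x i

structure Chain (d : ℕ) (x pi : ℤ → ℝ) (ε : ℝ) : Prop where
  pos : ∀ i, 0 < x i
  Z : ∃ Z, 0 < Z ∧ ∀ i, pi i = x i * YY x i / Z
  sum : HasSum pi 1
  sq : Summable fun i => √(pi i)
  eps : 0 < ε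
  hc : ∀ (v : ℤ → ℝ) (F G : Finset ℤ), (∀ i, 0 ≤ v i) → (∀ i, i ∉ F → v i = 0) →
    ∑ i ∈ F, pi i * v i ^ 2 = 1 →
    ∑ i ∈ G, pi i * Pm x v i ^ (2 * d) ≤ 1 - ε * (1 - (∑ i ∈ F, pi i * v i) ^ 2)

def idx (c : ℕ) (i : ℤ) : ℕ := if (c : ℤ) ≤ i then (i - c).toNat else (-i).toNat

lemma idx_pos (c n : ℕ) : idx c (c + n) = n := by simp [idx]

lemma idx_neg {c : ℕ} (hc : c ≤ 1) (n : ℕ) : idx c (-n) = n := by
  unfold idx; split_ifs with h <;> omega

lemma int_cases {c : ℕ} (hc : c ≤ 1) (i : ℤ) : (∃ n : ℕ, i = c + n) ∨ ∃ n : ℕ, i = -n := by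
  by_cases h : (c : ℤ) ≤ i
  · exact Or.inl ⟨(i - c).toNat, by omega⟩
  · exact Or.inr ⟨(-i).toNat, by omega⟩

lemma win_sum {c : ℕ} (hc : c ≤ 1) (f : ℤ → ℝ) (M : ℕ) :
    ∑ i ∈ Icc (-M : ℤ) (c + M), f i = ∑ n ∈ range (M + 1), om c n * (f (c + n) + f (-n)) := by
  induction M with
  | zero =>
    interval_cases c
    · simp [om]; ring
    · have : Icc (0 : ℤ) 1 = {0, 1} := by decide
      simp [om, this]; ring
  | succ M ih =>
    rw [sum_range_succ, ← ih]
    have : Icc (-(M + 1 : ℕ) : ℤ) (c + (M + 1 : ℕ)) =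
        insert (c + (M + 1 : ℕ) : ℤ) (insert (-(M + 1 : ℕ) : ℤ) (Icc (-M : ℤ) (c + M))) := by
      ext i; simp only [mem_Icc, mem_insert]; omega
    rw [this, sum_insert (by simp only [mem_Icc, mem_insert]; omega),
      sum_insert (by simp only [mem_Icc]; omega)]
    simp only [om]; ring

lemma exists_win (c : ℕ) (F : Finset ℤ) : ∃ M : ℕ, F ⊆ Icc (-M : ℤ) (c + M) := by
  refine ⟨F.sup Int.natAbs, fun i hi => ?_⟩
  have := Finset.le_sup (f := Int.natAbs) hi
  rw [mem_Icc]; omega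

variable {c d : ℕ} {h : ℕ → ℝ}

/-- extension of a half-line sequence to the integers -/
def xz (c : ℕ) (h : ℕ → ℝ) (i : ℤ) : ℝ := h (idx c i)

lemma xz_pos (n : ℕ) : xz c h (c + n) = h n := by rw [xz, idx_pos]
lemma xz_neg (hc : c ≤ 1) (n : ℕ) : xz c h (-n) = h n := by rw [xz, idx_neg hc]

lemma Pm_num_pos (hc : c ≤ 1) (h0 : h 0 = 1) (v : ℤ → ℝ) (n : ℕ) :
    xz c h (c + n - 1) * v (c + n - 1) + xz c h (c + n) * v (c + n) +
      xz c h (c + n + 1) * v (c + n + 1) = match n with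
      | 0 => c * v (-(0 : ℕ)) + (1 - c) * h 1 * v (-(1 : ℕ)) + v (c + (0 : ℕ)) + h 1 * v (c + (1 : ℕ))
      | n + 1 => h n * v (c + n) + h (n + 1) * v (c + (n + 1 : ℕ)) +
          h (n + 2) * v (c + (n + 2 : ℕ)) := by
  cases n with
  | zero => interval_cases c <;> simp [xz, idx, h0]
  | succ n =>
    have e1 : (c : ℤ) + (n + 1 : ℕ) - 1 = c + n := by push_cast; ring
    have e2 : (c : ℤ) + (n + 1 : ℕ) + 1 = c + (n + 2 : ℕ) := by push_cast; ring
    rw [e1, e2, xz_pos, xz_pos, xz_pos]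

lemma Pm_num_neg (hc : c ≤ 1) (h0 : h 0 = 1) (v : ℤ → ℝ) (n : ℕ) :
    xz c h (-n - 1) * v (-n - 1) + xz c h (-n) * v (-n) +
      xz c h (-n + 1) * v (-n + 1) = match n with
      | 0 => c * v (c + (0 : ℕ)) + (1 - c) * h 1 * v (c + (1 : ℕ)) + v (-(0 : ℕ)) + h 1 * v (-(1 : ℕ))
      | n + 1 => h n * v (-n) + h (n + 1) * v (-(n + 1 : ℕ)) +
          h (n + 2) * v (-(n + 2 : ℕ)) := by
  cases n with
  | zero => interval_cases c <;> simp [xz, idx, h0] <;> ring
  | succ n =>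
    have e1 : (-(n + 1 : ℕ) : ℤ) - 1 = -(n + 2 : ℕ) := by push_cast; ring
    have e2 : (-(n + 1 : ℕ) : ℤ) + 1 = -n := by push_cast; ring
    rw [e1, e2, xz_neg hc, xz_neg hc, xz_neg hc]; ring

lemma YY_pos' (hc : c ≤ 1) (h0 : h 0 = 1) (n : ℕ) : YY (xz c h) (c + n) = yy c h n := by
  have := Pm_num_pos hc h0 (fun _ => 1) n
  simp only [mul_one] at this
  rw [YY, this]; cases n <;> simp only [yy]; ring

lemma YY_neg' (hc : c ≤ 1) (h0 : h 0 = 1) (n : ℕ) : YY (xz c h) (-n) = yy c h n := by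
  have := Pm_num_neg hc h0 (fun _ => 1) n
  simp only [mul_one] at this
  rw [YY, this]; cases n <;> simp only [yy]; ring

lemma YY_xz (hc : c ≤ 1) (h0 : h 0 = 1) (i : ℤ) : YY (xz c h) i = yy c h (idx c i) := by
  rcases int_cases hc i with ⟨n, rfl⟩ | ⟨n, rfl⟩
  · rw [YY_pos' hc h0, idx_pos]
  · rw [YY_neg' hc h0, idx_neg hc]

lemma Inv.geo (H : Inv h) (n : ℕ) : h n ≤ 2 * (1 / 2) ^ n := by
  rcases Nat.eq_zero_or_pos n with rfl | hn
  · rw [H.h0]; norm_num
  · induction n, hn using Nat.le_induction with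
    | base => linarith [H.h1]
    | succ n hn ih => have := H.half n hn; rw [pow_succ]; linarith

lemma summable_idx (hc : c ≤ 1) {g : ℕ → ℝ} (hg : Summable g) : Summable fun i => g (idx c i) := by
  apply Summable.of_nat_of_neg
  · rw [← summable_nat_add_iff c]
    refine hg.congr fun n => ?_
    rw [show ((n + c : ℕ) : ℤ) = c + n by push_cast; ring, idx_pos]
  · simpa only [idx_neg hc] using hg

lemma tendsto_win (c : ℕ) : Tendsto (fun M : ℕ => Icc (-M : ℤ) (c + M)) atTop atTop := by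
  rw [tendsto_atTop]
  intro F
  obtain ⟨M, hM⟩ := exists_win c F
  filter_upwards [eventually_ge_atTop M] with N hN
  exact hM.trans (Icc_subset_Icc (by omega) (by omega))

theorem chain_of (hc : c ≤ 1) {ε : ℝ} (F : IsFix c d h) (hε : 0 < ε) (H : HCH c d h ε) :
    Chain d (xz c h) (fun i => xz c h i * YY (xz c h) i / ZZ c h) ε := by
  have h0 := F.inv.h0
  have hZ := ZZ_pos hc F.inv
  set pi : ℤ → ℝ := fun i => xz c h i * YY (xz c h) i / ZZ c h with hpi
  have p1 : ∀ n : ℕ, om c n * pi (c + n) = qq c h (ZZ c h) n / 2 := by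
    intro n; simp only [hpi, xz_pos, YY_pos' hc h0, qq]; ring
  have p2 : ∀ n : ℕ, om c n * pi (-n) = qq c h (ZZ c h) n / 2 := by
    intro n; simp only [hpi, xz_neg hc, YY_neg' hc h0, qq]; ring
  have ws : ∀ (f : ℤ → ℝ) (M : ℕ), ∑ i ∈ Icc (-M : ℤ) (c + M), pi i * f i =
      ∑ n ∈ range (M + 1), qq c h (ZZ c h) n / 2 * (f (c + n) + f (-n)) := by
    intro f M
    rw [win_sum hc]
    refine sum_congr rfl fun n _ => ?_
    rw [mul_add, ← mul_assoc, ← mul_assoc, p1, p2]; ring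
  have hle : ∀ n, h n * yy c h n / ZZ c h ≤ (6 / ZZ c h) * (1 / 2) ^ n := by
    intro n
    have a1 := F.inv.geo n
    have a2 : yy c h n ≤ 3 := by
      have := F.inv.le_one
      cases n with
      | zero => have := this 1; interval_cases c <;> simp [yy] <;> linarith
      | succ n => simp only [yy]; linarith [this n, this (n + 1), this (n + 2)]
    have := mul_le_mul a1 a2 (F.ypos hc n).le (by positivity)
    rw [div_mul_eq_mul_div]
    exact div_le_div_of_nonneg_right (by linarith) hZ.le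
  have hpe : ∀ i, pi i = h (idx c i) * yy c h (idx c i) / ZZ c h := by
    intro i; simp only [hpi, YY_xz hc h0, xz]
  have hnn : ∀ n, 0 ≤ h n * yy c h n / ZZ c h := fun n => by
    have := F.pos hc n; have := F.ypos hc n; positivity
  refine ⟨fun i => F.pos hc _, ⟨_, hZ, fun _ => rfl⟩, ?_, ?_, hε, ?_⟩
  · have hs : Summable pi := by
      simp only [funext hpe]
      exact summable_idx hc (g := fun n => h n * yy c h n / ZZ c h)
        (Summable.of_nonneg_of_le hnn hle (summable_geometric_two.mul_left _))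
    have t1 := hs.hasSum.comp (tendsto_win c)
    have t2 := (tendsto_add_atTop_iff_nat 1).2 (hasSum_qq hc F.inv).tendsto_sum_nat
    have : ∑' i, pi i = 1 := by
      refine tendsto_nhds_unique t1 (t2.congr fun M => ?_)
      have := ws (fun _ => 1) M
      simp only [mul_one] at this
      simp only [Function.comp, this]
      exact sum_congr rfl fun n _ => by ring
    rw [← this]; exact hs.hasSum
  · simp only [hpe]
    refine summable_idx hc (g := fun n => √(h n * yy c h n / ZZ c h))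
      (Summable.of_nonneg_of_le (fun n => Real.sqrt_nonneg _) (fun n => ?_)
        ((summable_geometric_of_lt_one (r := 3 / 4) (by norm_num) (by norm_num)).mul_left
          √(6 / ZZ c h)))
    apply Real.sqrt_le_iff.2
    refine ⟨by positivity, (hle n).trans ?_⟩
    rw [mul_pow, Real.sq_sqrt (by positivity), ← pow_mul, mul_comm n 2, pow_mul]
    gcongr; norm_num
  · intro v F' G hv hF hn
    obtain ⟨M, hM⟩ := exists_win c F'
    obtain ⟨M', hM'⟩ := exists_win c G
    have ext : ∀ f : ℤ → ℝ, (∀ i, i ∉ F' → f i = 0) →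
        ∑ i ∈ F', pi i * f i = ∑ i ∈ Icc (-M : ℤ) (c + M), pi i * f i := fun f hf =>
      sum_subset hM fun i _ hi => by rw [hf i hi, mul_zero]
    rw [ext _ (fun i hi => by rw [hF i hi]; ring), ws] at hn
    rw [ext _ hF, ws]
    have key := H (fun n => v (c + n)) (fun n => v (-n)) (M + 1) _ (fun n => hv _) (fun n => hv _)
      (fun h => by simp [h]) (fun n hn => ⟨hF _ fun hh => by
        have := mem_Icc.1 (hM hh); omega, hF _ fun hh => by
        have := mem_Icc.1 (hM hh); omega⟩) hn rfl (M' + 1)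
    refine le_trans ?_ key
    have hpi0 : ∀ i, 0 ≤ pi i := fun i => by rw [hpe]; exact hnn _
    refine (sum_le_sum_of_subset_of_nonneg hM' fun i _ _ => ?_).trans (le_of_eq ?_)
    · rw [pow_mul]; exact mul_nonneg (hpi0 i) (by positivity)
    · rw [ws]
      refine sum_congr rfl fun n _ => ?_
      rw [Pm, Pm, Pm_num_pos hc h0, Pm_num_neg hc h0, YY_pos' hc h0, YY_neg' hc h0]
      cases n <;> rfl

end Pool.Agent.P.MP_23c5a6_pr
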